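import Pool.Agent.Y791.BS.Tasks
import Pool.Agent.TH954.SObs
import Pool.Agent.W858.SG.Hensel

/-!
# Finitely many algebraic numbers in a completion (helper419)
-/

set_option autoImplicit false

open IsDedekindDomain NumberField Pool.Agent.W401.Cheb

namespace Pool.Agent.Y791.BS.Emb

open Pool.Agent.TH954 Pool.Agent.W858.SF Pool.Agent.W858.SG

/-- elements of the prime field -/
lemma prime_field {p : ℕ} [Fact p.Prime] {x : AlgebraicClosure (ZMod p)} (hx : x ^ p = x) :
    ∃ n : ℕ, x = (n : AlgebraicClosure (ZMod p)) := by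
  classical
  have hp : p.Prime := Fact.out
  set P : Polynomial (AlgebraicClosure (ZMod p)) := Polynomial.X ^ p - Polynomial.X with hP
  have hP0 : P ≠ 0 := FiniteField.X_pow_card_sub_X_ne_zero _ hp.one_lt
  have hdeg : P.natDegree = p := FiniteField.X_pow_card_sub_X_natDegree_eq _ hp.one_lt
  set A : Finset (AlgebraicClosure (ZMod p)) :=
    Finset.univ.image (algebraMap (ZMod p) (AlgebraicClosure (ZMod p))) with hA
  have hAc : A.card = p := by
    rw [hA, Finset.card_image_of_injective _ (RingHom.injective _), Finset.card_univ, ZMod.card]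
  have hAr : A ⊆ P.roots.toFinset := by
    intro y hy
    obtain ⟨a, -, rfl⟩ := Finset.mem_image.1 hy
    rw [Multiset.mem_toFinset, Polynomial.mem_roots hP0, Polynomial.IsRoot.def, hP]
    rw [Polynomial.eval_sub, Polynomial.eval_pow, Polynomial.eval_X, ← map_pow, ZMod.pow_card,
      sub_self]
  have hle : P.roots.toFinset.card ≤ p :=
    (Multiset.toFinset_card_le _).trans ((Polynomial.card_roots' P).trans hdeg.le)
  have heq : A = P.roots.toFinset := Finset.eq_of_subset_of_card_le hAr (by rw [hAc]; exact hle)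
  have hxA : x ∈ A := by
    rw [heq, Multiset.mem_toFinset, Polynomial.mem_roots hP0, Polynomial.IsRoot.def, hP]
    rw [Polynomial.eval_sub, Polynomial.eval_pow, Polynomial.eval_X, hx, sub_self]
  obtain ⟨a, -, ha⟩ := Finset.mem_image.1 hxA
  refine ⟨a.val, ?_⟩
  rw [← ha]
  have : (a.val : ZMod p) = a := ZMod.natCast_zmod_val a
  conv_lhs => rw [← this]
  rw [map_natCast]

variable {K : Type} [Field K] [NumberField K]

lemma vv_le_one (v : HeightOneSpectrum (𝓞 K)) (x : v.adicCompletion K) : vv v x ≤ 1 ↔ ‖x‖ ≤ 1 := by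
  have := norm_le_iff v x 1
  rw [norm_one, map_one] at this
  exact this.symm

lemma one_le_vv (v : HeightOneSpectrum (𝓞 K)) (x : v.adicCompletion K) : 1 ≤ vv v x ↔ 1 ≤ ‖x‖ := by
  have := norm_le_iff v 1 x
  rw [norm_one, map_one] at this
  exact this.symm

lemma vv_lt_one (v : HeightOneSpectrum (𝓞 K)) (x : v.adicCompletion K) : vv v x < 1 ↔ ‖x‖ < 1 := by
  rw [← not_le, one_le_vv, not_le]

lemma vv_eq_one (v : HeightOneSpectrum (𝓞 K)) (x : v.adicCompletion K) : vv v x = 1 ↔ ‖x‖ = 1 := by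
  rw [le_antisymm_iff, le_antisymm_iff, vv_le_one, one_le_vv]

/-- Galois stable finite sets containing given integral elements -/
lemma exists_stable (S : Finset (AlgebraicClosure K)) (hS : ∀ x ∈ S, IsIntegral ℤ x) :
    ∃ T : Finset (AlgebraicClosure K), S ⊆ T ∧ (∀ θ ∈ T, IsIntegral ℤ θ) ∧
      (∀ σ : AlgebraicClosure K ≃ₐ[K] AlgebraicClosure K, ∀ θ ∈ T, σ θ ∈ T) ∧
      ∀ θ ∈ T, ∃ x ∈ S, Polynomial.aeval θ (minpoly ℤ x) = 0 := by
  classical
  refine ⟨S.biUnion fun x => ((minpoly ℤ x).aroots (AlgebraicClosure K)).toFinset, ?_, ?_, ?_, ?_⟩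
  · intro x hx
    rw [Finset.mem_biUnion]
    refine ⟨x, hx, ?_⟩
    rw [Multiset.mem_toFinset, Polynomial.mem_aroots]
    exact ⟨minpoly.ne_zero (hS x hx), minpoly.aeval ℤ x⟩
  · intro θ hθ
    obtain ⟨x, hx, h⟩ := Finset.mem_biUnion.1 hθ
    rw [Multiset.mem_toFinset, Polynomial.mem_aroots] at h
    exact ⟨minpoly ℤ x, minpoly.monic (hS x hx), h.2⟩
  · intro σ θ hθ
    obtain ⟨x, hx, h⟩ := Finset.mem_biUnion.1 hθ
    rw [Finset.mem_biUnion]
    refine ⟨x, hx, ?_⟩
    rw [Multiset.mem_toFinset, Polynomial.mem_aroots] at h ⊢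
    refine ⟨h.1, ?_⟩
    have e : Polynomial.aeval (σ θ) (minpoly ℤ x) = σ (Polynomial.aeval θ (minpoly ℤ x)) := by
      rw [Polynomial.aeval_def, Polynomial.aeval_def]
      change _ = (σ : AlgebraicClosure K →+* AlgebraicClosure K) _
      rw [Polynomial.hom_eval₂]
      congr 1
      exact Subsingleton.elim _ _
    rw [e, h.2, map_zero]
  · intro θ hθ
    obtain ⟨x, hx, h⟩ := Finset.mem_biUnion.1 hθ
    rw [Multiset.mem_toFinset, Polynomial.mem_aroots] at h
    exact ⟨x, hx, h.2⟩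

/-- conjugates of elements of a normal number field -/
lemma conj_range {L A : Type} [Field L] [NumberField L] [IsGalois ℚ L] [Field A] [CharZero A]
    (κ : L →+* A) {w : L} (hw : IsIntegral ℤ w) {θ : A}
    (h : Polynomial.aeval θ (minpoly ℤ (κ w)) = 0) : ∃ w', κ w' = θ := by
  have hs : ((minpoly ℚ w).map (algebraMap ℚ L)).Splits := Normal.splits inferInstance w
  have h0 : (minpoly ℚ w).map (algebraMap ℚ L) ≠ 0 :=
    (Polynomial.map_ne_zero_iff (algebraMap ℚ L).injective).2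
      (minpoly.ne_zero (Algebra.IsIntegral.isIntegral w))
  refine hs.mem_range_of_isRoot (i := κ) (x := θ) h0 ?_
  rw [Polynomial.IsRoot.def, Polynomial.eval_map, Polynomial.eval₂_map]
  have e3 : minpoly ℤ (κ w) = minpoly ℤ w :=
    minpoly.algHom_eq κ.toIntAlgHom κ.injective w
  have e4 : minpoly ℚ w = (minpoly ℤ w).map (algebraMap ℤ ℚ) :=
    minpoly.isIntegrallyClosed_eq_field_fractions' ℚ hw
  rw [e4, Polynomial.eval₂_map]
  rw [e3, Polynomial.aeval_def] at h
  rw [← h]
  congr 1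
  exact Subsingleton.elim _ _

/-- the main step -/
theorem step (T : Finset (AlgebraicClosure K))
    (hT : ∀ σ : AlgebraicClosure K ≃ₐ[K] AlgebraicClosure K, ∀ θ ∈ T, σ θ ∈ T)
    (hint : ∀ θ ∈ T, IsIntegral ℤ θ) {L : Type} [Field L] [NumberField L] [IsGalois ℚ L]
    (i : K →+* L) (κ : L →+* AlgebraicClosure K)
    (hκi : ∀ x, κ (i x) = algebraMap K (AlgebraicClosure K) x)
    (hκT : ∀ θ ∈ T, ∃ y : L, κ y = θ) (D : ℕ) (hD : D ≠ 0) :
    ∃ v : HeightOneSpectrum (𝓞 K), (D : 𝓞 K) ∉ v.asIdeal ∧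
      ∀ (ι : AlgebraicClosure K →ₐ[K] AlgebraicClosure (v.adicCompletion K)), ∀ θ ∈ T,
      ∃ y : v.adicCompletion K, ‖y‖ ≤ 1 ∧
        algebraMap (v.adicCompletion K) (AlgebraicClosure (v.adicCompletion K)) y = ι θ := by
  classical
  have htex : ∀ θ, ∃ s : 𝓞 L, θ ∈ T → κ s = θ := by
    intro θ
    by_cases hθ : θ ∈ T
    · obtain ⟨y, hy⟩ := exists_int_preimage κ (hint θ hθ) (hκT θ hθ)
      exact ⟨y, fun _ => hy⟩
    · exact ⟨0, fun h => absurd h hθ⟩
  choose t ht using htex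
  have htinj : ∀ θ ∈ T, ∀ θ' ∈ T, θ ≠ θ' → t θ ≠ t θ' := by
    intro θ hθ θ' hθ' hne h
    apply hne
    rw [← ht θ hθ, ← ht θ' hθ', h]
  set iO : 𝓞 K →+* 𝓞 L := RingOfIntegers.mapRingHom i with hiO
  have hiOc : ∀ x : 𝓞 K, κ (iO x : L) = algebraMap K (AlgebraicClosure K) (x : K) :=
    fun x => hκi x
  obtain ⟨m, hm, hm'⟩ := Pool.Agent.W723.SecC.nz L
    ((D : 𝓞 L) * ∏ z ∈ (T ×ˢ T).filter (fun z => z.1 ≠ z.2), (t z.1 - t z.2))
    (mul_ne_zero (by exact_mod_cast hD) (Finset.prod_ne_zero_iff.2 (fun z hz => by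
      obtain ⟨h1, h2⟩ := Finset.mem_filter.1 hz
      obtain ⟨h3, h4⟩ := Finset.mem_product.1 h1
      exact sub_ne_zero.2 (htinj _ h3 _ h4 h2))))
  obtain ⟨p, ⟨hp, hxp⟩, hpgt⟩ := (infinite_frob L 1).exists_gt m
  have hpm : ¬ p ∣ m := fun hd => by
    have h1 := Nat.le_of_dvd hm hd
    omega
  have : Fact p.Prime := ⟨hp⟩
  obtain ⟨φ, hφ⟩ : ∃ φ : 𝓞 L →+* AlgebraicClosure (ZMod p), HasFrob p φ 1 := by
    unfold xp at hxp
    rw [dif_pos hp] at hxp
    by_contra h
    push Not at h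
    apply hxp
    rw [Nat.card_eq_zero]
    left
    exact ⟨fun x => h x.1 x.2⟩
  have hφE := hm' _ φ (by
    rw [Ne, CharP.cast_eq_zero_iff (AlgebraicClosure (ZMod p)) p]
    exact hpm)
  rw [map_mul, map_prod] at hφE
  have hφD : φ (D : 𝓞 L) ≠ 0 := left_ne_zero_of_mul hφE
  have hφne : ∀ θ ∈ T, ∀ θ' ∈ T, θ ≠ θ' → φ (t θ) ≠ φ (t θ') := by
    intro θ hθ θ' hθ' hne h
    have h1 := Finset.prod_ne_zero_iff.1 (right_ne_zero_of_mul hφE) (θ, θ')
      (Finset.mem_filter.2 ⟨Finset.mem_product.2 ⟨hθ, hθ'⟩, hne⟩)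
    apply h1
    rw [map_sub, h, sub_self]
  have hφp : ∀ x : 𝓞 L, φ x ^ p = φ x := by
    intro x
    have h1 := hφ x
    rw [one_smul] at h1
    exact h1.symm
  choose n hn using fun θ => prime_field (hφp (t θ))
  -- the place
  set P : Ideal (𝓞 K) := RingHom.ker (φ.comp iO) with hP
  have hPprime : P.IsPrime := RingHom.ker_isPrime _
  have hP0 : P ≠ ⊥ := by
    intro h0
    have hpP : ((p : ℕ) : 𝓞 K) ∈ P := by
      rw [hP, RingHom.mem_ker, map_natCast]
      exact CharP.cast_eq_zero _ p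
    rw [h0, Ideal.mem_bot] at hpP
    have : p = 0 := by exact_mod_cast hpP
    exact hp.ne_zero this
  let v : HeightOneSpectrum (𝓞 K) := ⟨P, hPprime, hP0⟩
  have hmemv : ∀ x : 𝓞 K, x ∈ v.asIdeal ↔ φ (iO x) = 0 := fun x => RingHom.mem_ker
  have hDv : (D : 𝓞 K) ∉ v.asIdeal := by
    rw [hmemv, map_natCast]
    exact hφD
  obtain ⟨q, hqm, hq⟩ := exists_int_poly T hT hint
  have hqO : q.map iO = ∏ θ ∈ T, (Polynomial.X - Polynomial.C (t θ)) := by
    have hinj : Function.Injective (κ.comp (algebraMap (𝓞 L) L)) :=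
      κ.injective.comp RingOfIntegers.coe_injective
    apply Polynomial.map_injective _ hinj
    rw [Polynomial.map_map, Polynomial.map_prod]
    have e1 : (κ.comp (algebraMap (𝓞 L) L)).comp iO =
        algebraMap (𝓞 K) (AlgebraicClosure K) := by
      apply RingHom.ext
      intro x
      exact hiOc x
    rw [e1, hq]
    refine Finset.prod_congr rfl (fun θ hθ => ?_)
    rw [Polynomial.map_sub, Polynomial.map_X, Polynomial.map_C]
    rw [show (κ.comp (algebraMap (𝓞 L) L)) (t θ) = θ from ht θ hθ]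
  have hqφ : q.map (φ.comp iO) = ∏ θ ∈ T, (Polynomial.X - Polynomial.C (φ (t θ))) := by
    rw [← Polynomial.map_map, hqO, Polynomial.map_prod]
    refine Finset.prod_congr rfl (fun θ _ => ?_)
    rw [Polynomial.map_sub, Polynomial.map_X, Polynomial.map_C]
  have hqdeg : q.natDegree = T.card := by
    have h1 := congrArg Polynomial.natDegree hq
    rw [hqm.natDegree_map, Polynomial.natDegree_prod_of_monic _ _
      (fun θ _ => Polynomial.monic_X_sub_C θ)] at h1
    simpa using h1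
  have hev : ∀ (r : Polynomial (𝓞 K)) (N : ℕ), φ (iO (r.eval (N : 𝓞 K))) =
      (r.map (φ.comp iO)).eval (N : AlgebraicClosure (ZMod p)) := by
    intro r N
    rw [Polynomial.eval_map]
    have h1 := Polynomial.hom_eval₂ r (RingHom.id _) (φ.comp iO) (N : 𝓞 K)
    rw [RingHom.comp_id, map_natCast] at h1
    exact h1
  have hroot : ∀ θ ∈ T, q.eval (n θ : 𝓞 K) ∈ v.asIdeal := by
    intro θ hθ
    rw [hmemv, hev, hqφ, Polynomial.eval_prod, ← hn θ]
    exact Finset.prod_eq_zero hθ (by simp)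
  have hder : ∀ θ ∈ T, q.derivative.eval (n θ : 𝓞 K) ∉ v.asIdeal := by
    intro θ hθ
    rw [hmemv, hev, ← Polynomial.derivative_map, hqφ, ← hn θ, ← Finset.mul_prod_erase T _ hθ,
      Polynomial.derivative_mul, Polynomial.eval_add, Polynomial.eval_mul, Polynomial.eval_mul]
    have e1 : (Polynomial.X - Polynomial.C (φ (t θ))).eval (φ (t θ)) = 0 := by simp
    have e2 : (Polynomial.X - Polynomial.C (φ (t θ))).derivative.eval (φ (t θ)) = 1 := by simp
    rw [e1, e2, zero_mul, add_zero, one_mul, Polynomial.eval_prod]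
    refine Finset.prod_ne_zero_iff.2 fun θ' hθ' => ?_
    obtain ⟨h1, h2⟩ := Finset.mem_erase.1 hθ'
    rw [Polynomial.eval_sub, Polynomial.eval_X, Polynomial.eval_C]
    exact sub_ne_zero.2 (hφne θ hθ θ' h2 (Ne.symm h1))
  -- Hensel
  set h : Polynomial (v.adicCompletion K) := q.map (toLoc v) with hh
  have hheval : ∀ (r : Polynomial (𝓞 K)) (x : 𝓞 K), (r.map (toLoc v)).eval (toLoc v x) =
      toLoc v (r.eval x) := by
    intro r x
    rw [Polynomial.eval_map]
    have h1 := Polynomial.hom_eval₂ r (RingHom.id _) (toLoc v) x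
    rw [RingHom.comp_id] at h1
    exact h1.symm
  have hyex : ∀ θ, ∃ y : v.adicCompletion K, θ ∈ T →
      ‖y - toLoc v (n θ : 𝓞 K)‖ < 1 ∧ h.eval y = 0 := by
    intro θ
    by_cases hθ : θ ∈ T
    · have hπ : vv v (h.eval (toLoc v (n θ : 𝓞 K))) < 1 := by
        rw [vv_lt_one, hheval]
        exact (norm_toLoc_lt v _).2 (hroot θ hθ)
      obtain ⟨y, hy1, hy2⟩ := newton v h (fun j => by
        rw [vv_le_one, hh, Polynomial.coeff_map]
        exact norm_toLoc_le v _) (toLoc v (n θ : 𝓞 K)) (by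
        rw [vv_le_one]
        exact norm_toLoc_le v _) _ hπ le_rfl (by
        rw [vv_eq_one, hh, Polynomial.derivative_map, hheval]
        exact (norm_toLoc_eq v _).2 (hder θ hθ))
      exact ⟨y, fun _ => ⟨(vv_lt_one v _).1 (hy1.trans_lt hπ), hy2⟩⟩
    · exact ⟨0, fun h => absurd h hθ⟩
  choose y hy using hyex
  have hyle : ∀ θ ∈ T, ‖y θ‖ ≤ 1 := by
    intro θ hθ
    have e : y θ = (y θ - toLoc v (n θ : 𝓞 K)) + toLoc v (n θ : 𝓞 K) := by ring
    rw [e]
    exact uadd (hy θ hθ).1.le (norm_toLoc_le v _)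
  have hyinj : ∀ θ ∈ T, ∀ θ' ∈ T, y θ = y θ' → θ = θ' := by
    intro θ hθ θ' hθ' heq
    by_contra hne
    apply hφne θ hθ θ' hθ' hne
    have h1 : ‖toLoc v ((n θ : 𝓞 K) - (n θ' : 𝓞 K))‖ < 1 := by
      have e : toLoc v ((n θ : 𝓞 K) - (n θ' : 𝓞 K)) =
          (y θ' - toLoc v (n θ' : 𝓞 K)) - (y θ - toLoc v (n θ : 𝓞 K)) := by
        rw [map_sub, heq]; ring
      rw [e]
      exact usub_lt (hy θ' hθ').1 (hy θ hθ).1
    rw [norm_toLoc_lt, hmemv, map_sub, map_sub, map_natCast, map_natCast, map_natCast,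
      map_natCast, sub_eq_zero] at h1
    rw [hn θ, hn θ', h1]
  refine ⟨v, hDv, fun ι θ hθ => ?_⟩
  set am := algebraMap (v.adicCompletion K) (AlgebraicClosure (v.adicCompletion K)) with ham
  set H : Polynomial (AlgebraicClosure (v.adicCompletion K)) := h.map am with hH
  have hHm : H.Monic := (hqm.map _).map _
  have hHdeg : H.natDegree = T.card := by
    rw [hH, (hqm.map (toLoc v)).natDegree_map, hqm.natDegree_map, hqdeg]
  have hsub : T.image (fun θ => am (y θ)) ⊆ H.roots.toFinset := by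
    intro x hx
    obtain ⟨θ', hθ', rfl⟩ := Finset.mem_image.1 hx
    rw [Multiset.mem_toFinset, Polynomial.mem_roots hHm.ne_zero, Polynomial.IsRoot.def, hH,
      Polynomial.eval_map_apply, (hy θ' hθ').2, map_zero]
  have hcard : (T.image (fun θ => am (y θ))).card = T.card := by
    refine Finset.card_image_of_injOn ?_
    intro θ1 h1 θ2 h2 h12
    exact hyinj θ1 h1 θ2 h2 (am.injective h12)
  have hle : H.roots.toFinset.card ≤ T.card :=
    (Multiset.toFinset_card_le _).trans ((Polynomial.card_roots' H).trans hHdeg.le)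
  have heq := Finset.eq_of_subset_of_card_le hsub (by rw [hcard]; exact hle)
  have hmem : ι θ ∈ H.roots.toFinset := by
    rw [Multiset.mem_toFinset, Polynomial.mem_roots hHm.ne_zero, Polynomial.IsRoot.def, hH, hh,
      Polynomial.map_map]
    have e1 : am.comp (toLoc v) = (ι : AlgebraicClosure K →+* _).comp
          (algebraMap (𝓞 K) (AlgebraicClosure K)) := by
      apply RingHom.ext
      intro x
      exact (ι.commutes (x : K)).symm
    rw [e1, ← Polynomial.map_map, hq, Polynomial.map_prod, Polynomial.eval_prod]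
    refine Finset.prod_eq_zero hθ ?_
    rw [Polynomial.map_sub, Polynomial.map_X, Polynomial.map_C, Polynomial.eval_sub,
      Polynomial.eval_X, Polynomial.eval_C]
    exact sub_self _
  rw [← heq] at hmem
  obtain ⟨θ', hθ', e⟩ := Finset.mem_image.1 hmem
  exact ⟨y θ', hyle θ' hθ', e⟩

theorem main : S_Emb := by
  intro K _ _ Z
  classical
  set Z' : Finset (AlgebraicClosure K) := Z ∪ Z.image (fun z => z⁻¹) with hZ'
  obtain ⟨L, _, _, _, i, τ1, κ, hκi, -, hκs⟩ := Pool.Agent.TH120.Sec.exists_L K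
    ((Z' : Finset (AlgebraicClosure K)) : Set (AlgebraicClosure K)) (Finset.finite_toSet _) 1
  -- a common denominator
  have hwex : ∀ z, ∃ w : L, z ∈ Z' → κ w = z := by
    intro z
    by_cases hz : z ∈ Z'
    · obtain ⟨w, hw⟩ := hκs z (Finset.mem_coe.2 hz)
      exact ⟨w, fun _ => hw⟩
    · exact ⟨0, fun h => absurd h hz⟩
  choose w hw using hwex
  obtain ⟨D', hD'0, hD''⟩ := exists_integral_multiples ℤ ℚ (Z'.image w)
  have hD' : ∀ z ∈ Z', IsIntegral ℤ (D' • z) := by
    intro z hz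
    have h1 := hD'' (w z) (Finset.mem_image_of_mem _ hz)
    have h2 : IsIntegral ℤ (κ (D' • w z)) := h1.map κ.toIntAlgHom
    rwa [map_zsmul, hw z hz] at h2
  set D : ℕ := D'.natAbs with hD
  have hD0 : D ≠ 0 := Int.natAbs_ne_zero.2 hD'0
  have hDint : ∀ z ∈ Z', IsIntegral ℤ ((D : AlgebraicClosure K) * z) := by
    intro z hz
    have h1 := hD' z hz
    rw [zsmul_eq_mul] at h1
    have h2 : ((D : ℤ) : AlgebraicClosure K) = ((D' : ℤ) : AlgebraicClosure K) ∨
        ((D : ℤ) : AlgebraicClosure K) = -((D' : ℤ) : AlgebraicClosure K) := by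
      rcases Int.natAbs_eq D' with h3 | h3
      · left; rw [hD, ← h3]
      · right
        have : (D : ℤ) = -D' := by rw [hD]; omega
        rw [this]; push_cast; ring
    have h4 : ((D : ℤ) : AlgebraicClosure K) = (D : AlgebraicClosure K) := by push_cast; ring
    rw [← h4]
    rcases h2 with h2 | h2
    · rw [h2]; exact h1
    · rw [h2, neg_mul]; exact h1.neg
  set S : Finset (AlgebraicClosure K) := Z'.image (fun z => (D : AlgebraicClosure K) * z) with hS
  have hSint : ∀ x ∈ S, IsIntegral ℤ x := by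
    intro x hx
    obtain ⟨z, hz, rfl⟩ := Finset.mem_image.1 hx
    exact hDint z hz
  obtain ⟨T, hST, hTint, hTσ, hTr⟩ := exists_stable S hSint
  have hTL : ∀ θ ∈ T, ∃ y : L, κ y = θ := by
    intro θ hθ
    obtain ⟨x, hx, h⟩ := hTr θ hθ
    obtain ⟨z, hz, rfl⟩ := Finset.mem_image.1 hx
    have e1 : κ ((D : L) * w z) = (D : AlgebraicClosure K) * z := by
      rw [map_mul, map_natCast, hw z hz]
    have e2 : IsIntegral ℤ ((D : L) * w z) := by
      refine (isIntegral_algHom_iff κ.toIntAlgHom κ.injective).1 ?_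
      show IsIntegral ℤ (κ ((D : L) * w z))
      rw [e1]; exact hDint z hz
    rw [← e1] at h
    exact conj_range κ e2 h
  obtain ⟨v, hDv, hv⟩ := step T hTσ hTint i κ hκi hTL D hD0
  have hDn : ‖(D : v.adicCompletion K)‖ = 1 := by
    have h1 := (norm_toLoc_eq v (D : 𝓞 K)).2 hDv
    rwa [map_natCast] at h1
  have hch : CharZero (v.adicCompletion K) :=
    charZero_of_injective_algebraMap (algebraMap K (v.adicCompletion K)).injective
  have hD0' : (D : v.adicCompletion K) ≠ 0 := by exact_mod_cast hD0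
  let ι : AlgebraicClosure K →ₐ[K] AlgebraicClosure (v.adicCompletion K) := IsAlgClosed.lift
  have hall : ∀ z ∈ Z', ∃ y : v.adicCompletion K, ‖y‖ ≤ 1 ∧
      algebraMap (v.adicCompletion K) (AlgebraicClosure (v.adicCompletion K)) y = ι z := by
    intro z hz
    obtain ⟨y, hy1, hy2⟩ := hv ι _ (hST (Finset.mem_image_of_mem _ hz))
    refine ⟨y / (D : v.adicCompletion K), ?_, ?_⟩
    · rw [norm_div, hDn, div_one]; exact hy1
    · rw [map_div₀, hy2, map_mul, map_natCast, map_natCast]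
      have : (D : AlgebraicClosure (v.adicCompletion K)) ≠ 0 := by
        rw [← map_natCast (algebraMap (v.adicCompletion K) (AlgebraicClosure (v.adicCompletion K)))]
        exact (map_ne_zero _).2 hD0'
      field_simp
  refine ⟨v, ι, fun z hz => ?_⟩
  obtain ⟨y, hy1, hy2⟩ := hall z (Finset.mem_union_left _ hz)
  refine ⟨y, hy2, fun hz0 => ?_⟩
  obtain ⟨y', hy1', hy2'⟩ := hall z⁻¹ (Finset.mem_union_right _ (Finset.mem_image_of_mem _ hz))
  have e : y * y' = 1 := by
    apply (algebraMap (v.adicCompletion K) (AlgebraicClosure (v.adicCompletion K))).injective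
    rw [map_mul, hy2, hy2', ← map_mul, mul_inv_cancel₀ hz0, map_one, map_one]
  have e2 : ‖y‖ * ‖y'‖ = 1 := by rw [← norm_mul, e, norm_one]
  refine le_antisymm hy1 ?_
  by_contra hcon
  push Not at hcon
  have h0 := norm_nonneg y
  nlinarith

end Pool.Agent.Y791.BS.Emb
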