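import Pool.Agent.TH954.SFix

/-!
# Changing the embedding at a place of a semilinear action, and Hilbert's theorem 90
-/

set_option autoImplicit false
set_option linter.unusedSectionVars false

namespace Pool.Agent.Y791.BS

open Pool.Agent.TH954

section twist

variable {k M : Type} [Field k] [Field M] [Algebra k M]

/-- two embeddings of an algebraic closure differ by an automorphism -/
lemma exists_aut {C : Type} [Field C] [Algebra k C] (ι₁ ι : AlgebraicClosure k →ₐ[k] C) :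
    ∃ γ : AlgebraicClosure k ≃ₐ[k] AlgebraicClosure k, ∀ z, ι₁ (γ z) = ι z := by
  have h1 : ∀ z, ∃ z', ι₁ z' = ι z := fun z =>
    alg_range ι₁ ((Algebra.IsAlgebraic.isAlgebraic (R := k) z).algHom ι)
  let γ₀ : AlgebraicClosure k →ₐ[k] AlgebraicClosure k :=
    ((AlgEquiv.ofInjective ι₁ ι₁.injective).symm : ι₁.range →ₐ[k] AlgebraicClosure k).comp
      (ι.codRestrict ι₁.range (fun z => (h1 z)))
  refine ⟨AlgEquiv.ofBijective γ₀ (Algebra.IsAlgebraic.algHom_bijective γ₀), fun z => ?_⟩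
  change ι₁ ((AlgEquiv.ofInjective ι₁ ι₁.injective).symm _) = ι z
  have h2 := AlgEquiv.apply_symm_apply (AlgEquiv.ofInjective ι₁ ι₁.injective)
    (ι.codRestrict ι₁.range (fun z => (h1 z)) z)
  exact congrArg Subtype.val h2

/-- a place of a semilinear action with a given embedding -/
theorem exists_twist (A : SAct k M) {L : Type} [Field L] [Algebra k L]
    {pl : Plc k M (AlgebraicClosure L)} (hpl : GeoPlc A pl)
    (ι : AlgebraicClosure k →ₐ[k] AlgebraicClosure L) :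
    ∃ pl' : Plc k M (AlgebraicClosure L), GeoPlc A pl' ∧ ∀ z, pl'.iot A.j z = ι z := by
  obtain ⟨γ, hγ⟩ := exists_aut (pl.iot A.j) ι
  have hmem : ∀ x : M, x ∈ pl.W.comap (A.s γ : M →+* M) ↔ A.s γ x ∈ pl.W := fun x => Iff.rfl
  let ρ' : (pl.W.comap (A.s γ : M →+* M)) →+* AlgebraicClosure L :=
    pl.ρ.comp (((A.s γ : M →+* M).comp (pl.W.comap (A.s γ : M →+* M)).subtype).codRestrict
      pl.W (fun x => x.2))
  have hρ' : ∀ (x : M) (h : x ∈ pl.W.comap (A.s γ : M →+* M)),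
      ρ' ⟨x, h⟩ = pl.ρ ⟨A.s γ x, h⟩ := fun x h => rfl
  let pl' : Plc k M (AlgebraicClosure L) :=
    { W := pl.W.comap (A.s γ : M →+* M)
      ρ := ρ'
      loc := by
        intro x hx
        have h1 := pl.loc ⟨A.s γ x, x.2⟩ hx
        rw [hmem, map_inv₀]
        exact h1
      comm := by
        intro c
        obtain ⟨h, e⟩ := pl.comm c
        have h2 : A.s γ (algebraMap k M c) = algebraMap k M c := (A.s γ).commutes c
        have h3 : algebraMap k M c ∈ pl.W.comap (A.s γ : M →+* M) := by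
          rw [hmem, h2]
          exact h
        refine ⟨h3, ?_⟩
        rw [hρ', ← e]
        congr 1
        exact Subtype.ext h2 }
  have hspec : ∀ z, pl'.iot A.j z = ι z := by
    intro z
    obtain ⟨h, e⟩ := pl'.iot_spec A.j z
    rw [← e]
    obtain ⟨h', e'⟩ := pl.iot_spec A.j (γ z)
    rw [← hγ, ← e']
    change pl.ρ ⟨A.s γ (A.j z), _⟩ = _
    congr 1
    exact Subtype.ext (A.hj γ z)
  refine ⟨pl', ?_, hspec⟩
  intro σ τ hστ x
  have hC : Compat (pl.iot A.j) σ (γ * τ * γ⁻¹) := by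
    intro z
    change pl.iot A.j (γ (τ (γ.symm z))) = _
    have h1 := hστ (γ.symm z)
    rw [hspec, hspec] at h1
    rw [hγ, h1, ← hγ, γ.apply_symm_apply]
  obtain ⟨h, e⟩ := hpl σ (γ * τ * γ⁻¹) hC ⟨A.s γ x, x.2⟩
  have e1 : A.s (γ * τ * γ⁻¹) (A.s γ (x : M)) = A.s γ (A.s τ x) := by
    have h3 : (A.s (γ * τ * γ⁻¹) * A.s γ) (x : M) = (A.s γ * A.s τ) x := by
      rw [← map_mul, ← map_mul]
      congr 2
      group
    exact h3
  have h4 : A.s τ (x : M) ∈ pl'.W := by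
    change A.s γ (A.s τ x) ∈ pl.W
    rw [← e1]
    exact h
  refine ⟨h4, ?_⟩
  change pl.ρ ⟨A.s γ (A.s τ x), _⟩ = _
  rw [show σ (pl'.ρ x) = σ (pl.ρ ⟨A.s γ x, x.2⟩) from rfl, ← e]
  congr 1
  exact Subtype.ext e1.symm

end twist

section eig

variable {k A : Type*} [Field k] [Field A] [Algebra k A]

/-- Hilbert's theorem 90 for a character -/
theorem exists_eigen [Normal k A] (T : Subgroup (A ≃ₐ[k] A)) (χ : (A ≃ₐ[k] A) → A)
    (hχ0 : ∀ σ ∈ T, χ σ ≠ 0) (hχ1 : ∀ σ ∈ T, ∀ τ ∈ T, χ (σ * τ) = χ σ * χ τ)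
    (hχT : ∀ σ ∈ T, ∀ τ ∈ T, σ (χ τ) = χ τ) (E : IntermediateField k A)
    [FiniteDimensional k E] (hE : ∀ σ ∈ T, σ ∈ E.fixingSubgroup → χ σ = 1) :
    ∃ β : A, β ≠ 0 ∧ ∀ σ ∈ T, σ β = χ σ * β := by
  classical
  set L : IntermediateField k A := IntermediateField.normalClosure k E A with hL
  have hEL : E ≤ L := IntermediateField.le_normalClosure E
  have : Normal k L := inferInstance
  have : FiniteDimensional k L := inferInstance
  set res : (A ≃ₐ[k] A) →* (L ≃ₐ[k] L) := AlgEquiv.restrictNormalHom L with hres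
  have hresapp : ∀ (σ : A ≃ₐ[k] A) (x : L), ((res σ x : L) : A) = σ x := fun σ x =>
    AlgEquiv.restrictNormal_commutes σ L x
  set T' : Subgroup (L ≃ₐ[k] L) := T.map res with hT'
  have hlift : ∀ τ : T', ∃ σ : A ≃ₐ[k] A, σ ∈ T ∧ res σ = τ.1 := fun τ => by
    obtain ⟨σ, hσ, h⟩ := τ.2
    exact ⟨σ, hσ, h⟩
  choose lft hlT hlres using hlift
  have : Finite (L ≃ₐ[k] L) := inferInstance
  have : Fintype T' := Fintype.ofFinite _
  -- two lifts have the same value
  have hsame : ∀ σ ∈ T, ∀ σ' ∈ T, res σ = res σ' → χ σ = χ σ' := by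
    intro σ hσ σ' hσ' h
    have h0 : σ'⁻¹ * σ ∈ T := T.mul_mem (T.inv_mem hσ') hσ
    have h1 : σ'⁻¹ * σ ∈ E.fixingSubgroup := by
      rw [IntermediateField.mem_fixingSubgroup_iff]
      intro x hx
      have h2 : ((res σ ⟨x, hEL hx⟩ : L) : A) = ((res σ' ⟨x, hEL hx⟩ : L) : A) := by rw [h]
      rw [hresapp, hresapp] at h2
      simp only at h2
      change σ'⁻¹ (σ x) = x
      rw [h2]
      exact AlgEquiv.symm_apply_apply σ' x
    have h3 := hE _ h0 h1
    have h4 : σ = σ' * (σ'⁻¹ * σ) := by group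
    rw [h4, hχ1 _ hσ' _ h0, h3, mul_one]
  set ζ : T' → A := fun τ => (χ (lft τ))⁻¹ with hζ
  have hζ0 : ∀ τ, ζ τ ≠ 0 := fun τ => inv_ne_zero (hχ0 _ (hlT τ))
  -- independence of characters
  have hex : ∃ x : L, ∑ τ : T', ζ τ * ((τ.1 x : L) : A) ≠ 0 := by
    by_contra hcon
    push Not at hcon
    have hli := linearIndependent_monoidHom L A
    set f : T' → (L →* A) := fun τ =>
      ((algebraMap L A : L →+* A) : L →* A).comp ((τ.1 : L ≃ₐ[k] L) : L →* L) with hf
    have hinj : Function.Injective f := by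
      intro τ τ' h
      apply Subtype.ext
      apply AlgEquiv.ext
      intro x
      have := DFunLike.congr_fun h x
      exact Subtype.ext this
    have hli' := hli.comp f hinj
    rw [Fintype.linearIndependent_iff] at hli'
    have h1 := hli' ζ (by
      funext x
      simp only [Finset.sum_apply, Pi.smul_apply, smul_eq_mul, Function.comp_apply, Pi.zero_apply]
      exact hcon x)
    exact hζ0 1 (h1 1)
  obtain ⟨x, hx⟩ := hex
  refine ⟨_, hx, ?_⟩
  intro σ hσ
  rw [map_sum, Finset.mul_sum]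
  have hσ' : res σ ∈ T' := ⟨σ, hσ, rfl⟩
  have hterm : ∀ τ : T', σ (ζ τ * ((τ.1 x : L) : A)) =
      χ σ * (ζ (⟨res σ, hσ'⟩ * τ) *
        ((((⟨res σ, hσ'⟩ * τ : T') : L ≃ₐ[k] L) x : L) : A)) := by
    intro τ
    have e1 : σ ((τ.1 x : L) : A) = ((((⟨res σ, hσ'⟩ * τ : T') : L ≃ₐ[k] L) x : L) : A) := by
      change _ = (((res σ) (τ.1 x) : L) : A)
      rw [hresapp]
    have e2 : χ (lft (⟨res σ, hσ'⟩ * τ)) = χ σ * χ (lft τ) := by
      rw [← hχ1 _ hσ _ (hlT τ)]
      apply hsame _ (hlT _) _ (T.mul_mem hσ (hlT τ))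
      rw [map_mul, hlres, hlres]
      rfl
    have h0 := hχ0 _ hσ
    have h1 := hχ0 _ (hlT τ)
    rw [map_mul, e1, hζ]
    simp only
    rw [e2, map_inv₀, hχT _ hσ _ (hlT τ)]
    field_simp
  rw [Finset.sum_congr rfl fun τ _ => hterm τ]
  exact Fintype.sum_equiv (Equiv.mulLeft (⟨res σ, hσ'⟩ : T')) _ _ (fun τ => rfl)

end eig

end Pool.Agent.Y791.BS
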