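import Pool.Agent.Y791.BS.Good
import Pool.Agent.Y791.BS.Twist

/-!
# Compactness, characters of torsion groups, and radicals over the rational functions
-/

set_option autoImplicit false
set_option linter.unusedSectionVars false

open Polynomial

namespace Pool.Agent.Y791.BS

open Pool.Agent.TH954

section level

variable {K : Type} [Field K] [CharZero K]

/-- a condition which holds for the automorphisms fixing all constants holds for those fixing
finitely many of them -/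
theorem Frame.exists_level (fr : Frame K) (U : Set (Kb K ≃ₐ[RatFunc K] Kb K))
    (F' : IntermediateField (RatFunc K) (Kb K)) [FiniteDimensional (RatFunc K) F']
    (hU : ∀ x ∈ U, ∀ y ∈ F'.fixingSubgroup, x * y ∈ U) (hH : ∀ h ∈ fr.HZ Set.univ, h ∈ U) :
    ∃ Z : Finset (AlgebraicClosure K), ∀ h ∈ fr.HZ (Z : Set (AlgebraicClosure K)), h ∈ U := by
  classical
  have hc : CharZero (RatFunc K) :=
    charZero_of_injective_algebraMap (algebraMap K (RatFunc K)).injective
  have : IsGalois (RatFunc K) (Kb K) := ⟨⟩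
  have hcl : ∀ x : Kb K, IsClosed {h : Kb K ≃ₐ[RatFunc K] Kb K | h x = x} := by
    intro x
    exact Subgroup.isClosed_of_isOpen _ (stabilizer_isOpen_of_isIntegral (K := RatFunc K) x)
  have hV : ∀ Z : Finset (AlgebraicClosure K),
      IsClosed ((fr.HZ (Z : Set (AlgebraicClosure K)) : Set (Kb K ≃ₐ[RatFunc K] Kb K))) := by
    intro Z
    have e : (fr.HZ (Z : Set (AlgebraicClosure K)) : Set (Kb K ≃ₐ[RatFunc K] Kb K)) =
        (⋂ z ∈ Z, {h | h (fr.e z) = fr.e z}) ∩ {h | h fr.S = fr.S} := by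
      ext h
      simp only [SetLike.mem_coe, Frame.mem_HZ, Set.mem_inter_iff, Set.mem_iInter,
        Set.mem_ofPred_eq]
    rw [e]
    exact (isClosed_biInter (fun z _ => hcl _)).inter (hcl _)
  obtain ⟨Z, hZ⟩ := exists_subset_nhds_of_compactSpace (X := Kb K ≃ₐ[RatFunc K] Kb K)
    (V := fun Z : Finset (AlgebraicClosure K) =>
      (fr.HZ (Z : Set (AlgebraicClosure K)) : Set (Kb K ≃ₐ[RatFunc K] Kb K)))
    (by
      intro Z Z'
      refine ⟨Z ∪ Z', ?_, ?_⟩
      · exact fr.HZ_mono (by simp)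
      · exact fr.HZ_mono (by simp)) hV (U := U) (by
      intro x hx
      have hxU : x ∈ U := by
        apply hH
        rw [Set.mem_iInter] at hx
        refine ⟨fun z _ => ?_, (hx ∅).2⟩
        exact (hx {z}).1 z (by simp)
      rw [mem_nhds_iff]
      refine ⟨{y | x⁻¹ * y ∈ F'.fixingSubgroup}, ?_, ?_, ?_⟩
      · intro y hy
        have h1 := hU x hxU _ hy
        rwa [mul_inv_cancel_left] at h1
      · exact (IntermediateField.fixingSubgroup_isOpen F').preimage (continuous_const_mul x⁻¹)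
      · change x⁻¹ * x ∈ F'.fixingSubgroup
        rw [inv_mul_cancel]
        exact one_mem _)
  exact ⟨Z, fun h hh => hZ hh⟩

end level

section char

lemma exists_lam0 {V : Type} [AddCommGroup V] {l : ℕ} [Fact l.Prime] [Module (ZMod l) V]
    (t : V) (ht : t ≠ 0) : ∃ lam : V →+ ZMod l, lam t ≠ 0 := by
  obtain ⟨φ, hφ⟩ := Module.Projective.exists_dual_ne_zero (ZMod l) ht
  exact ⟨φ.toAddMonoidHom, hφ⟩

lemma exists_lam {V : Type} [AddCommGroup V] {l : ℕ} (hl : l.Prime) (hV : ∀ x : V, l • x = 0)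
    (t : V) (ht : t ≠ 0) : ∃ lam : V →+ ZMod l, lam t ≠ 0 := by
  have : Fact l.Prime := ⟨hl⟩
  let inst : Module (ZMod l) V := AddCommGroup.zmodModule hV
  exact exists_lam0 t ht

/-- characters of the elements of order dividing `l` -/
theorem exists_char {E : Type} [AddCommGroup E] {l : ℕ} (hl : l.Prime) (t : E) (ht : t ≠ 0)
    (hlt : l • t = 0) {A : Type} [Field A] {ζ : A} (hζ : IsPrimitiveRoot ζ l) :
    ∃ χ : E → A, (∀ s t, l • s = 0 → l • t = 0 → χ (s + t) = χ s * χ t) ∧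
      (∀ s, ∃ n : ℕ, χ s = ζ ^ n) ∧ χ 0 = 1 ∧ χ t ≠ 1 := by
  classical
  have : Fact l.Prime := ⟨hl⟩
  let E' : AddSubgroup E := (nsmulAddMonoidHom (α := E) l).ker
  have hE' : ∀ x : E', l • x = 0 := fun x => Subtype.ext x.2
  have hmem : ∀ s : E, l • s = 0 → s ∈ E' := fun s hs => hs
  obtain ⟨lam, hlam⟩ := exists_lam hl hE' ⟨t, hmem t hlt⟩
    (fun h => ht (congrArg Subtype.val h))
  have hpow : ∀ m n : ℕ, m % l = n % l → ζ ^ m = ζ ^ n := by
    intro m n h
    rw [pow_eq_pow_mod m hζ.pow_eq_one, pow_eq_pow_mod n hζ.pow_eq_one, h]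
  refine ⟨fun s => if h : l • s = 0 then ζ ^ (lam ⟨s, hmem s h⟩).val else 1, ?_, ?_, ?_, ?_⟩
  · intro s s' hs hs'
    have hss : l • (s + s') = 0 := by rw [smul_add, hs, hs', add_zero]
    simp only [hs, hs', hss, dif_pos]
    rw [← pow_add]
    apply hpow
    have e : (⟨s + s', hmem _ hss⟩ : E') = ⟨s, hmem s hs⟩ + ⟨s', hmem s' hs'⟩ := rfl
    rw [e, map_add, ZMod.val_add, Nat.mod_mod]
  · intro s
    by_cases h : l • s = 0
    · exact ⟨(lam ⟨s, hmem s h⟩).val, by simp only [h, dif_pos]⟩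
    · exact ⟨0, by simp only [h, dif_neg, not_false_iff, pow_zero]⟩
  · have h0 : l • (0 : E) = 0 := smul_zero l
    simp only [h0, dif_pos]
    have e : (⟨0, hmem _ h0⟩ : E') = 0 := rfl
    rw [e, map_zero, ZMod.val_zero, pow_zero]
  · simp only [hlt, dif_pos]
    intro h
    rw [hζ.pow_eq_one_iff_dvd] at h
    apply hlam
    have h1 : (lam ⟨t, hmem t hlt⟩).val < l := ZMod.val_lt _
    have h2 := Nat.eq_zero_of_dvd_of_lt h h1
    exact (ZMod.val_eq_zero _).1 h2

end char

section rad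

/-- a polynomial all of whose roots have multiplicity divisible by `l` is an `l`-th power -/
lemma pow_of_dvd {A : Type} [Field A] [IsAlgClosed A] {l : ℕ} (hl : 0 < l) {f : A[X]}
    (h : ∀ c, l ∣ f.rootMultiplicity c) : ∃ g, f = g ^ l := by
  classical
  by_cases hf : f = 0
  · exact ⟨0, by rw [hf, zero_pow hl.ne']⟩
  obtain ⟨d, hd⟩ := IsAlgClosed.exists_pow_nat_eq f.leadingCoeff hl
  choose n hn using h
  refine ⟨C d * ∏ c ∈ f.roots.toFinset, (X - C c) ^ n c, ?_⟩
  have h1 : f = C f.leadingCoeff * (f.roots.map (fun a => X - C a)).prod :=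
    (IsAlgClosed.splits f).eq_prod_roots
  conv_lhs => rw [h1]
  rw [mul_pow, ← C_pow, hd, Finset.prod_multiset_map_count, ← Finset.prod_pow]
  congr 1
  refine Finset.prod_congr rfl fun c _ => ?_
  rw [count_roots, hn c, mul_comm, pow_mul]

variable {K : Type} [Field K] [CharZero K]

/-- a radical which is not a rational function of `S` has a root of multiplicity prime to `l` -/
theorem Frame.exists_rad (fr : Frame K) {l : ℕ} (hl : l.Prime) {β : Kb K} (hβ0 : β ≠ 0)
    (hβ : ∀ h ∈ fr.HZ Set.univ, h (β ^ l) = β ^ l) {h0 : Kb K ≃ₐ[RatFunc K] Kb K}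
    (hh0 : h0 ∈ fr.HZ Set.univ) (hne : h0 β ≠ β) :
    ∃ (q g : (AlgebraicClosure K)[X]) (c : AlgebraicClosure K) (m : ℕ), q ≠ 0 ∧ g.eval c ≠ 0 ∧
      ¬ l ∣ m ∧ (β * eval₂ (fr.e : AlgebraicClosure K →+* Kb K) fr.S q) ^ l =
        (fr.S - fr.e c) ^ m * eval₂ (fr.e : AlgebraicClosure K →+* Kb K) fr.S g := by
  classical
  obtain ⟨r, hr⟩ := fr.exists_of_fixed hβ
  set p := r.num with hp
  set q := r.denom with hq
  have hq0 : q ≠ 0 := r.denom_ne_zero
  have hr0 : r ≠ 0 := by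
    rintro rfl
    rw [map_zero] at hr
    exact pow_ne_zero l hβ0 hr.symm
  have hp0 : p ≠ 0 := RatFunc.num_ne_zero hr0
  have hrpq : fr.α r * fr.α (algebraMap _ _ q) = fr.α (algebraMap _ _ p) := by
    rw [← map_mul]
    congr 1
    have h1 := RatFunc.num_div_denom r
    rw [div_eq_iff ((map_ne_zero_iff _ (RatFunc.algebraMap_injective _)).2 hq0)] at h1
    exact h1.symm
  set f : (AlgebraicClosure K)[X] := p * q ^ (l - 1) with hf
  have hf0 : f ≠ 0 := mul_ne_zero hp0 (pow_ne_zero _ hq0)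
  have hαf : (β * fr.α (algebraMap _ _ q)) ^ l = fr.α (algebraMap _ _ f) := by
    rw [mul_pow, ← hr, hf, map_mul, map_mul, ← hrpq, map_pow, map_pow]
    obtain ⟨l', rfl⟩ : ∃ l', l = l' + 1 := ⟨l - 1, by have := hl.pos; omega⟩
    rw [Nat.add_sub_cancel, pow_succ]
    ring
  obtain ⟨c, hc⟩ : ∃ c, ¬ l ∣ f.rootMultiplicity c := by
    by_contra hcon
    push Not at hcon
    obtain ⟨g, hg⟩ := pow_of_dvd hl.pos hcon
    have hg0 : g ≠ 0 := by
      rintro rfl
      rw [zero_pow hl.ne_zero] at hg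
      exact hf0 hg
    have hαg0 : fr.α (algebraMap _ _ g) ≠ 0 :=
      (_root_.map_ne_zero fr.α).2 ((map_ne_zero_iff _ (RatFunc.algebraMap_injective _)).2 hg0)
    have hαq0 : fr.α (algebraMap _ _ q) ≠ 0 :=
      (_root_.map_ne_zero fr.α).2 ((map_ne_zero_iff _ (RatFunc.algebraMap_injective _)).2 hq0)
    rw [hg, map_pow, map_pow] at hαf
    have h1 : (β * fr.α (algebraMap _ _ q) / fr.α (algebraMap _ _ g)) ^ l =
        (fr.e : AlgebraicClosure K →+* Kb K) 1 := by
      rw [div_pow, hαf, div_self (pow_ne_zero _ hαg0), map_one]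
    obtain ⟨z, hz⟩ := Pool.Agent.W620.SC.root_mem (fr.e : AlgebraicClosure K →+* Kb K) hl.pos h1
    have h2 : β = fr.α (algebraMap _ _ z * algebraMap _ _ g / algebraMap _ _ q) := by
      rw [map_div₀, map_mul, fr.α_C, eq_div_iff hαq0]
      have h3 : fr.e z = β * fr.α (algebraMap _ _ q) / fr.α (algebraMap _ _ g) := hz
      rw [h3, div_mul_cancel₀ _ hαg0]
    apply hne
    rw [h2]
    exact fr.fix_α hh0 _
  obtain ⟨g, hg, hgc⟩ := f.exists_eq_pow_rootMultiplicity_mul_and_not_dvd hf0 c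
  refine ⟨q, g, c, f.rootMultiplicity c, hq0, ?_, hc, ?_⟩
  · rw [dvd_iff_isRoot] at hgc
    exact hgc
  · rw [← fr.α_poly q, hαf]
    conv_lhs => rw [hg]
    rw [fr.α_poly, eval₂_mul, eval₂_pow, eval₂_sub, eval₂_X, eval₂_C]
    rfl

end rad

section ball

variable {L : Type} [NormedField L] [IsUltrametricDist L]

/-- the unit ball -/
def ball1 (L : Type) [NormedField L] [IsUltrametricDist L] : Subring L where
  carrier := {x | ‖x‖ ≤ 1}
  mul_mem' := fun {x y} hx hy => by
    change ‖x * y‖ ≤ 1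
    rw [norm_mul]
    exact mul_le_one₀ hx (norm_nonneg _) hy
  one_mem' := by
    change ‖(1 : L)‖ ≤ 1
    rw [norm_one]
  add_mem' := fun {x y} hx hy => by
    change ‖x + y‖ ≤ 1
    exact (IsUltrametricDist.norm_add_le_max x y).trans (max_le hx hy)
  zero_mem' := by
    change ‖(0 : L)‖ ≤ 1
    rw [norm_zero]
    exact zero_le_one
  neg_mem' := fun {x} hx => by
    change ‖-x‖ ≤ 1
    rw [norm_neg]
    exact hx

lemma mem_ball1 {x : L} : x ∈ ball1 L ↔ ‖x‖ ≤ 1 := Iff.rfl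

/-- values of polynomials at near elements -/
lemma exists_eval {A C : Type} [Field A] [Field C] (i : A →+* C) (al : L →+* C) (g : A[X])
    (hg : ∀ n, ∃ y : L, al y = i (g.coeff n) ∧ ‖y‖ ≤ 1) {c : A} {cv ε : L} (hcv : al cv = i c)
    (hc : ‖cv‖ ≤ 1) (hε : ‖ε‖ < 1) (hgc : ∀ y : L, al y = i (g.eval c) → ‖y‖ = 1) :
    ∃ w : L, al w = eval₂ i (al (cv + ε)) g ∧ ‖w‖ = 1 := by
  classical
  choose y hy hy1 using hg
  set G : (ball1 L)[X] := ∑ n ∈ Finset.range (g.natDegree + 1),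
    Polynomial.C (⟨y n, hy1 n⟩ : ball1 L) * X ^ n
    with hG
  have hcv1 : cv ∈ ball1 L := hc
  have hε1 : ε ∈ ball1 L := hε.le
  set cB : ball1 L := ⟨cv, hcv1⟩ with hcB
  set eB : ball1 L := ⟨ε, hε1⟩ with heB
  have hev : ∀ s : ball1 L, al (G.eval s : ball1 L) = eval₂ i (al s) g := by
    intro s
    rw [hG, eval_finsetSum, eval₂_eq_sum_range]
    push_cast
    rw [map_sum]
    refine Finset.sum_congr rfl fun n _ => ?_
    rw [eval_mul, eval_C, eval_pow, eval_X]
    push_cast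
    rw [map_mul, map_pow, hy]
  have h1 : ‖((G.eval cB : ball1 L) : L)‖ = 1 := by
    apply hgc
    rw [hev]
    change eval₂ i (al cv) g = _
    rw [hcv, eval₂_at_apply]
  have h2 : (cB + eB) - cB ∣ G.eval (cB + eB) - G.eval cB := sub_dvd_eval_sub _ _ _
  rw [add_sub_cancel_left] at h2
  obtain ⟨d, hd⟩ := h2
  have h3 : ‖((G.eval (cB + eB) : ball1 L) : L)‖ = 1 := by
    have e : ((G.eval (cB + eB) : ball1 L) : L) = ((G.eval cB : ball1 L) : L) + ε * (d : L) := by
      have := congrArg (Subtype.val : ball1 L → L) hd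
      push_cast at this
      rw [← this]
      ring
    have hlt : ‖ε * (d : L)‖ < 1 := by
      rw [norm_mul]
      exact lt_of_le_of_lt (mul_le_of_le_one_right (norm_nonneg _) d.2) hε
    rw [e, IsUltrametricDist.norm_add_eq_max_of_norm_ne_norm (by rw [h1]; exact hlt.ne'), h1]
    exact max_eq_left hlt.le
  exact ⟨_, hev (cB + eB), h3⟩

end ball

end Pool.Agent.Y791.BS
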