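import Mathlib
import Pool.Agent.H391R2.T4.Blueprint

/-!
# Hilbert's irreducibility theorem in root form, from the irreducible form

(helper708, for helper791)
-/

set_option autoImplicit false

namespace Pool.Agent.Y791.BS.HitRoot

open Polynomial IntermediateField

theorem of_hilb (K : Type) [Field K] [CharZero K] (hK : Pool.Agent.H391R2.T4.HilbField K)
    (P : K[X][X]) (hP : P.Monic) (hroot : ∀ g : K[X], P.eval g ≠ 0) :
    ∃ t : K, ∀ x : K, (P.map (evalRingHom t)).eval x ≠ 0 := by
  classical
  let k := FractionRing K[X]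
  let Pk : k[X] := P.map (algebraMap K[X] k)
  let N := Pk.SplittingField
  have hinjk : Function.Injective (algebraMap K[X] k) := IsFractionRing.injective K[X] k
  have hinjN : Function.Injective (algebraMap K[X] N) := by
    rw [IsScalarTower.algebraMap_eq K[X] k N]
    exact (algebraMap k N).injective.comp hinjk
  have hchar : CharZero k := charZero_of_injective_algebraMap hinjk
  have hfin : FiniteDimensional k N := inferInstance
  have hsep : Algebra.IsSeparable k N := inferInstance
  obtain ⟨α, hα⟩ := Field.exists_primitive_element k N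
  have halg : IsAlgebraic K[X] α :=
    (IsFractionRing.isAlgebraic_iff K[X] k N).2 (Algebra.IsAlgebraic.isAlgebraic α)
  obtain ⟨y, hy0, hyi⟩ := halg.exists_integral_multiple
  set c : N := y • α with hc
  have hct : k⟮c⟯ = ⊤ := by
    rw [eq_top_iff, ← hα, adjoin_simple_le_iff]
    have h1 : α = (algebraMap k N (algebraMap K[X] k y))⁻¹ * c := by
      rw [hc, Algebra.smul_def, IsScalarTower.algebraMap_apply K[X] k N, ← mul_assoc,
        inv_mul_cancel₀, one_mul]
      rw [← IsScalarTower.algebraMap_apply K[X] k N]
      exact fun h => hy0 (hinjN (by rw [h, map_zero]))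
    rw [h1]
    exact mul_mem (inv_mem (IntermediateField.algebraMap_mem _ _)) (mem_adjoin_simple_self k c)
  have htf : Module.IsTorsionFree K[X] N := Module.isTorsionFree_iff_algebraMap_injective.2 hinjN
  set f : K[X][X] := minpoly K[X] c with hf
  have hfm : f.Monic := minpoly.monic hyi
  have hfk : minpoly k c = f.map (algebraMap K[X] k) :=
    minpoly.isIntegrallyClosed_eq_field_fractions' k hyi
  have hfirr : Irreducible f := minpoly.irreducible hyi
  have hfsep : (f.map (algebraMap K[X] k)).Separable := by
    rw [← hfk]; exact Algebra.IsSeparable.isSeparable k c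
  set n := f.natDegree with hn
  have hn1 : 1 ≤ n := by
    rw [Nat.one_le_iff_ne_zero]
    intro h0
    exact hfirr.not_isUnit (by rw [hfm.natDegree_eq_zero.1 h0]; exact isUnit_one)
  have hrep : ∀ θ : N, ∃ (D : K[X]) (Q : K[X][X]), D ≠ 0 ∧ Q.natDegree < n ∧
      algebraMap K[X] N D * θ = aeval c Q := by
    intro θ
    have h1 : θ ∈ (k⟮c⟯).toSubalgebra := by rw [hct]; trivial
    have hck : IsIntegral k c := Algebra.IsIntegral.isIntegral c
    rw [adjoin_simple_toSubalgebra_of_isAlgebraic hck.isAlgebraic,
      Algebra.adjoin_singleton_eq_range_aeval] at h1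
    obtain ⟨q0, hq0⟩ := h1
    set q := q0 %ₘ minpoly k c with hq
    have hqm : (minpoly k c).Monic := minpoly.monic hck
    have hq1 : aeval c q = θ := by
      rw [hq, minpoly.aeval_modByMonic_minpoly]
      exact hq0
    have hq2 : q.natDegree < n := by
      have h2 := natDegree_modByMonic_lt q0 hqm (minpoly.ne_one k c)
      rw [hfk, hfm.natDegree_map] at h2
      rw [hq, hfk]; exact h2
    obtain ⟨b, hbm, hb⟩ := IsLocalization.integerNormalization_spec
      (nonZeroDivisors K[X]) q
    refine ⟨b, IsLocalization.integerNormalization (nonZeroDivisors K[X]) q,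
      nonZeroDivisors.ne_zero hbm, ?_, ?_⟩
    · have h3 : (IsLocalization.integerNormalization (nonZeroDivisors K[X]) q).natDegree =
          ((b • q : k[X])).natDegree := by
        rw [← hb, natDegree_map_eq_of_injective hinjk]
      rw [h3]
      refine lt_of_le_of_lt (natDegree_smul_le _ _) hq2
    · have h4 : aeval c (IsLocalization.integerNormalization (nonZeroDivisors K[X]) q) =
          aeval c ((b • q : k[X])) := by
        rw [← hb, aeval_map_algebraMap]
      rw [h4]
      have h5 : (b • q : k[X]) = C (algebraMap K[X] k b) * q := by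
        rw [← smul_eq_C_mul, algebraMap_smul]
      rw [h5, map_mul, aeval_C, hq1, ← IsScalarTower.algebraMap_apply]
  choose Df Qf hD0 hQn hDQ using hrep
  set R : Multiset N := (P.map (algebraMap K[X] N)).roots with hR
  have hsplit : (P.map (algebraMap K[X] N)).Splits := by
    have h1 := SplittingField.splits Pk
    have h2 : Pk.map (algebraMap k N) = P.map (algebraMap K[X] N) := by
      show (P.map (algebraMap K[X] k)).map (algebraMap k N) = _
      rw [Polynomial.map_map, ← IsScalarTower.algebraMap_eq]
    rwa [h2] at h1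
  have hPN : (P.map (algebraMap K[X] N)).Monic := hP.map _
  have hidx : ∀ θ ∈ R, ∃ i, 1 ≤ i ∧ (Qf θ).coeff i ≠ 0 := by
    intro θ hθ
    by_contra hcon
    push Not at hcon
    have hQC : Qf θ = C ((Qf θ).coeff 0) := by
      apply eq_C_of_natDegree_le_zero
      rw [natDegree_le_iff_coeff_eq_zero]
      intro m hm
      exact hcon m hm
    have h1 := hDQ θ
    rw [hQC, aeval_C] at h1
    have hDN : algebraMap K[X] N (Df θ) ≠ 0 := fun h => hD0 θ (hinjN (by rw [h, map_zero]))
    have hθk : θ = algebraMap k N (algebraMap K[X] k ((Qf θ).coeff 0) /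
        algebraMap K[X] k (Df θ)) := by
      rw [map_div₀, ← IsScalarTower.algebraMap_apply, ← IsScalarTower.algebraMap_apply,
        eq_div_iff hDN, mul_comm]
      exact h1
    have hθroot : (P.map (algebraMap K[X] N)).eval θ = 0 := (mem_roots'.1 hθ).2
    have hint : IsIntegral K[X] θ := ⟨P, hP, by rw [← eval_map]; exact hθroot⟩
    rw [hθk] at hint
    have hint2 := (isIntegral_algebraMap_iff (algebraMap k N).injective).1 hint
    obtain ⟨b, hb⟩ := IsIntegrallyClosed.isIntegral_iff.1 hint2
    have hθb : θ = algebraMap K[X] N b := by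
      rw [hθk, ← hb, ← IsScalarTower.algebraMap_apply]
    apply hroot b
    apply hinjN
    rw [map_zero, ← hθroot, hθb, eval_map_algebraMap, aeval_algebraMap_apply_eq_algebraMap_eval]
  choose! ix hix1 hix2 using hidx
  set g : K[X] := ∏ θ ∈ R.toFinset, (Qf θ).coeff (ix θ) with hg
  have hg0 : g ≠ 0 := by
    rw [hg, Finset.prod_ne_zero_iff]
    intro θ hθ
    exact hix2 θ (Multiset.mem_toFinset.1 hθ)
  obtain ⟨t, htg, htirr⟩ := hK f hfm hfirr hfsep g hg0
  refine ⟨t, fun x hx => ?_⟩
  have hx' : (P.eval (C x)).eval t = 0 := by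
    have h1 : (P.map (evalRingHom t)).eval x = (P.eval (C x)).eval t := by
      have h2 : x = evalRingHom t (C x) := by simp
      conv_lhs => rw [h2]
      rw [eval_map_apply]
      simp
    rw [← h1]; exact hx
  set W : K[X][X] := (R.map fun θ => C (Df θ * C x) - Qf θ).prod -
    C ((R.map Df).prod * P.eval (C x)) with hW
  have hWc : aeval c W = 0 := by
    have h1 : algebraMap K[X] N (P.eval (C x)) =
        (R.map fun θ => algebraMap K[X] N (C x) - θ).prod := by
      rw [← aeval_algebraMap_apply_eq_algebraMap_eval, ← eval_map_algebraMap,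
        hsplit.eval_eq_prod_roots_of_monic hPN]
    rw [hW, map_sub, aeval_C, map_mul, h1, map_multiset_prod, map_multiset_prod,
      Multiset.map_map, Multiset.map_map, ← Multiset.prod_map_mul, sub_eq_zero]
    congr 1
    apply Multiset.map_congr rfl
    intro θ _
    simp only [Function.comp_apply, map_sub, aeval_C, map_mul]
    rw [← hDQ θ]
    ring
  have hdvd : f ∣ W := minpoly.isIntegrallyClosed_dvd hyi hWc
  have hdvd2 : f.map (evalRingHom t) ∣
      (R.map fun θ => C ((Df θ).eval t * x) - (Qf θ).map (evalRingHom t)).prod := by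
    have h1 := Polynomial.map_dvd (evalRingHom t) hdvd
    have h2 : W.map (evalRingHom t) =
        (R.map fun θ => C ((Df θ).eval t * x) - (Qf θ).map (evalRingHom t)).prod := by
      rw [hW, Polynomial.map_sub, map_C, map_mul, coe_evalRingHom, hx', mul_zero, C_0, sub_zero]
      rw [← coe_mapRingHom, map_multiset_prod, Multiset.map_map]
      congr 1
      apply Multiset.map_congr rfl
      intro θ _
      simp
    rwa [h2] at h1
  obtain ⟨θ, hθR, hθd⟩ := htirr.prime.exists_mem_multiset_map_dvd hdvd2
  have hftn : (f.map (evalRingHom t)).natDegree = n := hfm.natDegree_map _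
  have hqdeg : (C ((Df θ).eval t * x) - (Qf θ).map (evalRingHom t)).natDegree < n := by
    refine lt_of_le_of_lt (natDegree_sub_le _ _) ?_
    rw [natDegree_C, max_lt_iff]
    exact ⟨hn1, lt_of_le_of_lt natDegree_map_le (hQn θ)⟩
  have hq0 : C ((Df θ).eval t * x) - (Qf θ).map (evalRingHom t) = 0 := by
    by_contra h
    have := natDegree_le_of_dvd hθd h
    omega
  have hcoef := congrArg (fun p => p.coeff (ix θ)) hq0
  simp only [coeff_sub, coeff_C, coeff_map, coeff_zero, coe_evalRingHom] at hcoef
  rw [if_neg (by have := hix1 θ hθR; omega), zero_sub, neg_eq_zero] at hcoef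
  apply htg
  rw [hg, eval_prod]
  exact Finset.prod_eq_zero (Multiset.mem_toFinset.2 hθR) hcoef

end Pool.Agent.Y791.BS.HitRoot
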