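import Pool.Agent.Y791.BS.Tasks
import Pool.Agent.Y791.BS.HitRootAux
import Pool.Agent.H793R2.HilbFin
import Pool.Agent.H880R2.Hilb.E1

/-!
# Hilbert's irreducibility theorem over number fields, root form (`S_Hit`)
-/

set_option autoImplicit false

namespace Pool.Agent.Y791.BS.HitRoot

theorem main : Pool.Agent.Y791.BS.S_Hit := by
  intro K _ _ P hP hroot
  exact of_hilb K (Pool.Agent.H793R2.HilbFin.taskE2 ℚ K Pool.Agent.H880R2.Hilb.taskE1) P hP hroot

end Pool.Agent.Y791.BS.HitRoot
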