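import Pool.Agent.Y791.BS.Tasks
import Pool.Agent.TH954.SGeo2

/-!
# A point divisible by all `n` over a finite extension of a local field is zero (helper419)
-/

set_option autoImplicit false

open WeierstrassCurve

namespace Pool.Agent.Y791.BS.Inter

open Pool.Agent.TH942 Pool.Agent.TH954

/-- abstract form -/
theorem inter_abs {L C : Type} [NontriviallyNormedField L] [ProperSpace L] [NormedField C]
    [IsUltrametricDist C] [DecidableEq C] [NormedAlgebra L C] {W : WeierstrassCurve C} (hW : SI W)
    (h2 : (2 : C) ≠ 0) (hD : 4 * W.a₄ ^ 3 + 27 * W.a₆ ^ 2 ≠ 0) (E' : Submodule L C)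
    [FiniteDimensional L E'] (D : W.toAffine.Point)
    (hdiv : ∀ n : ℕ, 1 ≤ n → ∃ R, n • R = D ∧ ∀ m : ℕ, ∀ j, nc (m • R) j ∈ E') : D = 0 := by
  classical
  apply big_all_zero
  intro R hR
  obtain ⟨d, hd0, hd1, hd⟩ := hW.exists_near h2 hD hR
  have hps : ProperSpace E' := FiniteDimensional.proper L E'
  have hTB : TotallyBounded (Metric.closedBall (0 : E') 1) :=
    (isCompact_closedBall (0 : E') 1).totallyBounded
  obtain ⟨t, htf, ht⟩ := Metric.totallyBounded_iff.1 hTB (d / 2) (by linarith)
  have hcl : ∀ x : C, x ∈ E' → ‖x‖ ≤ 1 → ∃ y : t, ‖x - ((y : E') : C)‖ < d / 2 := by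
    intro x hx hx1
    have h1 : (⟨x, hx⟩ : E') ∈ Metric.closedBall (0 : E') 1 := by
      rw [mem_closedBall_zero_iff]
      exact hx1
    have h2 := ht h1
    rw [Set.mem_iUnion₂] at h2
    obtain ⟨y, hy, hxy⟩ := h2
    refine ⟨⟨y, hy⟩, ?_⟩
    rw [Metric.mem_ball, dist_eq_norm] at hxy
    exact hxy
  have := htf.fintype
  set M : ℕ := Fintype.card (Fin 3 → t) with hM
  obtain ⟨T, hTD, hTE⟩ := hdiv (M + 1).factorial (Nat.factorial_pos _)
  choose y hy using fun (m : ℕ) (j : Fin 3) => hcl _ (hTE m j) (nc_le_one hW _ j)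
  obtain ⟨m, m', hne, he⟩ := Fintype.exists_ne_map_eq_of_card_lt
    (fun m : Fin (M + 1) => fun j : Fin 3 => y m j) (by rw [Fintype.card_fin]; omega)
  have hsmall : ∀ m m' : Fin (M + 1),
      (fun j : Fin 3 => y m j) = (fun j : Fin 3 => y m' j) →
      m' < m → Big R (((M + 1).factorial) • T) := by
    intro m m' he hlt
    have hlt' : (m' : ℕ) < m := hlt
    have h1 : ((m : ℕ) - m') • T = (m : ℕ) • T - (m' : ℕ) • T := by
      rw [sub_nsmul T hlt'.le, sub_eq_add_neg]
    have h2' : Big R (((m : ℕ) - m') • T) := by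
      rw [h1]
      apply hd
      intro j
      have e : nc ((m : ℕ) • T) j - nc ((m' : ℕ) • T) j =
          (nc ((m : ℕ) • T) j - ((y m j : E') : C)) -
          (nc ((m' : ℕ) • T) j - ((y m' j : E') : C)) := by
        rw [show y m j = y m' j from congrFun he j]
        ring
      rw [e]
      refine usub_lt ((hy m j).trans ?_) ((hy m' j).trans ?_) <;> linarith
    obtain ⟨c, hc⟩ : ((m : ℕ) - m') ∣ (M + 1).factorial :=
      Nat.dvd_factorial (by omega) (by have := m.2; omega)
    rw [hc, mul_comm, mul_smul]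
    exact hW.big_nsmul h2 hR h2' c
  rw [← hTD]
  rcases lt_or_gt_of_ne hne with h | h
  · exact hsmall m' m he.symm h
  · exact hsmall m m' he h

/-- the normalised coordinates of a point with coordinates in a subfield -/
lemma nc_mem {C : Type} [NormedField C] {W : WeierstrassCurve C} {F : Subfield C}
    (T : W.toAffine.Point)
    (h : ∀ (x y : C) (hxy : W.toAffine.Nonsingular x y), T = .some x y hxy → x ∈ F ∧ y ∈ F)
    (j : Fin 3) : nc T j ∈ F := by
  match T with
  | .zero =>
    have h0 : nc (Affine.Point.zero : W.toAffine.Point) = ![0, 1, 0] := rfl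
    rw [h0]
    fin_cases j
    · exact F.zero_mem
    · exact F.one_mem
    · exact F.zero_mem
  | .some x y hxy =>
    obtain ⟨hx, hy⟩ := h x y hxy rfl
    unfold nc
    simp only
    split_ifs with h1
    · fin_cases j
      · exact hx
      · exact hy
      · exact F.one_mem
    · fin_cases j
      · exact F.div_mem hx hy
      · exact F.one_mem
      · exact F.div_mem F.one_mem hy

open scoped Classical in
theorem main : S_Inter := by
  intro L _ _ _ _ k _ _ a b ha hb hne z D hdiv
  have hne' : 4 * (algebraMap k (AlgebraicClosure L) a) ^ 3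
      + 27 * (algebraMap k (AlgebraicClosure L) b) ^ 2 ≠ 0 := by
    intro h
    apply hne
    apply (algebraMap k (AlgebraicClosure L)).injective
    have h4 : algebraMap k (AlgebraicClosure L) 4 = 4 := map_ofNat _ 4
    have h27 : algebraMap k (AlgebraicClosure L) 27 = 27 := map_ofNat _ 27
    rw [map_zero, ← h, map_add, map_mul, map_mul, map_pow, map_pow, h4, h27]
  let i1 : NormedField (AlgebraicClosure L) := spectralNorm.normedField L (AlgebraicClosure L)
  let i2 : NormedAlgebra L (AlgebraicClosure L) :=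
    spectralNorm.normedAlgebra L (AlgebraicClosure L)
  have i3 : IsUltrametricDist (AlgebraicClosure L) :=
    IsUltrametricDist.isUltrametricDist_of_isNonarchimedean_norm
      (isNonarchimedean_spectralNorm (K := L) (L := AlgebraicClosure L))
  have i4 : CharZero (AlgebraicClosure L) :=
    charZero_of_injective_algebraMap (algebraMap L (AlgebraicClosure L)).injective
  have hext : ∀ c : k, ‖algebraMap k (AlgebraicClosure L) c‖ = ‖algebraMap k L c‖ := by
    intro c
    rw [IsScalarTower.algebraMap_apply k L (AlgebraicClosure L)]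
    exact spectralNorm_extends _
  set F : IntermediateField L (AlgebraicClosure L) := IntermediateField.adjoin L {z} with hF
  have hfd : FiniteDimensional L F :=
    IntermediateField.adjoin.finiteDimensional (Algebra.IsIntegral.isIntegral z)
  have hfd' : FiniteDimensional L (F.toSubalgebra.toSubmodule) := hfd
  have hfix : ∀ σ : AlgebraicClosure L ≃ₐ[L] AlgebraicClosure L, σ ∈ F.fixingSubgroup →
      σ z = z := by
    intro σ hσ
    exact (IntermediateField.mem_fixingSubgroup_iff _ _).1 hσ z
      (IntermediateField.mem_adjoin_simple_self L z)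
  have hmem : ∀ x : AlgebraicClosure L,
      (∀ σ ∈ F.fixingSubgroup, σ x = x) → x ∈ F := by
    intro x hx
    rw [← InfiniteGalois.fixedField_fixingSubgroup F, IntermediateField.mem_fixedField_iff]
    exact hx
  refine inter_abs (L := L) (C := AlgebraicClosure L)
    (W := (sw a b).baseChange (AlgebraicClosure L)) ⟨⟨?_, ?_, ?_⟩, ?_, ?_⟩ two_ne_zero ?_
    (F.toSubalgebra.toSubmodule) D ?_
  · show algebraMap k (AlgebraicClosure L) 0 = 0
    exact map_zero _
  · show algebraMap k (AlgebraicClosure L) 0 = 0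
    exact map_zero _
  · show algebraMap k (AlgebraicClosure L) 0 = 0
    exact map_zero _
  · show ‖algebraMap k (AlgebraicClosure L) a‖ ≤ 1
    rw [hext]; exact ha
  · show ‖algebraMap k (AlgebraicClosure L) b‖ ≤ 1
    rw [hext]; exact hb
  · exact hne'
  · intro n hn
    obtain ⟨R, hR, hRσ⟩ := hdiv n hn
    refine ⟨R, hR, fun m j => ?_⟩
    refine nc_mem (F := F.toSubfield) (m • R) ?_ j
    intro x y hxy e
    have hact : ∀ σ : AlgebraicClosure L ≃ₐ[L] AlgebraicClosure L, σ ∈ F.fixingSubgroup →
        σ x = x ∧ σ y = y := by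
      intro σ hσ
      have h1 : act (sw a b) σ (m • R) = m • R := by
        rw [act_nsmul, hRσ σ (hfix σ hσ)]
      rw [e] at h1
      unfold act at h1
      obtain ⟨h', e'⟩ := pm_some (E := sw a b)
        ((σ : AlgebraicClosure L →ₐ[L] AlgebraicClosure L).restrictScalars k) hxy
      rw [e', Affine.Point.some.injEq] at h1
      exact h1
    exact ⟨hmem x fun σ hσ => (hact σ hσ).1, hmem y fun σ hσ => (hact σ hσ).2⟩

end Pool.Agent.Y791.BS.Inter
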