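import Pool.Agent.Y791.BS.Obs2

/-!
# The obstruction over `K(T)`, main theorem
-/

set_option autoImplicit false
set_option linter.unusedSectionVars false

open Polynomial IsDedekindDomain NumberField Topology

namespace Pool.Agent.Y791.BS

open Pool.Agent.TH954

variable {K : Type} [Field K] [NumberField K]

/-- decomposition of a rational function at a point -/
lemma exists_decomp (c : RatFunc K) (hc : c ≠ 0) (t : K) :
    ∃ (m1 m2 : ℕ) (p q : K[X]), p.eval t ≠ 0 ∧ q.eval t ≠ 0 ∧
      c * algebraMap K[X] (RatFunc K) ((X - C t) ^ m2 * q) =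
        algebraMap K[X] (RatFunc K) ((X - C t) ^ m1 * p) := by
  have hn : c.num ≠ 0 := RatFunc.num_ne_zero hc
  have hd : c.denom ≠ 0 := RatFunc.denom_ne_zero c
  obtain ⟨p, hp, hp'⟩ := exists_eq_pow_rootMultiplicity_mul_and_not_dvd c.num hn t
  obtain ⟨q, hq, hq'⟩ := exists_eq_pow_rootMultiplicity_mul_and_not_dvd c.denom hd t
  refine ⟨rootMultiplicity t c.num, rootMultiplicity t c.denom, p, q,
    fun h => hp' (dvd_iff_isRoot.2 h), fun h => hq' (dvd_iff_isRoot.2 h), ?_⟩
  rw [← hp, ← hq]
  have h1 := RatFunc.num_div_denom c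
  have h2 : algebraMap K[X] (RatFunc K) c.denom ≠ 0 := RatFunc.algebraMap_ne_zero hd
  rw [div_eq_iff h2] at h1
  exact h1.symm

lemma final_check (i : Pl K) (T : Finset (AlgebraicClosure (RatFunc K))) (P : K[X][X])
    (hP : P.map (algebraMap K[X] (AlgebraicClosure (RatFunc K))) = ∏ θ ∈ T, (X - C θ))
    (a : K) (c : RatFunc K) (p q : K[X]) (t : K) {m1 m2 l : ℕ} (ε : i.v.adicCompletion K)
    (hε0 : ε ≠ 0)
    (hφ : ∀ r : K[X], i.φ (algebraMap K[X] (RatFunc K) r) =
      (r.map (algebraMap K (i.v.adicCompletion K))).eval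
        (algebraMap K (i.v.adicCompletion K) t + ε ^ l))
    (hcpq : c * algebraMap K[X] (RatFunc K) ((X - C t) ^ m2 * q) =
        algebraMap K[X] (RatFunc K) ((X - C t) ^ m1 * p))
    (hqτ : (q.map (algebraMap K (i.v.adicCompletion K))).eval
        (algebraMap K (i.v.adicCompletion K) t + ε ^ l) ≠ 0)
    (hnear : ∀ z : i.v.adicCompletion K,
      ((P.map (mapRingHom (algebraMap K (i.v.adicCompletion K)))).map
        (evalRingHom (algebraMap K (i.v.adicCompletion K) t + ε ^ l))).eval
        (algebraMap K (i.v.adicCompletion K) a +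
          (p.map (algebraMap K (i.v.adicCompletion K))).eval
          (algebraMap K (i.v.adicCompletion K) t + ε ^ l) /
          (q.map (algebraMap K (i.v.adicCompletion K))).eval
          (algebraMap K (i.v.adicCompletion K) t + ε ^ l) * z ^ l) ≠ 0) :
    ∀ (ι : AlgebraicClosure (RatFunc K) →ₐ[RatFunc K] AlgebraicClosure (i.v.adicCompletion K)),
      ∀ θ ∈ T, ∀ z : i.v.adicCompletion K,
      ι (θ - algebraMap (RatFunc K) (AlgebraicClosure (RatFunc K)) (algebraMap K (RatFunc K) a)) ≠
        algebraMap (i.v.adicCompletion K) (AlgebraicClosure (i.v.adicCompletion K))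
          (algebraMap (RatFunc K) (i.v.adicCompletion K) c * z ^ l) := by
  intro ι θ hθ z hz
  set ω : K →+* i.v.adicCompletion K := algebraMap K (i.v.adicCompletion K) with hω
  set τ : i.v.adicCompletion K := ω t + ε ^ l with hτ
  have hcε := congrArg i.φ hcpq
  rw [map_mul, hφ, hφ] at hcε
  have hXt : ((X - C t : K[X]).map ω).eval τ = ε ^ l := by
    rw [Polynomial.map_sub, map_X, map_C, eval_sub, eval_X, eval_C, hτ]
    ring
  rw [Polynomial.map_mul, Polynomial.map_mul, Polynomial.map_pow, Polynomial.map_pow, eval_mul,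
    eval_mul, eval_pow, eval_pow, hXt] at hcε
  have hcv : i.φ c = (ε ^ m1 / ε ^ m2) ^ l * ((p.map ω).eval τ / (q.map ω).eval τ) := by
    rw [div_pow, ← pow_mul, ← pow_mul, mul_comm m1, mul_comm m2, pow_mul, pow_mul]
    have h1 : (ε ^ l) ^ m2 ≠ 0 := pow_ne_zero _ (pow_ne_zero _ hε0)
    field_simp
    linear_combination hcε
  refine hnear (ε ^ m1 / ε ^ m2 * z) ?_
  -- the image of the root
  set y := ω a + (p.map ω).eval τ / (q.map ω).eval τ * (ε ^ m1 / ε ^ m2 * z) ^ l with hy
  have hιθ : ι θ = algebraMap (i.v.adicCompletion K) (AlgebraicClosure (i.v.adicCompletion K)) y := by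
    have h1 : ι (algebraMap (RatFunc K) (AlgebraicClosure (RatFunc K)) (algebraMap K (RatFunc K) a))
        = algebraMap (i.v.adicCompletion K) (AlgebraicClosure (i.v.adicCompletion K)) (ω a) := by
      rw [ι.commutes, IsScalarTower.algebraMap_apply (RatFunc K) (i.v.adicCompletion K)
        (AlgebraicClosure (i.v.adicCompletion K))]
      congr 1
      exact i.φ.commutes a
    rw [map_sub, h1, sub_eq_iff_eq_add] at hz
    rw [hz, ← map_add]
    congr 1
    rw [algebraMap_eq, hcv, hy, mul_pow]
    ring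
  have hPθ : (P.map (algebraMap K[X] (AlgebraicClosure (RatFunc K)))).eval θ = 0 := by
    rw [hP, eval_prod, Finset.prod_eq_zero hθ (by simp)]
  have h3 := congrArg ι hPθ
  rw [map_zero, eval_map] at h3
  change ((ι : AlgebraicClosure (RatFunc K) →+* AlgebraicClosure (i.v.adicCompletion K))
    (eval₂ _ θ P)) = 0 at h3
  rw [hom_eval₂] at h3
  have h4 : (ι : AlgebraicClosure (RatFunc K) →+* AlgebraicClosure (i.v.adicCompletion K)) θ =
      algebraMap (i.v.adicCompletion K) (AlgebraicClosure (i.v.adicCompletion K)) y := hιθ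
  apply (algebraMap (i.v.adicCompletion K) (AlgebraicClosure (i.v.adicCompletion K))).injective
  rw [map_zero, eval_map, eval₂_map, hom_eval₂, ← h3, h4]
  congr 1
  apply RingHom.ext
  intro r
  change algebraMap (i.v.adicCompletion K) (AlgebraicClosure (i.v.adicCompletion K))
    ((r.map ω).eval τ) = ι (algebraMap K[X] (AlgebraicClosure (RatFunc K)) r)
  rw [IsScalarTower.algebraMap_apply K[X] (RatFunc K) (AlgebraicClosure (RatFunc K)), ι.commutes,
    IsScalarTower.algebraMap_apply (RatFunc K) (i.v.adicCompletion K)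
        (AlgebraicClosure (i.v.adicCompletion K)), ← hφ]
  rfl

theorem obs_ratFunc (hHit : S_Hit) :
    Obs (RatFunc K) (fun i : Pl K => i.v.adicCompletion K) := by
  classical
  refine obs_scale (R := K[X]) ?_
  intro T hT hint hne
  obtain ⟨P, hPm, hP⟩ := exists_int_poly (R := K[X]) T hT hint
  have hroot : ∀ g : K[X], P.eval g ≠ 0 := by
    intro g hg
    have h1 : (P.map (algebraMap K[X] (AlgebraicClosure (RatFunc K)))).eval
        (algebraMap K[X] (AlgebraicClosure (RatFunc K)) g) = 0 := by
      rw [eval_map_apply, hg, map_zero]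
    rw [hP, eval_prod, Finset.prod_eq_zero_iff] at h1
    obtain ⟨θ, hθ, h2⟩ := h1
    rw [eval_sub, eval_X, eval_C, sub_eq_zero] at h2
    obtain ⟨σ, hσ⟩ := hne θ hθ
    apply hσ
    rw [← h2, IsScalarTower.algebraMap_apply K[X] (RatFunc K) (AlgebraicClosure (RatFunc K)),
      σ.commutes]
  obtain ⟨t, ht⟩ := hHit K P hPm hroot
  set Pt : K[X] := P.map (evalRingHom t) with hPt
  have hPtm : Pt.Monic := hPm.map _
  obtain ⟨l, a, hl, hob⟩ := obstruct (K := K) (Pt.aroots (AlgebraicClosure K)).toFinset (by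
      intro σ θ hθ
      rw [Multiset.mem_toFinset, mem_aroots] at hθ ⊢
      refine ⟨hθ.1, ?_⟩
      have h1 : aeval (σ θ) Pt = σ (aeval θ Pt) := aeval_algHom_apply
          (σ : AlgebraicClosure K →ₐ[K] AlgebraicClosure K) θ _
      rw [h1, hθ.2, map_zero]) (by
      intro θ hθ
      rw [Multiset.mem_toFinset, mem_aroots] at hθ
      by_contra hcon
      push Not at hcon
      obtain ⟨y, hy⟩ := base_of_fixed hcon
      apply ht y
      rw [← hy, aeval_algebraMap_apply_eq_algebraMap_eval] at hθ
      exact (map_eq_zero _).1 hθ.2)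
  refine ⟨l, algebraMap K (RatFunc K) a, hl, fun c hc => ?_⟩
  obtain ⟨m1, m2, p, q, hp, hq, hcpq⟩ := exists_decomp c hc t
  obtain ⟨v, hv⟩ := hob (p.eval t / q.eval t) (div_ne_zero hp hq)
  have := charZero_compl v
  have := proper v
  set ω : K →+* v.adicCompletion K := algebraMap K (v.adicCompletion K) with hω
  set Pv : (v.adicCompletion K)[X][X] := P.map (mapRingHom ω) with hPv
  have hPvm : Pv.Monic := hPm.map _
  have hev : ∀ (r : K[X]) (s : K), (r.map ω).eval (ω s) = ω (r.eval s) := fun r s =>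
    eval_map_apply ω s
  have hPvt : Pv.map (evalRingHom (ω t)) = Pt.map ω := by
    rw [hPv, hPt, Polynomial.map_map, Polynomial.map_map]
    congr 1
    apply RingHom.ext
    intro r
    change (r.map ω).eval (ω t) = ω (r.eval t)
    exact hev r t
  have hlocal : ∀ z : v.adicCompletion K, (Pv.map (evalRingHom (ω t))).eval
      (ω a + (p.map ω).eval (ω t) / (q.map ω).eval (ω t) * z ^ l) ≠ 0 := by
    intro z hz
    rw [hPvt, hev, hev, ← map_div₀] at hz
    let ι : AlgebraicClosure K →ₐ[K] AlgebraicClosure (v.adicCompletion K) := IsAlgClosed.lift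
    set y := ω a + ω (p.eval t / q.eval t) * z ^ l with hy
    have hs : (Pt.map (algebraMap K (AlgebraicClosure K))).Splits := IsAlgClosed.splits _
    obtain ⟨θ, hθ⟩ := hs.mem_range_of_isRoot
      (i := (ι : AlgebraicClosure K →+* AlgebraicClosure (v.adicCompletion K)))
      (x := algebraMap (v.adicCompletion K) (AlgebraicClosure (v.adicCompletion K)) y)
      ((hPtm.map _).ne_zero) (by
        rw [IsRoot.def, eval_map, eval₂_map]
        have e1 : (ι : AlgebraicClosure K →+* AlgebraicClosure (v.adicCompletion K)).comp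
            (algebraMap K (AlgebraicClosure K)) =
            (algebraMap (v.adicCompletion K) (AlgebraicClosure (v.adicCompletion K))).comp ω := by
          rw [AlgHom.comp_algebraMap]
          rfl
        rw [e1, ← hom_eval₂, ← eval_map, hz, map_zero])
    have hθ' : ι θ = algebraMap (v.adicCompletion K) (AlgebraicClosure (v.adicCompletion K)) y := hθ
    refine hv ι θ ?_ z ?_
    · rw [Multiset.mem_toFinset, mem_aroots]
      refine ⟨hPtm.ne_zero, ?_⟩
      have h5 : ι (aeval θ Pt) = 0 := by
        rw [← aeval_algHom_apply, hθ', aeval_algebraMap_apply]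
        have : aeval y Pt = (Pt.map ω).eval y := by rw [eval_map]; rfl
        rw [this, hz, map_zero]
      exact (map_eq_zero ι).1 h5
    · rw [map_sub, hθ', ι.commutes, hy, map_add, IsScalarTower.algebraMap_apply K
        (v.adicCompletion K) (AlgebraicClosure (v.adicCompletion K)) a]
      rw [add_sub_cancel_left]
  obtain ⟨δ, hδ, hnear⟩ := no_root_near Pv hPvm (p.map ω) (q.map ω) (ω t) (ω a) hl
    (by rw [hev]; exact (_root_.map_ne_zero _).2 hp) (by rw [hev]; exact (_root_.map_ne_zero _).2 hq)
    hlocal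
  obtain ⟨ε, hεt, hε⟩ := exists_transcendental v hδ
  set τ : v.adicCompletion K := ω t + ε ^ l with hτ
  have hτt : Transcendental K τ := by
    intro h
    apply hεt
    have h1 : IsAlgebraic K (ε ^ l) := by
      have : ε ^ l = τ - ω t := by rw [hτ]; ring
      rw [this]
      exact h.sub (isAlgebraic_algebraMap t)
    exact IsAlgebraic.of_pow (by omega) h1
  have hne0 : ∀ r : K[X], r ≠ 0 → (r.map ω).eval τ ≠ 0 := by
    intro r hr h0
    rw [eval_map] at h0
    exact (transcendental_iff.1 hτt r).mt hr h0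
  have hq0 : q ≠ 0 := by
    rintro rfl
    rw [eval_zero] at hq
    exact hq rfl
  have hε0 : ε ≠ 0 := by
    rintro rfl
    exact hεt isAlgebraic_zero
  refine ⟨⟨v, emb hτt⟩, final_check ⟨v, emb hτt⟩ T P hP a c p q t ε hε0 ?_ hcpq (hne0 q hq0)
    (fun z => hnear ε hε (hne0 q hq0) z)⟩
  intro r
  change (emb hτt) _ = _
  rw [emb_algebraMap, eval_map]
  rfl

end Pool.Agent.Y791.BS
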