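import Mathlib

/-!
# Auxiliary facts for `S_Unr`: radicals with new absolute values, and the action on residues
-/

set_option autoImplicit false

namespace Pool.Agent.Y791.BS.Unr

open Polynomial

section kummer

variable {L C : Type} [NormedField L] [NormedField C] [NormedAlgebra L C]

lemma norm_zpow_ne {l : ℕ} (hl : l.Prime) {β : C} {u : L} (hβ : β ^ l = algebraMap L C u)
    (hn : ∀ w : L, ‖β‖ ≠ ‖w‖) {i : ℤ} (hi : ¬ (l : ℤ) ∣ i) (w : L) : ‖β‖ ^ i ≠ ‖w‖ := by
  intro h
  have h0 : ‖β‖ ≠ 0 := by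
    have := hn 0
    rwa [norm_zero] at this
  have hcop : IsCoprime i (l : ℤ) := by
    rw [isCoprime_comm]
    exact (Nat.prime_iff_prime_int.1 hl).coprime_iff_not_dvd.2 hi
  obtain ⟨s, t, hst⟩ := hcop
  have hu : ‖β‖ ^ (l : ℤ) = ‖u‖ := by
    rw [zpow_natCast, ← norm_pow, hβ, norm_algebraMap']
  apply hn (w ^ s * u ^ t)
  rw [norm_mul, norm_zpow, norm_zpow, ← h, ← hu, ← zpow_mul, ← zpow_mul, ← zpow_add₀ h0,
    mul_comm i s, mul_comm (l : ℤ) t, hst, zpow_one]

variable [IsUltrametricDist C]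

lemma sum_lt_one {ι : Type} (s : Finset ι) (f : ι → C) (h : ∀ i ∈ s, ‖f i‖ < 1) :
    ‖∑ i ∈ s, f i‖ < 1 := by
  classical
  induction s using Finset.induction_on with
  | empty => simp
  | insert a s ha ih =>
    rw [Finset.sum_insert ha]
    refine (IsUltrametricDist.norm_add_le_max _ _).trans_lt (max_lt (h a (by simp)) (ih ?_))
    intro i hi
    exact h i (by simp [hi])

lemma term_le {l : ℕ} (hl : l.Prime) {β : C} {u : L} (hβ : β ^ l = algebraMap L C u)
    (hn : ∀ w : L, ‖β‖ ≠ ‖w‖) (c : ℕ → L) {i : ℕ} (hi : i ∈ Finset.range l) :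
    ‖algebraMap L C (c i) * β ^ i‖ ≤ ‖∑ i ∈ Finset.range l, algebraMap L C (c i) * β ^ i‖ := by
  classical
  have h0 : ‖β‖ ≠ 0 := by
    have := hn 0
    rwa [norm_zero] at this
  by_cases hci : c i = 0
  · rw [hci, map_zero, zero_mul, norm_zero]
    exact norm_nonneg _
  · have e : ∑ i ∈ Finset.range l, algebraMap L C (c i) * β ^ i =
        ∑ i ∈ (Finset.range l).filter (fun i => c i ≠ 0), algebraMap L C (c i) * β ^ i := by
      rw [Finset.sum_filter]
      refine Finset.sum_congr rfl fun j _ => ?_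
      by_cases hj : c j = 0
      · simp [hj]
      · simp [hj]
    have hmem : i ∈ (Finset.range l).filter (fun i => c i ≠ 0) := by
      rw [Finset.mem_filter]
      exact ⟨hi, hci⟩
    have hpw : Set.Pairwise ((Finset.range l).filter (fun i => c i ≠ 0) : Set ℕ)
        (fun i j => ‖algebraMap L C (c i) * β ^ i‖ ≠ ‖algebraMap L C (c j) * β ^ j‖) := by
      intro p hp q hq hpq heq
      have hp' := Finset.mem_filter.1 (Finset.mem_coe.1 hp)
      have hq' := Finset.mem_filter.1 (Finset.mem_coe.1 hq)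
      rw [Finset.mem_range] at hp' hq'
      rw [norm_mul, norm_mul, norm_algebraMap', norm_algebraMap', norm_pow, norm_pow] at heq
      have hcp : ‖c p‖ ≠ 0 := norm_ne_zero_iff.2 hp'.2
      have hcq : ‖c q‖ ≠ 0 := norm_ne_zero_iff.2 hq'.2
      have hnd : ¬ (l : ℤ) ∣ ((p : ℤ) - q) := by
        intro hd
        have h1 : (p : ℤ) - q = 0 := by
          apply Int.eq_zero_of_abs_lt_dvd hd
          rw [abs_lt]
          constructor <;> omega
        apply hpq
        omega
      apply norm_zpow_ne hl hβ hn hnd (c q / c p)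
      rw [norm_div, zpow_sub₀ h0, zpow_natCast, zpow_natCast]
      field_simp
      linarith
    rw [e, IsUltrametricDist.norm_sum_eq_sup'_of_pairwise_ne ⟨i, hmem⟩ hpw]
    exact Finset.le_sup' (fun i => ‖algebraMap L C (c i) * β ^ i‖) hmem

lemma kummer_main {l : ℕ} (hl : l.Prime) {β : C} {u : L} (hβ : β ^ l = algebraMap L C u)
    (hn : ∀ w : L, ‖β‖ ≠ ‖w‖) (c : ℕ → L)
    (hX1 : ‖∑ i ∈ Finset.range l, algebraMap L C (c i) * β ^ i‖ ≤ 1) (ω : C) (hω : ‖ω‖ ≤ 1) :
    ‖(∑ i ∈ Finset.range l, algebraMap L C (c i) * (ω * β) ^ i) -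
      ∑ i ∈ Finset.range l, algebraMap L C (c i) * β ^ i‖ < 1 := by
  rw [← Finset.sum_sub_distrib]
  apply sum_lt_one
  intro i hi
  have h1 := (term_le hl hβ hn c hi).trans hX1
  have e : algebraMap L C (c i) * (ω * β) ^ i - algebraMap L C (c i) * β ^ i =
      (algebraMap L C (c i) * β ^ i) * (ω ^ i - 1) := by
    rw [mul_pow]; ring
  rw [e, norm_mul]
  by_cases hci : c i = 0
  · rw [hci]; simp
  by_cases hi0 : i = 0
  · subst hi0; simp
  · have h2 : ‖algebraMap L C (c i) * β ^ i‖ < 1 := by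
      refine lt_of_le_of_ne h1 ?_
      intro h3
      rw [norm_mul, norm_algebraMap', norm_pow] at h3
      have hcp : ‖c i‖ ≠ 0 := norm_ne_zero_iff.2 hci
      have hnd : ¬ (l : ℤ) ∣ (i : ℤ) := by
        intro hd
        have := Int.natCast_dvd_natCast.1 hd
        have h4 := Nat.le_of_dvd (Nat.pos_of_ne_zero hi0) this
        rw [Finset.mem_range] at hi
        omega
      apply norm_zpow_ne hl hβ hn hnd (c i)⁻¹
      rw [zpow_natCast, norm_inv]
      field_simp
      linarith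
    have h3 : ‖ω ^ i - 1‖ ≤ 1 := by
      rw [sub_eq_add_neg]
      refine (IsUltrametricDist.norm_add_le_max _ _).trans (max_le ?_ ?_)
      · rw [norm_pow]; exact pow_le_one₀ (norm_nonneg _) hω
      · rw [norm_neg, norm_one]
    calc ‖algebraMap L C (c i) * β ^ i‖ * ‖ω ^ i - 1‖
        ≤ ‖algebraMap L C (c i) * β ^ i‖ * 1 := by gcongr
      _ < 1 := by rw [mul_one]; exact h2

end kummer

section residue

variable (C : Type) [NormedField C] [IsUltrametricDist C]

/-- the valuation ring -/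
def OV : ValuationSubring C where
  carrier := {x | ‖x‖ ≤ 1}
  mul_mem' {x y} hx hy := by
    change ‖x * y‖ ≤ 1
    rw [norm_mul]; exact mul_le_one₀ hx (norm_nonneg _) hy
  one_mem' := by change ‖(1 : C)‖ ≤ 1; rw [norm_one]
  add_mem' {x y} hx hy := (IsUltrametricDist.norm_add_le_max x y).trans (max_le hx hy)
  zero_mem' := by change ‖(0 : C)‖ ≤ 1; rw [norm_zero]; exact zero_le_one
  neg_mem' {x} hx := by change ‖-x‖ ≤ 1; rw [norm_neg]; exact hx
  mem_or_inv_mem' x := by
    change ‖x‖ ≤ 1 ∨ ‖x⁻¹‖ ≤ 1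
    rw [norm_inv]
    rcases le_total ‖x‖ 1 with h | h
    · exact Or.inl h
    · exact Or.inr (inv_le_one_of_one_le₀ h)

variable {C}

lemma mem_OV {x : C} : x ∈ OV C ↔ ‖x‖ ≤ 1 := Iff.rfl

lemma isUnit_OV (x : OV C) : IsUnit x ↔ ‖(x : C)‖ = 1 := by
  constructor
  · rintro h
    obtain ⟨y, hy⟩ := h.exists_right_inv
    have h1 : ‖(x : C)‖ * ‖(y : C)‖ = 1 := by
      rw [← norm_mul]
      have := congrArg (fun z : OV C => ‖(z : C)‖) hy
      simpa using this
    have hx := x.2
    have hy' := y.2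
    rw [mem_OV] at hx hy'
    refine le_antisymm hx ?_
    calc (1 : ℝ) = ‖(x : C)‖ * ‖(y : C)‖ := h1.symm
      _ ≤ ‖(x : C)‖ * 1 := by gcongr
      _ = ‖(x : C)‖ := mul_one _
  · intro h
    have h0 : (x : C) ≠ 0 := by
      intro h0
      rw [h0, norm_zero] at h
      exact zero_ne_one h
    have hi : (x : C)⁻¹ ∈ OV C := by rw [mem_OV, norm_inv, h, inv_one]
    refine IsUnit.of_mul_eq_one ⟨(x : C)⁻¹, hi⟩ ?_
    apply Subtype.ext
    change (x : C) * (x : C)⁻¹ = 1
    exact mul_inv_cancel₀ h0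

lemma residue_eq_zero (x : OV C) : IsLocalRing.residue (OV C) x = 0 ↔ ‖(x : C)‖ < 1 := by
  rw [IsLocalRing.residue_eq_zero_iff, IsLocalRing.mem_maximalIdeal, mem_nonunits_iff, isUnit_OV]
  have hx := x.2
  rw [mem_OV] at hx
  constructor
  · intro h
    exact lt_of_le_of_ne hx h
  · intro h
    exact h.ne

lemma residue_eq (x y : OV C) :
    IsLocalRing.residue (OV C) x = IsLocalRing.residue (OV C) y ↔ ‖(x : C) - y‖ < 1 := by
  rw [← sub_eq_zero, ← map_sub, residue_eq_zero]
  rfl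

lemma exists_pow_close (L : Type) [NontriviallyNormedField L] [ProperSpace L] [NormedAlgebra L C]
    [Algebra.IsAlgebraic L C] (x : C) (hx : ‖x‖ ≤ 1) : ∃ m n : ℕ, m < n ∧ ‖x ^ n - x ^ m‖ < 1 := by
  have hint : IsIntegral L x := Algebra.IsIntegral.isIntegral x
  have hfg := hint.fg_adjoin_singleton
  let E : Submodule L C := Subalgebra.toSubmodule (Algebra.adjoin L {x})
  haveI : FiniteDimensional L E := Module.Finite.iff_fg.2 hfg
  haveI : ProperSpace E := FiniteDimensional.proper L E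
  have hmem : ∀ n : ℕ, x ^ n ∈ E := fun n =>
    (Subalgebra.mem_toSubmodule _).2 (pow_mem (Algebra.subset_adjoin (Set.mem_singleton x)) n)
  let s : ℕ → E := fun n => ⟨x ^ n, hmem n⟩
  have hs : ∀ n, s n ∈ Metric.closedBall (0 : E) 1 := by
    intro n
    rw [mem_closedBall_zero_iff]
    change ‖x ^ n‖ ≤ 1
    rw [norm_pow]
    exact pow_le_one₀ (norm_nonneg _) hx
  obtain ⟨a, -, φ, hφ, hlim⟩ := (isCompact_closedBall (0 : E) 1).tendsto_subseq hs
  have hc := hlim.cauchySeq
  rw [Metric.cauchySeq_iff] at hc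
  obtain ⟨N, hN⟩ := hc 1 one_pos
  have h := hN (N + 1) (by omega) N le_rfl
  refine ⟨φ N, φ (N + 1), hφ (by omega), ?_⟩
  rw [dist_eq_norm] at h
  exact h

variable {L : Type} [NontriviallyNormedField L] [ProperSpace L] [NormedAlgebra L C]
  [Algebra.IsAlgebraic L C]

/-- the action on the valuation ring -/
@[instance_reducible]
def actOV (hinv : ∀ (σ : C ≃ₐ[L] C) (x : C), ‖σ x‖ = ‖x‖) :
    MulSemiringAction (C ≃ₐ[L] C) (OV C) where
  smul σ x := ⟨σ x, (hinv σ x).trans_le x.2⟩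
  one_smul x := Subtype.ext rfl
  mul_smul σ τ x := Subtype.ext rfl
  smul_zero σ := Subtype.ext (map_zero σ)
  smul_add σ x y := Subtype.ext (map_add σ _ _)
  smul_one σ := Subtype.ext (map_one σ)
  smul_mul σ x y := Subtype.ext (map_mul σ _ _)

theorem cyc (hinv : ∀ (σ : C ≃ₐ[L] C) (x : C), ‖σ x‖ = ‖x‖) (x y : C) (hx : ‖x‖ ≤ 1)
    (hy : ‖y‖ ≤ 1) :
    ∃ g : C ≃ₐ[L] C, ∀ σ : C ≃ₐ[L] C, ∃ m : ℕ,
      ‖((g ^ m)⁻¹ * σ) x - x‖ < 1 ∧ ‖((g ^ m)⁻¹ * σ) y - y‖ < 1 := by
  classical
  letI := actOV hinv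
  let κ := IsLocalRing.ResidueField (OV C)
  obtain ⟨p, hp⟩ := CharP.exists κ
  haveI := hp
  have hpp : p.Prime := by
    rcases CharP.char_is_prime_or_zero κ p with h | h
    · exact h
    · exfalso
      subst h
      haveI : CharZero κ := CharP.charP_to_charZero κ
      have h2 : ‖(2 : C)‖ ≤ 1 := by
        have := (OV C).add_mem _ _ (OV C).one_mem (OV C).one_mem
        rw [mem_OV] at this
        rwa [one_add_one_eq_two] at this
      obtain ⟨m, n, hmn, h⟩ := exists_pow_close L (2 : C) h2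
      have h3 : ‖(((2 : OV C) ^ n : OV C) : C) - (((2 : OV C) ^ m : OV C) : C)‖ < 1 := h
      rw [← residue_eq, map_pow, map_pow] at h3
      have h4 : (((2 ^ n : ℕ) : κ)) = ((2 ^ m : ℕ) : κ) := by
        push_cast
        have e : (IsLocalRing.residue (OV C)) 2 = (2 : κ) := map_ofNat _ 2
        rw [e] at h3
        exact h3
      have h5 := Nat.cast_injective h4
      have h6 := Nat.pow_right_injective (le_refl 2) h5
      omega
  haveI : Fact p.Prime := ⟨hpp⟩
  letI : Algebra (ZMod p) κ := ZMod.algebra κ p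
  haveI : SMulCommClass (C ≃ₐ[L] C) (ZMod p) κ := by
    refine ⟨fun σ c z => ?_⟩
    rw [Algebra.smul_def, Algebra.smul_def, smul_mul']
    congr 1
    have h1 : (MulSemiringAction.toRingHom (C ≃ₐ[L] C) κ σ).comp (algebraMap (ZMod p) κ) =
        algebraMap (ZMod p) κ := Subsingleton.elim _ _
    exact congrArg (fun f : ZMod p →+* κ => f c) h1
  let xb : κ := IsLocalRing.residue (OV C) ⟨x, hx⟩
  let yb : κ := IsLocalRing.residue (OV C) ⟨y, hy⟩
  have hint : ∀ (z : C) (hz : ‖z‖ ≤ 1),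
      IsIntegral (ZMod p) (IsLocalRing.residue (OV C) ⟨z, hz⟩) := by
    intro z hz
    obtain ⟨m, n, hmn, h⟩ := exists_pow_close L z hz
    have h3 : ‖(((⟨z, hz⟩ : OV C) ^ n : OV C) : C) - (((⟨z, hz⟩ : OV C) ^ m : OV C) : C)‖ < 1 := h
    rw [← residue_eq, map_pow, map_pow] at h3
    refine ⟨X ^ n - X ^ m, ?_, ?_⟩
    · apply Polynomial.monic_X_pow_sub
      rw [Polynomial.degree_X_pow]
      exact_mod_cast hmn
    · simp [h3]
  let F : IntermediateField (ZMod p) κ := IntermediateField.adjoin (ZMod p) {xb, yb}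
  haveI : FiniteDimensional (ZMod p) F := by
    apply IntermediateField.finiteDimensional_adjoin
    intro z hz
    rcases hz with rfl | hz
    · exact hint x hx
    · rw [Set.mem_singleton_iff] at hz
      subst hz
      exact hint y hy
  haveI : Finite F := Module.finite_of_finite (ZMod p)
  haveI : IsGalois (ZMod p) F := inferInstance
  haveI : Normal (ZMod p) F := inferInstance
  let f : (C ≃ₐ[L] C) →* (F ≃ₐ[ZMod p] F) :=
    (AlgEquiv.restrictNormalHom F).comp (MulSemiringAction.toAlgAut (C ≃ₐ[L] C) (ZMod p) κ)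
  have hf : ∀ (σ : C ≃ₐ[L] C) (z : F), ((f σ z : F) : κ) = σ • (z : κ) := by
    intro σ z
    exact AlgEquiv.restrictNormal_commutes
      (MulSemiringAction.toAlgAut (C ≃ₐ[L] C) (ZMod p) κ σ) F z
  haveI : IsCyclic f.range := inferInstance
  obtain ⟨⟨_, g, rfl⟩, hg⟩ := IsCyclic.exists_generator (α := f.range)
  refine ⟨g, fun σ => ?_⟩
  have h1 := hg ⟨f σ, σ, rfl⟩
  rw [← mem_powers_iff_mem_zpowers] at h1
  obtain ⟨m, hm⟩ := h1
  refine ⟨m, ?_⟩
  have h2 : f g ^ m = f σ := congrArg Subtype.val hm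
  have h3 : f ((g ^ m)⁻¹ * σ) = 1 := by
    rw [map_mul, map_inv, map_pow, h2, inv_mul_cancel]
  have key : ∀ (z : C) (hz : ‖z‖ ≤ 1), IsLocalRing.residue (OV C) ⟨z, hz⟩ ∈ F →
      ‖((g ^ m)⁻¹ * σ) z - z‖ < 1 := by
    intro z hz hzF
    have h4 := hf ((g ^ m)⁻¹ * σ) ⟨_, hzF⟩
    rw [h3] at h4
    have h5 : IsLocalRing.residue (OV C) ⟨z, hz⟩ =
        ((g ^ m)⁻¹ * σ) • IsLocalRing.residue (OV C) ⟨z, hz⟩ := h4
    rw [← IsLocalRing.ResidueField.residue_smul] at h5
    exact (residue_eq _ _).1 h5.symm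
  exact ⟨key x hx (IntermediateField.subset_adjoin _ _ (by simp [xb])),
    key y hy (IntermediateField.subset_adjoin _ _ (by simp [yb]))⟩

end residue

section coeffs

variable {L C : Type} [Field L] [Field C] [Algebra L C]

lemma exists_coeffs {l : ℕ} (hl : 0 < l) {β : C} {u : L} (hβ : β ^ l = algebraMap L C u)
    (X : C) (hX : X ∈ IntermediateField.adjoin L {β}) :
    ∃ c : ℕ → L, ∀ g : C →ₐ[L] C,
      g X = ∑ i ∈ Finset.range l, algebraMap L C (c i) * (g β) ^ i := by
  have hq : (Polynomial.X ^ l - Polynomial.C u : L[X]).Monic :=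
    Polynomial.monic_X_pow_sub_C u hl.ne'
  have hroot : Polynomial.aeval β (Polynomial.X ^ l - Polynomial.C u : L[X]) = 0 := by
    simp [hβ]
  have hint : IsIntegral L β := ⟨_, hq, by rw [← Polynomial.aeval_def]; exact hroot⟩
  have h1 : X ∈ (IntermediateField.adjoin L {β}).toSubalgebra := hX
  rw [IntermediateField.adjoin_simple_toSubalgebra_of_isAlgebraic hint.isAlgebraic,
    Algebra.adjoin_singleton_eq_range_aeval] at h1
  obtain ⟨p, rfl⟩ := h1
  refine ⟨(p %ₘ (Polynomial.X ^ l - Polynomial.C u : L[X])).coeff, fun g => ?_⟩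
  have h2 : Polynomial.aeval β (p %ₘ (Polynomial.X ^ l - Polynomial.C u : L[X])) =
      Polynomial.aeval β p := Polynomial.aeval_modByMonic_eq_self_of_root hroot
  have hdeg : (p %ₘ (Polynomial.X ^ l - Polynomial.C u : L[X])).natDegree < l := by
    have := Polynomial.natDegree_modByMonic_lt p hq (by
      intro h
      have h3 := congrArg Polynomial.natDegree h
      rw [Polynomial.natDegree_X_pow_sub_C, Polynomial.natDegree_one] at h3
      omega)
    rwa [Polynomial.natDegree_X_pow_sub_C] at this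
  change g (Polynomial.aeval β p) = _
  rw [← h2, ← Polynomial.aeval_algHom_apply, Polynomial.aeval_eq_sum_range' hdeg]
  simp only [Algebra.smul_def]

end coeffs

section spectral

variable (L : Type) [NontriviallyNormedField L] [IsUltrametricDist L] [ProperSpace L]
variable (C : Type) [Field C] [Algebra L C] [Algebra.IsAlgebraic L C]

lemma spec_kummer {l : ℕ} (hl : l.Prime) {β : C} {u : L} (hβ : β ^ l = algebraMap L C u)
    (hn : ∀ w : L, spectralNorm L C β ≠ ‖w‖) (c : ℕ → L)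
    (hX1 : spectralNorm L C (∑ i ∈ Finset.range l, algebraMap L C (c i) * β ^ i) ≤ 1) (ω : C)
    (hω : ω ^ l = 1) :
    spectralNorm L C ((∑ i ∈ Finset.range l, algebraMap L C (c i) * (ω * β) ^ i) -
      ∑ i ∈ Finset.range l, algebraMap L C (c i) * β ^ i) < 1 := by
  letI : NormedField C := spectralNorm.normedField L C
  letI : NormedAlgebra L C := spectralNorm.normedAlgebra L C
  haveI : IsUltrametricDist C := IsUltrametricDist.isUltrametricDist_of_isNonarchimedean_norm
    (isNonarchimedean_spectralNorm (K := L) (L := C))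
  refine kummer_main (L := L) (C := C) hl hβ hn c hX1 ω ?_
  have h : ‖ω‖ ^ l = 1 := by rw [← norm_pow, hω, norm_one]
  exact (pow_eq_one_iff_of_nonneg (norm_nonneg _) hl.ne_zero).1 h |>.le

lemma spec_cyc (x y : C) (hx : spectralNorm L C x ≤ 1) (hy : spectralNorm L C y ≤ 1) :
    ∃ g : C ≃ₐ[L] C, ∀ σ : C ≃ₐ[L] C, ∃ m : ℕ,
      spectralNorm L C (((g ^ m)⁻¹ * σ) x - x) < 1 ∧
      spectralNorm L C (((g ^ m)⁻¹ * σ) y - y) < 1 := by
  letI : NormedField C := spectralNorm.normedField L C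
  letI : NormedAlgebra L C := spectralNorm.normedAlgebra L C
  haveI : IsUltrametricDist C := IsUltrametricDist.isUltrametricDist_of_isNonarchimedean_norm
    (isNonarchimedean_spectralNorm (K := L) (L := C))
  exact cyc (L := L) (C := C) (fun σ x => (spectralNorm_eq_of_equiv σ x).symm) x y hx hy

end spectral

end Pool.Agent.Y791.BS.Unr
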