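import Pool.Agent.Y791.BS.Tasks
import Pool.Agent.Y791.BS.UnrAux
import Pool.Agent.H901R3.MS.P_R1K
import Pool.Agent.H901R3.MS.P_R2K
import Pool.Agent.H901R3.MS.P_R3K
import Pool.Agent.H901R3.MS.P_R4K
import Pool.Agent.H901R3.MS.P_R5K
import Pool.Agent.H901R3.MS.P_R6K

/-!
# `S_Unr`: division points of prime order at places of good reduction
-/

set_option autoImplicit false

open WeierstrassCurve Pool.Agent.H901R3.MS

namespace Pool.Agent.Y791.BS.Unr

open Pool.Agent.TH942 Pool.Agent.TH954

section place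

variable (L : Type) [NontriviallyNormedField L] [IsUltrametricDist L] [ProperSpace L]
variable (C : Type) [Field C] [Algebra L C] [Algebra.IsAlgebraic L C]

/-- the place given by the spectral norm -/
theorem exists_place : ∃ (κ : Type) (_ : Field κ) (v : Place C κ),
    (∀ x, x ∈ v.A ↔ spectralNorm L C x ≤ 1) ∧
    (∀ x y, x ∈ v.A → y ∈ v.A → (v.r x = v.r y ↔ spectralNorm L C (x - y) < 1)) := by
  letI : NormedField C := spectralNorm.normedField L C
  letI : NormedAlgebra L C := spectralNorm.normedAlgebra L C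
  haveI : IsUltrametricDist C := IsUltrametricDist.isUltrametricDist_of_isNonarchimedean_norm
    (isNonarchimedean_spectralNorm (K := L) (L := C))
  refine ⟨IsLocalRing.ResidueField (OV C), inferInstance,
    { A := (OV C).toSubring
      ρ := IsLocalRing.residue (OV C)
      inv_of_notMem := ?_
      inv_of_ne := ?_ }, ?_, ?_⟩
  · intro x hx
    have h := ((OV C).mem_or_inv_mem x).resolve_left hx
    refine ⟨h, ?_⟩
    rw [residue_eq_zero]
    change ‖x⁻¹‖ < 1
    have h1 : 1 < ‖x‖ := not_le.1 hx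
    rw [norm_inv]
    exact inv_lt_one_of_one_lt₀ h1
  · intro x hx
    have h1 : ¬ ‖(x : C)‖ < 1 := fun h => hx ((residue_eq_zero x).2 h)
    change ‖(x : C)⁻¹‖ ≤ 1
    rw [norm_inv]
    exact inv_le_one_of_one_le₀ (not_lt.1 h1)
  · intro x
    exact Iff.rfl
  · intro x y hx hy
    rw [Place.r_of _ hx, Place.r_of _ hy]
    exact residue_eq (C := C) ⟨x, hx⟩ ⟨y, hy⟩

end place

section red

variable {L : Type} [NontriviallyNormedField L] [IsUltrametricDist L] [ProperSpace L]
variable {C : Type} [Field C] [Algebra L C] [Algebra.IsAlgebraic L C]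
variable {k : Type} [Field k] [Algebra k L] [Algebra k C] [IsScalarTower k L C]

open scoped Classical in
/-- the reduction homomorphism -/
theorem exists_red (a b : k) (ha : ‖algebraMap k L a‖ ≤ 1) (hb : ‖algebraMap k L b‖ ≤ 1)
    (hab : ‖algebraMap k L (2 * (4 * a ^ 3 + 27 * b ^ 2))‖ = 1) :
    ∃ (A : Type) (_ : AddCommGroup A) (red : ((sw a b).baseChange C).toAffine.Point →+ A),
      (∀ x y h, spectralNorm L C x ≤ 1 → spectralNorm L C y ≤ 1 ∧ red (.some x y h) ≠ 0) ∧
      (∀ x y h, ¬ spectralNorm L C x ≤ 1 → red (.some x y h) = 0) ∧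
      (∀ x y h x' y' h', spectralNorm L C x ≤ 1 → spectralNorm L C x' ≤ 1 →
        spectralNorm L C (x - x') < 1 → spectralNorm L C (y - y') < 1 →
        red (.some x y h) = red (.some x' y' h')) := by
  obtain ⟨κ, _, v, hv, hr⟩ := exists_place L C
  have key : ∀ (A' B' : C), A' ∈ v.A → B' ∈ v.A → Disc (v.r A') (v.r B') →
      ∀ (W1 : WeierstrassCurve C), W1 = CV A' B' →
      ∃ (A : Type) (_ : AddCommGroup A) (red : W1.toAffine.Point →+ A),
      (∀ x y h, spectralNorm L C x ≤ 1 → spectralNorm L C y ≤ 1 ∧ red (.some x y h) ≠ 0) ∧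
      (∀ x y h, ¬ spectralNorm L C x ≤ 1 → red (.some x y h) = 0) ∧
      (∀ x y h x' y' h', spectralNorm L C x ≤ 1 → spectralNorm L C x' ≤ 1 →
        spectralNorm L C (x - x') < 1 → spectralNorm L C (y - y') < 1 →
        red (.some x y h) = red (.some x' y' h')) := by
    rintro A' B' hA hB hD _ rfl
    obtain ⟨red, -, h2, h3⟩ := t_R6K t_R1K t_R2K t_R3K t_R4K t_R5K C κ v A' B' hA hB hD
    refine ⟨(CV (v.r A') (v.r B')).toAffine.Point, inferInstance, red, ?_, ?_, ?_⟩
    · intro x y h hx
      obtain ⟨hy, g, e⟩ := h3 x y h ((hv x).2 hx)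
      refine ⟨(hv y).1 hy, ?_⟩
      rw [e]
      exact Affine.Point.some_ne_zero g
    · intro x y h hx
      exact h2 x y h (fun h' => hx ((hv x).1 h'))
    · intro x y h x' y' h' hx hx' hxx hyy
      obtain ⟨hy, g, e⟩ := h3 x y h ((hv x).2 hx)
      obtain ⟨hy', g', e'⟩ := h3 x' y' h' ((hv x').2 hx')
      have e1 := (hr x x' ((hv x).2 hx) ((hv x').2 hx')).2 hxx
      have e2 := (hr y y' hy hy').2 hyy
      rw [e, e']
      congr 1
  have base : (sw a b).baseChange C = CV (algebraMap k C a) (algebraMap k C b) := by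
    ext <;> simp [sw, CV, WeierstrassCurve.baseChange, WeierstrassCurve.map]
  have hmem : ∀ z : k, ‖algebraMap k L z‖ ≤ 1 → algebraMap k C z ∈ v.A := by
    intro z hz
    rw [hv, IsScalarTower.algebraMap_apply k L C, spectralNorm_extends]
    exact hz
  refine key _ _ (hmem a ha) (hmem b hb) ?_ _ base
  intro h0
  have hA := hmem a ha
  have hB := hmem b hb
  have h2m : (2 : C) ∈ v.A := by simpa using v.nat_mem 2
  have h4m : (4 : C) ∈ v.A := by simpa using v.nat_mem 4
  have h27m : (27 : C) ∈ v.A := by simpa using v.nat_mem 27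
  have e2 : v.r (2 : C) = 2 := by simpa using v.r_nat 2
  have e4 : v.r (4 : C) = 4 := by simpa using v.r_nat 4
  have e27 : v.r (27 : C) = 27 := by simpa using v.r_nat 27
  have m1 := v.A.mul_mem h4m (v.A.pow_mem hA 3)
  have m2 := v.A.mul_mem h27m (v.A.pow_mem hB 2)
  have m3 := v.A.mul_mem h2m (v.A.add_mem m1 m2)
  have e5 : v.r (2 * (4 * (algebraMap k C a) ^ 3 + 27 * (algebraMap k C b) ^ 2)) = v.r 0 := by
    rw [v.r_mul h2m (v.A.add_mem m1 m2), v.r_add m1 m2, v.r_mul h4m (v.A.pow_mem hA 3),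
      v.r_mul h27m (v.A.pow_mem hB 2), v.r_pow hA, v.r_pow hB, e2, e4, e27, h0, v.r_zero]
  rw [hr _ _ m3 v.A.zero_mem, sub_zero] at e5
  have e6 : 2 * (4 * (algebraMap k C a) ^ 3 + 27 * (algebraMap k C b) ^ 2) =
      algebraMap L C (algebraMap k L (2 * (4 * a ^ 3 + 27 * b ^ 2))) := by
    rw [← IsScalarTower.algebraMap_apply k L C]
    simp only [map_add, map_mul, map_pow, map_ofNat]
  rw [e6, spectralNorm_extends, hab] at e5
  exact lt_irrefl _ e5

end red

section main

variable {k : Type} [Field k] {E : WeierstrassCurve k} {L : Type} [Field L] [Algebra k L]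

lemma act_mul (σ τ : AlgebraicClosure L ≃ₐ[L] AlgebraicClosure L) (P : AlgPt E L) :
    act E (σ * τ) P = act E σ (act E τ P) := by
  unfold act
  rw [pm_pm]
  rfl

lemma act_one (P : AlgPt E L) : act E (1 : AlgebraicClosure L ≃ₐ[L] AlgebraicClosure L) P = P := by
  rcases P with _ | ⟨x, y, h⟩
  · rfl
  · rfl

open scoped Classical in
lemma act_pow {g : AlgebraicClosure L ≃ₐ[L] AlgebraicClosure L} {R : AlgPt E L}
    (hD : act E g (act E g R - R) = act E g R - R) (m : ℕ) :
    act E (g ^ m) R = R + m • (act E g R - R) := by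
  induction m with
  | zero => rw [pow_zero, act_one, zero_nsmul, add_zero]
  | succ m ih =>
    rw [pow_succ', act_mul, ih, act_add, act_nsmul, hD, succ_nsmul]
    abel

lemma mem_range_of_fixed [CharZero L] (x : AlgebraicClosure L)
    (h : ∀ σ : AlgebraicClosure L ≃ₐ[L] AlgebraicClosure L, σ x = x) :
    ∃ w : L, algebraMap L (AlgebraicClosure L) w = x := by
  have := (InfiniteGalois.mem_range_algebraMap_iff_fixed (k := L) (K := AlgebraicClosure L) x).2 h
  exact this

end main

theorem main : S_Unr := by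
  classical
  intro L _ _ _ _ k _ _ a b ha hb hab l hl ζ hζ R β u hβ hRβ hR
  by_contra hcon
  push Not at hcon
  obtain ⟨A, _, red, hr1, hr2, hr3⟩ := exists_red (L := L) (C := AlgebraicClosure L) a b ha hb hab
  -- equal reductions
  have hE : ∀ σ : AlgebraicClosure L ≃ₐ[L] AlgebraicClosure L,
      red (act (sw a b) σ R) = red R → act (sw a b) σ R = R := by
    intro σ h
    obtain ⟨-, -, h3⟩ := hR σ
    have h4 : red (act (sw a b) σ R - R) = 0 := by
      rw [map_sub, h, sub_self]
    have h5 : act (sw a b) σ R - R = 0 := by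
      rcases hD : act (sw a b) σ R - R with _ | ⟨x, y, hxy⟩
      · rfl
      · exfalso
        rw [hD] at h4
        exact (hr1 x y hxy (h3 x y hxy hD)).2 h4
    exact sub_eq_zero.1 h5
  have hnotall : ¬ ∀ σ : AlgebraicClosure L ≃ₐ[L] AlgebraicClosure L, σ β = β := by
    intro h
    obtain ⟨w, rfl⟩ := mem_range_of_fixed β h
    exact hcon w (spectralNorm_extends w)
  have hβ0 : β ≠ 0 := by
    rintro rfl
    exact hnotall (fun σ => map_zero σ)
  -- the reduction of `R` is nonzero
  obtain ⟨x, y, hxy, rfl, hx⟩ : ∃ x y hxy, R = Affine.Point.some x y hxy ∧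
      spectralNorm L (AlgebraicClosure L) x ≤ 1 := by
    rcases R with _ | ⟨x, y, hxy⟩
    · exfalso
      exact hnotall (fun σ => hRβ σ rfl)
    · refine ⟨x, y, hxy, rfl, ?_⟩
      by_contra hx
      apply hnotall
      intro σ
      apply hRβ σ
      apply hE σ
      obtain ⟨h', e⟩ := pm_some (E := sw a b)
        ((σ : AlgebraicClosure L →ₐ[L] AlgebraicClosure L).restrictScalars k) hxy
      unfold act
      rw [e, hr2 x y hxy hx]
      apply hr2
      have := spectralNorm_eq_of_equiv σ x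
      change ¬ spectralNorm L (AlgebraicClosure L) (σ x) ≤ 1
      rw [← this]
      exact hx
  have hy := (hr1 x y hxy hx).1
  -- elements acting trivially on the residues of the coordinates
  have hF : ∀ τ : AlgebraicClosure L ≃ₐ[L] AlgebraicClosure L,
      spectralNorm L (AlgebraicClosure L) (τ x - x) < 1 →
      spectralNorm L (AlgebraicClosure L) (τ y - y) < 1 →
      act (sw a b) τ (Affine.Point.some x y hxy) = Affine.Point.some x y hxy := by
    intro τ h1 h2
    apply hE
    obtain ⟨h', e⟩ := pm_some (E := sw a b)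
      ((τ : AlgebraicClosure L →ₐ[L] AlgebraicClosure L).restrictScalars k) hxy
    unfold act
    rw [e]
    refine hr3 _ _ _ _ _ _ ?_ hx h1 h2
    have := spectralNorm_eq_of_equiv τ x
    change spectralNorm L (AlgebraicClosure L) (τ x) ≤ 1
    rw [← this]
    exact hx
  set R : AlgPt (sw a b) L := Affine.Point.some x y hxy with hRdef
  obtain ⟨g, hg⟩ := spec_cyc L (AlgebraicClosure L) x y hx hy
  have hm : ∀ σ : AlgebraicClosure L ≃ₐ[L] AlgebraicClosure L, ∃ m : ℕ,
      act (sw a b) ((g ^ m)⁻¹ * σ) R = R ∧ ((g ^ m)⁻¹ * σ) β = β := by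
    intro σ
    obtain ⟨m, h1, h2⟩ := hg σ
    have h3 := hF _ h1 h2
    exact ⟨m, h3, hRβ _ h3⟩
  have hsplit : ∀ (σ : AlgebraicClosure L ≃ₐ[L] AlgebraicClosure L) (m : ℕ),
      σ = g ^ m * ((g ^ m)⁻¹ * σ) := fun σ m => by rw [mul_inv_cancel_left]
  -- `g` moves `β`
  have hgβ : g β ≠ β := by
    intro h
    apply hnotall
    intro σ
    obtain ⟨m, -, h2⟩ := hm σ
    have h3 : ∀ n : ℕ, (g ^ n) β = β := by
      intro n
      induction n with
      | zero => rfl
      | succ n ih =>
        rw [pow_succ', AlgEquiv.mul_apply, ih, h]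
    rw [hsplit σ m, AlgEquiv.mul_apply, h2, h3]
  -- `g β = ω β`
  obtain ⟨ω, hω, hgω⟩ : ∃ ω : L, ω ^ l = 1 ∧ g β = algebraMap L (AlgebraicClosure L) ω * β := by
    have h1 : (g β / β) ^ l = 1 := by
      rw [div_pow, ← map_pow, hβ, AlgEquiv.commutes, ← hβ]
      exact div_self (pow_ne_zero _ hβ0)
    have hζ' : IsPrimitiveRoot (algebraMap L (AlgebraicClosure L) ζ) l :=
      hζ.map_of_injective (algebraMap L (AlgebraicClosure L)).injective
    haveI : NeZero l := ⟨hl.ne_zero⟩
    obtain ⟨i, -, hi⟩ := hζ'.eq_pow_of_pow_eq_one h1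
    refine ⟨ζ ^ i, ?_, ?_⟩
    · rw [← pow_mul, mul_comm, pow_mul, hζ.pow_eq_one, one_pow]
    · rw [map_pow, hi, div_mul_cancel₀ _ hβ0]
  have hω1 : ω ≠ 1 := by
    rintro rfl
    rw [map_one, one_mul] at hgω
    exact hgβ hgω
  have hpow : ∀ m : ℕ, (g ^ m) β = algebraMap L (AlgebraicClosure L) (ω ^ m) * β := by
    intro m
    induction m with
    | zero => rw [pow_zero, pow_zero, map_one, one_mul]; rfl
    | succ m ih =>
      rw [pow_succ', AlgEquiv.mul_apply, ih, map_mul, AlgEquiv.commutes, hgω, ← mul_assoc,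
        ← map_mul, ← pow_succ]
  have hD : act (sw a b) g (act (sw a b) g R - R) = act (sw a b) g R - R := (hR g).2.1 g
  have hfix : ∀ σ : AlgebraicClosure L ≃ₐ[L] AlgebraicClosure L, σ β = β →
      act (sw a b) σ R = R := by
    intro σ hσ
    obtain ⟨m, h1, h2⟩ := hm σ
    have h3 : (g ^ m) β = β := by
      rw [hsplit σ m, AlgEquiv.mul_apply, h2] at hσ
      exact hσ
    rw [hpow] at h3
    have h4 : algebraMap L (AlgebraicClosure L) (ω ^ m) = 1 :=
      mul_right_cancel₀ hβ0 (by rw [h3, one_mul])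
    have h5 : ω ^ m = 1 := by
      apply (algebraMap L (AlgebraicClosure L)).injective
      rw [h4, map_one]
    have h6 : l ∣ m := by
      have h7 : orderOf ω = l := by
        haveI : Fact l.Prime := ⟨hl⟩
        exact orderOf_eq_prime hω hω1
      rw [← h7]
      exact orderOf_dvd_of_pow_eq_one h5
    obtain ⟨n, rfl⟩ := h6
    rw [hsplit σ (l * n), act_mul, h1, act_pow hD, mul_comm, mul_nsmul', (hR g).1, nsmul_zero,
      add_zero]
  have hmemL : ∀ X : AlgebraicClosure L,
      (∀ σ : AlgebraicClosure L ≃ₐ[L] AlgebraicClosure L, σ β = β → σ X = X) →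
      X ∈ IntermediateField.adjoin L {β} := by
    intro X hX
    rw [← InfiniteGalois.fixedField_fixingSubgroup (IntermediateField.adjoin L {β})]
    rintro ⟨σ, hσ⟩
    apply hX
    rw [IntermediateField.mem_fixingSubgroup_iff] at hσ
    exact hσ β (IntermediateField.mem_adjoin_simple_self L β)
  have hcoord : ∀ σ : AlgebraicClosure L ≃ₐ[L] AlgebraicClosure L,
      act (sw a b) σ R = R → σ x = x ∧ σ y = y := by
    intro σ h
    obtain ⟨h', e⟩ := pm_some (E := sw a b)
      ((σ : AlgebraicClosure L →ₐ[L] AlgebraicClosure L).restrictScalars k) hxy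
    unfold act at h
    rw [hRdef, e, Affine.Point.some.injEq] at h
    exact h
  have hclose : ∀ X : AlgebraicClosure L, spectralNorm L (AlgebraicClosure L) X ≤ 1 →
      (∀ σ : AlgebraicClosure L ≃ₐ[L] AlgebraicClosure L, σ β = β → σ X = X) →
      spectralNorm L (AlgebraicClosure L) (g X - X) < 1 := by
    intro X hX1 hX
    obtain ⟨c, hc⟩ := exists_coeffs hl.pos hβ X (hmemL X hX)
    have e1 := hc (AlgHom.id L (AlgebraicClosure L))
    have e2 := hc (g : AlgebraicClosure L →ₐ[L] AlgebraicClosure L)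
    change X = ∑ i ∈ Finset.range l, algebraMap L (AlgebraicClosure L) (c i) * β ^ i at e1
    change g X = ∑ i ∈ Finset.range l, algebraMap L (AlgebraicClosure L) (c i) * (g β) ^ i at e2
    rw [hgω] at e2
    have h := spec_kummer L (AlgebraicClosure L) hl hβ hcon c (by rw [← e1]; exact hX1)
      (algebraMap L (AlgebraicClosure L) ω) (by rw [← map_pow, hω, map_one])
    rw [← e1, ← e2] at h
    exact h
  have h1 := hclose x hx (fun σ h => (hcoord σ (hfix σ h)).1)
  have h2 := hclose y hy (fun σ h => (hcoord σ (hfix σ h)).2)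
  exact hgβ (hRβ g (hF g h1 h2))

end Pool.Agent.Y791.BS.Unr
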