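import Pool.Agent.Y791.BS.Div
import Pool.Agent.Y791.BS.Obs3
import Pool.Agent.Y791.BS.HitRoot
import Pool.Agent.Y791.BS.Unr
import Pool.Agent.Y791.BS.Emb
import Pool.Agent.Y791.BS.Inter
import Pool.Agent.TH954.SUni

/-!
# Birational sections of curves over `K(T)`
-/

set_option autoImplicit false
set_option linter.unusedSectionVars false

open Polynomial WeierstrassCurve IsDedekindDomain NumberField

namespace Pool.Agent.Y791.BS

open Pool.Agent.TH942 Pool.Agent.TH954

section val

variable {k M C : Type} [Field k] [Field M] [Field C] [Algebra k M] [Algebra k C]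

/-- a function which vanishes at the roots of `f` and at infinity -/
lemma val_quot {pl : Plc k M C} {x : M} (f : k[X]) (e : k) (he : f.eval e ≠ 0)
    (h : x ∈ pl.W → pl.val (aeval x f) 0) :
    pl.val (aeval x f / (x - algebraMap k M e) ^ (f.natDegree + 1)) 0 := by
  by_cases hx : x ∈ pl.W
  · obtain ⟨c, hc⟩ := Plc.val_of_mem hx
    have h1 := h hx
    have h2 : pl.val (aeval x f) (aeval c f) := by
      rw [aeval_eq_sum_range, aeval_eq_sum_range]
      refine Plc.val_sum _ (fun i _ => ?_)
      rw [Algebra.smul_def, Algebra.smul_def]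
      exact (Plc.val_alg _).mul (hc.pow i)
    have h3 : aeval c f = 0 := h2.unique h1
    have h4 : c - algebraMap k C e ≠ 0 := by
      intro h0
      rw [sub_eq_zero] at h0
      rw [h0, aeval_algebraMap_apply] at h3
      apply he
      rw [← coe_aeval_eq_eval]
      exact (map_eq_zero (algebraMap k C)).1 h3
    have h5 := ((hc.sub (Plc.val_alg e)).pow (f.natDegree + 1)).inv (pow_ne_zero _ h4)
    have h6 := h1.mul h5
    rw [zero_mul, ← div_eq_mul_inv] at h6
    exact h6
  · -- the inverse of `x - e` vanishes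
    have h1 : x - algebraMap k M e ∉ pl.W := by
      intro h1
      apply hx
      have h2 := add_mem h1 (pl.alg_mem e)
      rwa [sub_add_cancel] at h2
    have h2 : x - algebraMap k M e ≠ 0 := fun h0 => h1 (by rw [h0]; exact zero_mem _)
    have h3 := Plc.val_inv_of_notMem h1
    have h4 : pl.val (x * (x - algebraMap k M e)⁻¹) 1 := by
      have e1 : x * (x - algebraMap k M e)⁻¹ = 1 + algebraMap k M e * (x - algebraMap k M e)⁻¹ := by
        field_simp
        ring
      rw [e1]
      have h5 := (Plc.val_one (pl := pl)).add ((Plc.val_alg (pl := pl) e).mul h3)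
      rw [mul_zero, add_zero] at h5
      exact h5
    have e2 : aeval x f / (x - algebraMap k M e) ^ (f.natDegree + 1) =
        ∑ i ∈ Finset.range (f.natDegree + 1), algebraMap k M (f.coeff i) *
          ((x * (x - algebraMap k M e)⁻¹) ^ i *
            ((x - algebraMap k M e)⁻¹) ^ (f.natDegree + 1 - i)) := by
      rw [aeval_eq_sum_range, Finset.sum_div]
      refine Finset.sum_congr rfl fun i hi => ?_
      rw [Finset.mem_range] at hi
      rw [Algebra.smul_def, mul_pow, inv_pow, inv_pow, mul_div_assoc]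
      congr 1
      rw [mul_assoc, ← mul_inv, ← pow_add, Nat.add_sub_cancel' hi.le, div_eq_mul_inv]
    rw [e2]
    have h6 := Plc.val_sum (pl := pl) (Finset.range (f.natDegree + 1))
      (f := fun i => algebraMap k M (f.coeff i) *
          ((x * (x - algebraMap k M e)⁻¹) ^ i *
            ((x - algebraMap k M e)⁻¹) ^ (f.natDegree + 1 - i))) (g := fun _ => (0 : C))
      (fun i hi => by
        rw [Finset.mem_range] at hi
        have h7 := (Plc.val_alg (pl := pl) (f.coeff i)).mul
          ((h4.pow i).mul (h3.pow (f.natDegree + 1 - i)))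
        rw [zero_pow (by omega), mul_zero, mul_zero] at h7
        exact h7)
    rw [Finset.sum_const_zero] at h6
    exact h6

end val

section point

open Pool.Agent.H901R3.MS

lemma nonsing_base {k M : Type} [Field k] [Field M] [CharZero M] [Algebra k M] {a b : k}
    (hD : 4 * a ^ 3 + 27 * b ^ 2 ≠ 0) {x y : M}
    (h : y ^ 2 = x ^ 3 + algebraMap k M a * x + algebraMap k M b) :
    ((sw a b).baseChange M).toAffine.Nonsingular x y := by
  have key : ∀ W : WeierstrassCurve M, W = CV (algebraMap k M a) (algebraMap k M b) →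
      W.toAffine.Nonsingular x y := by
    rintro _ rfl
    exact (nonsingular_iff (disc_base hD)).2 h
  exact key _ (base_eq a b M)

end point

section main

lemma two_not_pow_ratFunc {K : Type} [Field K] [NumberField K] (c : RatFunc K) :
    c ^ (Module.finrank ℚ K + 1) ≠ 2 := by
  intro hc
  obtain ⟨p, hp⟩ := IsIntegrallyClosed.exists_algebraMap_eq_of_isIntegral_pow (R := K[X])
    (x := c) (Nat.succ_pos (Module.finrank ℚ K)) (by
      rw [Nat.succ_eq_add_one, hc]
      have h1 : (2 : RatFunc K) = algebraMap K[X] (RatFunc K) 2 := (map_ofNat _ 2).symm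
      rw [h1]
      exact isIntegral_algebraMap)
  have h2 : p ^ (Module.finrank ℚ K + 1) = 2 := by
    apply RatFunc.algebraMap_injective K
    rw [map_pow, hp, hc, map_ofNat]
  have h3 : p.natDegree = 0 := by
    have h4 := congrArg natDegree h2
    rw [natDegree_pow, natDegree_ofNat] at h4
    exact (Nat.mul_eq_zero.1 h4).resolve_left (Nat.succ_ne_zero _)
  rw [eq_C_of_natDegree_eq_zero h3, ← C_pow] at h2
  have h5 : (C (p.coeff 0 ^ (Module.finrank ℚ K + 1)) : K[X]) = C 2 := by
    rw [h2]
    exact (map_ofNat C 2).symm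
  exact two_not_pow _ (C_injective h5)

open scoped Classical in
/-- the point of a section of a curve over the field of rational functions -/
theorem bir_base {K : Type} [Field K] [NumberField K] {a b : K}
    (hD : 4 * a ^ 3 + 27 * b ^ 2 ≠ 0)
    (ha : ∀ v : HeightOneSpectrum (𝓞 K), ‖algebraMap K (v.adicCompletion K) a‖ ≤ 1)
    (hb : ∀ v : HeightOneSpectrum (𝓞 K), ‖algebraMap K (v.adicCompletion K) b‖ ≤ 1)
    {F Ω B : Type} [Field F] [Field Ω] [Field B] [Algebra (RatFunc K) F] [Algebra F Ω]
    [Algebra (RatFunc K) Ω] [Algebra (RatFunc K) B] [IsScalarTower (RatFunc K) F Ω]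
    [IsAlgClosure F Ω] [IsAlgClosure (RatFunc K) B]
    (hF : ∃ t : F, Transcendental (RatFunc K) t ∧
      Algebra.IsAlgebraic (IntermediateField.adjoin (RatFunc K) {t}) F)
    (x y : F) (hx : Transcendental (RatFunc K) x)
    (hxy : algebraMap (RatFunc K) F RatFunc.X * y ^ 2 =
      x ^ 3 + algebraMap (RatFunc K) F (cc a) * x + algebraMap (RatFunc K) F (cc b))
    (s : GalSection (RatFunc K) F Ω B)
    (hloc : ∀ i : Pl K, s.GeometricOver (i.v.adicCompletion K)
      (AlgebraicClosure (i.v.adicCompletion K))) :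
    ∃ O : ValuationSubring F, s.ArisesFrom O ∧
      (x ∈ O → (x ^ 3 + algebraMap (RatFunc K) F (cc a) * x +
        algebraMap (RatFunc K) F (cc b))⁻¹ ∉ O) ∧
      ∀ O', s.ArisesFrom O' → O' = O := by
  have hchk : CharZero (RatFunc K) :=
    charZero_of_injective_algebraMap (algebraMap K (RatFunc K)).injective
  have hΩ1 : IsAlgClosed Ω := IsAlgClosure.isAlgClosed F
  have hΩ2 : Algebra.IsAlgebraic F Ω := IsAlgClosure.isAlgebraic
  have hcF : CharZero F :=
    charZero_of_injective_algebraMap (algebraMap (RatFunc K) F).injective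
  have hcΩ : CharZero Ω := charZero_of_injective_algebraMap (algebraMap F Ω).injective
  obtain ⟨fr⟩ := exists_frame (K := K)
  set A := toSAct s with hA
  have hAF : ∀ (τ : Kb K ≃ₐ[RatFunc K] Kb K) (x : F),
      A.s τ (algebraMap F Ω x) = algebraMap F Ω x :=
    fun τ x => (s.s ((eqv (RatFunc K) B).autCongr τ)).commutes x
  choose pl hpl using fun i : Pl K => toSAct_geo s (hloc i)
  -- the point
  set f : (RatFunc K)[X] := X ^ 3 + C (cc a) * X + C (cc b) with hf
  have hfx : aeval x f = x ^ 3 + algebraMap (RatFunc K) F (cc a) * x +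
      algebraMap (RatFunc K) F (cc b) := by
    simp [hf]
  set y0 : Ω := algebraMap F Ω y * A.j fr.S with hy0
  have hy0sq : y0 ^ 2 = (algebraMap F Ω x) ^ 3 + algebraMap (RatFunc K) Ω (cc a) *
      algebraMap F Ω x + algebraMap (RatFunc K) Ω (cc b) := by
    have h1 := congrArg (algebraMap F Ω) hxy
    simp only [map_add, map_mul, map_pow, ← IsScalarTower.algebraMap_apply (RatFunc K) F Ω] at h1
    rw [← h1, hy0, mul_pow, ← map_pow A.j, fr.sq, A.j.commutes]
    ring
  have hns := nonsing_base (M := Ω) (cc_disc hD) hy0sq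
  have hPτ : ∀ τ : Kb K ≃ₐ[RatFunc K] Kb K, τ fr.S = fr.S →
      A.pt (cc a) (cc b) τ (.some _ _ hns) = .some _ _ hns := by
    intro τ hτ
    obtain ⟨h', e⟩ := pm_some (E := sw (cc a) (cc b))
      ((A.s τ : Ω ≃ₐ[RatFunc K] Ω) : Ω →ₐ[RatFunc K] Ω) hns
    unfold SAct.pt
    rw [e, Affine.Point.some.injEq]
    refine ⟨hAF τ x, ?_⟩
    change A.s τ y0 = y0
    rw [hy0, map_mul, hAF, A.hj, hτ]
  have hPτ' : ∀ τ : Kb K ≃ₐ[RatFunc K] Kb K, τ fr.S = -fr.S →
      A.pt (cc a) (cc b) τ (.some _ _ hns) = -.some _ _ hns := by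
    intro τ hτ
    obtain ⟨h', e⟩ := pm_some (E := sw (cc a) (cc b))
      ((A.s τ : Ω ≃ₐ[RatFunc K] Ω) : Ω →ₐ[RatFunc K] Ω) hns
    unfold SAct.pt
    rw [e, Affine.Point.neg_some, Affine.Point.some.injEq]
    refine ⟨hAF τ x, ?_⟩
    change A.s τ y0 = _
    have e1 : ((sw (cc a) (cc b)).baseChange Ω).a₁ = 0 := map_zero _
    have e3 : ((sw (cc a) (cc b)).baseChange Ω).a₃ = 0 := map_zero _
    rw [Affine.negY, e1, e3, hy0, map_mul, hAF, A.hj, hτ, map_neg]
    ring
  have hval : ∀ i, algebraMap F Ω x ∈ (pl i).W →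
      (pl i).val (aeval (algebraMap F Ω x) f) 0 := by
    intro i hi
    have h1 := two_red A fr Emb.main Unr.main Inter.main hD ha hb pl hpl hns hPτ hPτ' i hi
    have h2 := h1.pow 2
    rw [zero_pow two_ne_zero, hy0sq] at h2
    have e1 : aeval (algebraMap F Ω x) f = (algebraMap F Ω x) ^ 3 +
        algebraMap (RatFunc K) Ω (cc a) * algebraMap F Ω x + algebraMap (RatFunc K) Ω (cc b) := by
      simp [hf]
    rw [e1]
    exact h2
  -- the function
  have hf0 : f ≠ 0 := by
    intro h0
    have h1 := congrArg (fun p => coeff p 3) h0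
    simp [hf, coeff_X, coeff_C] at h1
  obtain ⟨e, he⟩ : ∃ e : RatFunc K, f.eval e ≠ 0 := by
    by_contra hcon
    push Not at hcon
    exact hf0 (Polynomial.funext (fun r => by rw [hcon r, eval_zero]))
  have hxe : x - algebraMap (RatFunc K) F e ≠ 0 := by
    intro h0
    apply hx
    rw [sub_eq_zero.1 h0]
    exact isAlgebraic_algebraMap e
  have hfx0 : aeval x f ≠ 0 := fun h0 => hx ⟨f, hf0, h0⟩
  set t : F := aeval x f / (x - algebraMap (RatFunc K) F e) ^ (f.natDegree + 1) with ht
  have ht0 : t ≠ 0 := div_ne_zero hfx0 (pow_ne_zero _ hxe)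
  have htΩ : algebraMap F Ω t = aeval (algebraMap F Ω x) f /
      (algebraMap F Ω x - algebraMap (RatFunc K) Ω e) ^ (f.natDegree + 1) := by
    rw [ht, map_div₀, map_pow, map_sub, aeval_algebraMap_apply,
      ← IsScalarTower.algebraMap_apply (RatFunc K) F Ω]
  have htv : ∀ i, (pl i).val (algebraMap F Ω t) 0 := by
    intro i
    rw [htΩ]
    exact val_quot f e he (hval i)
  have hN : ∀ c : RatFunc K, c ^ (Module.finrank ℚ K + 1) ≠ 2 := two_not_pow_ratFunc
  have hcL : ∀ i : Pl K, CharZero (i.v.adicCompletion K) := fun i => charZero_compl i.v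
  obtain ⟨O, hO1, hO2, hO3⟩ := geometric_of_zero (obs_ratFunc (K := K) HitRoot.main)
    (Nat.succ_pos _) hN hF s pl hpl t ht0 htv
  refine ⟨O, hO1, fun hxO hfO => hO2 ?_, hO3⟩
  rw [ht, inv_div, hfx, div_eq_mul_inv]
  refine mul_mem (pow_mem (sub_mem hxO (hO1.2.1 e)) _) hfO

end main

end Pool.Agent.Y791.BS
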