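import Pool.Agent.TH954.Descent
import Mathlib.Analysis.Normed.Unbundled.SpectralNorm

/-!
# Statements of independent pieces (not results)
-/

set_option autoImplicit false

open IsDedekindDomain NumberField WeierstrassCurve

namespace Pool.Agent.Y791.BS

open Pool.Agent.TH942 Pool.Agent.TH954

/-- Hilbert's irreducibility theorem over number fields, root form. -/
def S_Hit : Prop :=
  ∀ (K : Type) [Field K] [NumberField K] (P : Polynomial (Polynomial K)), P.Monic →
    (∀ g : Polynomial K, P.eval g ≠ 0) →
    ∃ t : K, ∀ x : K, (P.map (Polynomial.evalRingHom t)).eval x ≠ 0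

/-- Finitely many algebraic numbers lie in a completion of `K`, and the nonzero ones are units
there. -/
def S_Emb : Prop :=
  ∀ (K : Type) [Field K] [NumberField K] (Z : Finset (AlgebraicClosure K)),
    ∃ (v : HeightOneSpectrum (𝓞 K))
      (ι : AlgebraicClosure K →ₐ[K] AlgebraicClosure (v.adicCompletion K)),
      ∀ z ∈ Z, ∃ y : v.adicCompletion K,
        algebraMap (v.adicCompletion K) (AlgebraicClosure (v.adicCompletion K)) y = ι z ∧
        (z ≠ 0 → ‖y‖ = 1)

open scoped Classical in
/-- A point of an elliptic curve over a local field which is divisible by all `n` in the points over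
a finite extension is zero. -/
def S_Inter : Prop :=
  ∀ (L : Type) [NontriviallyNormedField L] [IsUltrametricDist L] [ProperSpace L] [CharZero L]
    (k : Type) [Field k] [Algebra k L] (a b : k), ‖algebraMap k L a‖ ≤ 1 →
    ‖algebraMap k L b‖ ≤ 1 → 4 * a ^ 3 + 27 * b ^ 2 ≠ 0 →
    ∀ (z : AlgebraicClosure L) (D : AlgPt (sw a b) L),
      (∀ n : ℕ, 1 ≤ n → ∃ R : AlgPt (sw a b) L, n • R = D ∧
        ∀ σ : AlgebraicClosure L ≃ₐ[L] AlgebraicClosure L, σ z = z → act (sw a b) σ R = R) →
      D = 0

open scoped Classical in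
/-- Division points of prime order at places of good reduction are unramified, in the form needed:
radicals contained in the field of a division point have the absolute value of an element of `L`. -/
def S_Unr : Prop :=
  ∀ (L : Type) [NontriviallyNormedField L] [IsUltrametricDist L] [ProperSpace L] [CharZero L]
    (k : Type) [Field k] [Algebra k L] (a b : k), ‖algebraMap k L a‖ ≤ 1 →
    ‖algebraMap k L b‖ ≤ 1 → ‖algebraMap k L (2 * (4 * a ^ 3 + 27 * b ^ 2))‖ = 1 →
    ∀ (l : ℕ), l.Prime → ∀ ζ : L, IsPrimitiveRoot ζ l →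
    ∀ (R : AlgPt (sw a b) L) (β : AlgebraicClosure L) (u : L),
      β ^ l = algebraMap L (AlgebraicClosure L) u →
      (∀ σ : AlgebraicClosure L ≃ₐ[L] AlgebraicClosure L, act (sw a b) σ R = R → σ β = β) →
      (∀ σ : AlgebraicClosure L ≃ₐ[L] AlgebraicClosure L,
        l • (act (sw a b) σ R - R) = 0 ∧
        (∀ τ : AlgebraicClosure L ≃ₐ[L] AlgebraicClosure L,
          act (sw a b) τ (act (sw a b) σ R - R) = act (sw a b) σ R - R) ∧
        ∀ x y h, act (sw a b) σ R - R = .some x y h → spectralNorm L (AlgebraicClosure L) x ≤ 1) →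
      ∃ w : L, spectralNorm L (AlgebraicClosure L) β = ‖w‖

end Pool.Agent.Y791.BS
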