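import Pool.Agent.Y791.BS.Loc
import Pool.Agent.Y791.BS.Tasks
import Pool.Agent.Y791.BS.GVal

/-!
# Finite sets of algebraic functions: integral polynomials
-/

set_option autoImplicit false
set_option linter.unusedSectionVars false

open Polynomial

namespace Pool.Agent.Y791.BS

open Pool.Agent.TH954

section

variable {R k : Type} [CommRing R] [IsDomain R] [IsIntegrallyClosed R] [Field k] [CharZero k]
  [Algebra R k] [IsFractionRing R k]

lemma exists_denom (T : Finset (AlgebraicClosure k)) :
    ∃ D : R, D ≠ 0 ∧ ∀ θ ∈ T, IsIntegral R (algebraMap R (AlgebraicClosure k) D * θ) := by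
  classical
  induction T using Finset.induction_on with
  | empty => exact ⟨1, one_ne_zero, fun θ hθ => absurd hθ (Finset.notMem_empty θ)⟩
  | insert θ0 T h0 ih =>
    obtain ⟨D, hD, h⟩ := ih
    have h1 : IsAlgebraic R θ0 :=
      (IsFractionRing.isAlgebraic_iff R k (AlgebraicClosure k)).2
        (Algebra.IsAlgebraic.isAlgebraic θ0)
    obtain ⟨y, hy0, hy⟩ := h1.exists_integral_multiple
    refine ⟨D * y, mul_ne_zero hD hy0, fun θ hθ => ?_⟩
    rcases Finset.mem_insert.1 hθ with rfl | hθ
    · rw [map_mul, mul_assoc]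
      refine isIntegral_algebraMap.mul ?_
      rw [Algebra.smul_def] at hy
      exact hy
    · rw [map_mul, mul_comm (algebraMap R _ D), mul_assoc]
      exact isIntegral_algebraMap.mul (h θ hθ)

/-- the integral polynomial of a Galois stable finite set -/
theorem exists_int_poly (T : Finset (AlgebraicClosure k))
    (hT : ∀ σ : AlgebraicClosure k ≃ₐ[k] AlgebraicClosure k, ∀ θ ∈ T, σ θ ∈ T)
    (hint : ∀ θ ∈ T, IsIntegral R θ) :
    ∃ m : Polynomial R, m.Monic ∧
      m.map (algebraMap R (AlgebraicClosure k)) =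
        ∏ θ ∈ T, (Polynomial.X - Polynomial.C θ) := by
  classical
  set P : Polynomial (AlgebraicClosure k) := ∏ θ ∈ T, (Polynomial.X - Polynomial.C θ) with hP
  have hmon : P.Monic := Polynomial.monic_prod_of_monic _ _ (fun θ _ => Polynomial.monic_X_sub_C θ)
  have hfix : ∀ σ : AlgebraicClosure k ≃ₐ[k] AlgebraicClosure k,
      P.map (σ : AlgebraicClosure k →+* AlgebraicClosure k) = P := by
    intro σ
    have h1 : T.image σ = T := by
      refine Finset.eq_of_subset_of_card_le (fun x hx => ?_) ?_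
      · obtain ⟨θ, hθ, rfl⟩ := Finset.mem_image.1 hx
        exact hT σ θ hθ
      · rw [Finset.card_image_of_injective _ σ.injective]
    rw [hP, Polynomial.map_prod]
    conv_rhs => rw [← h1]
    rw [Finset.prod_image (fun x _ y _ h => σ.injective h)]
    refine Finset.prod_congr rfl (fun θ _ => ?_)
    rw [Polynomial.map_sub, Polynomial.map_X, Polynomial.map_C]
    rfl
  have hcint : ∀ n, IsIntegral R (P.coeff n) := by
    have h1 : ∃ q : Polynomial (integralClosure R (AlgebraicClosure k)),
        q.map (algebraMap (integralClosure R (AlgebraicClosure k)) (AlgebraicClosure k)) = P := by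
      refine ⟨∏ θ ∈ T.attach, (Polynomial.X - Polynomial.C (⟨θ.1, hint θ.1 θ.2⟩ :
        integralClosure R (AlgebraicClosure k))), ?_⟩
      rw [Polynomial.map_prod, hP, ← Finset.prod_attach T]
      refine Finset.prod_congr rfl (fun θ _ => ?_)
      rw [Polynomial.map_sub, Polynomial.map_X, Polynomial.map_C]
      rfl
    obtain ⟨q, hq⟩ := h1
    intro n
    rw [← hq, Polynomial.coeff_map]
    exact (q.coeff n).2
  have hl : P ∈ Polynomial.lifts (algebraMap R (AlgebraicClosure k)) := by
    rw [Polynomial.lifts_iff_coeff_lifts]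
    intro n
    obtain ⟨y, hy⟩ := base_of_fixed (x := P.coeff n) (fun σ => by
      conv_rhs => rw [← hfix σ]
      rw [Polynomial.coeff_map]
      rfl)
    have hyi : IsIntegral R y := by
      have := hcint n
      rw [← hy] at this
      exact (isIntegral_algebraMap_iff (algebraMap k (AlgebraicClosure k)).injective).1 this
    obtain ⟨z, hz⟩ := IsIntegrallyClosed.isIntegral_iff.1 hyi
    refine ⟨z, ?_⟩
    rw [IsScalarTower.algebraMap_apply R k (AlgebraicClosure k), hz, hy]
  obtain ⟨q, hq, -, hqm⟩ := Polynomial.lifts_and_degree_eq_and_monic hl hmon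
  exact ⟨q, hqm, hq⟩

/-- the obstruction may be tested after scaling -/
lemma obs_scale {I : Type} {L : I → Type} [∀ i, Field (L i)] [∀ i, Algebra k (L i)]
    (h : ∀ T : Finset (AlgebraicClosure k),
      (∀ σ : AlgebraicClosure k ≃ₐ[k] AlgebraicClosure k, ∀ θ ∈ T, σ θ ∈ T) →
      (∀ θ ∈ T, IsIntegral R θ) →
      (∀ θ ∈ T, ∃ σ : AlgebraicClosure k ≃ₐ[k] AlgebraicClosure k, σ θ ≠ θ) →
      ∃ (l : ℕ) (a : k), 1 ≤ l ∧ ∀ c : k, c ≠ 0 → ∃ v : I,
        ∀ (ι : AlgebraicClosure k →ₐ[k] AlgebraicClosure (L v)), ∀ θ ∈ T,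
        ∀ z : L v, ι (θ - algebraMap k (AlgebraicClosure k) a) ≠
          algebraMap (L v) (AlgebraicClosure (L v)) (algebraMap k (L v) c * z ^ l)) :
    Obs k L := by
  classical
  intro T hT hne
  obtain ⟨D, hD, hDint⟩ := exists_denom (R := R) T
  have hDk : algebraMap R k D ≠ 0 := by
    rw [Ne, IsFractionRing.to_map_eq_zero_iff]
    exact hD
  set D' : AlgebraicClosure k := algebraMap R (AlgebraicClosure k) D with hD'
  have hDk' : D' = algebraMap k (AlgebraicClosure k) (algebraMap R k D) :=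
    IsScalarTower.algebraMap_apply R k (AlgebraicClosure k) D
  have hD'0 : D' ≠ 0 := by
    rw [hDk']
    exact (_root_.map_ne_zero _).2 hDk
  obtain ⟨l, a, hl, h⟩ := h (T.image (fun θ => D' * θ)) (by
      intro σ x hx
      obtain ⟨θ, hθ, rfl⟩ := Finset.mem_image.1 hx
      refine Finset.mem_image.2 ⟨σ θ, hT σ θ hθ, ?_⟩
      rw [map_mul, hDk', σ.commutes]) (by
      intro x hx
      obtain ⟨θ, hθ, rfl⟩ := Finset.mem_image.1 hx
      exact hDint θ hθ) (by
      intro x hx
      obtain ⟨θ, hθ, rfl⟩ := Finset.mem_image.1 hx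
      obtain ⟨σ, hσ⟩ := hne θ hθ
      refine ⟨σ, fun h1 => hσ ?_⟩
      rw [map_mul, hDk', σ.commutes, ← hDk'] at h1
      exact mul_left_cancel₀ hD'0 h1)
  refine ⟨l, a / algebraMap R k D, hl, fun c hc => ?_⟩
  obtain ⟨v, hv⟩ := h (algebraMap R k D * c) (mul_ne_zero hDk hc)
  refine ⟨v, fun ι θ hθ z hz => ?_⟩
  refine hv ι (D' * θ) (Finset.mem_image_of_mem _ hθ) z ?_
  have e1 : D' * θ - algebraMap k (AlgebraicClosure k) a =
      D' * (θ - algebraMap k (AlgebraicClosure k) (a / algebraMap R k D)) := by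
    rw [map_div₀, ← hDk']
    field_simp
  rw [e1, map_mul, hz, hDk', ι.commutes, IsScalarTower.algebraMap_apply k (L v)
    (AlgebraicClosure (L v)), ← map_mul]
  congr 1
  rw [map_mul]
  ring

end

end Pool.Agent.Y791.BS
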