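import Pool.Agent.Y791.BS.Par

/-!
# Division points of points over the rational functions of `S` (2)
-/

set_option autoImplicit false
set_option linter.unusedSectionVars false

open Polynomial WeierstrassCurve IsDedekindDomain NumberField

namespace Pool.Agent.Y791.BS

open Pool.Agent.TH942 Pool.Agent.TH954

section loc

variable {K : Type} [Field K] [CharZero K] {M : Type} [Field M] [CharZero M] [IsAlgClosed M]
  [Algebra (RatFunc K) M] (A : SAct (RatFunc K) M) (fr : Frame K) {a b : K}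

open scoped Classical in
/-- the reduction is compatible with the actions -/
lemma red_pt {L : Type} [Field L] [Algebra (RatFunc K) L]
    {pl : Plc (RatFunc K) M (AlgebraicClosure L)} (hpl : GeoPlc A pl)
    {red : PM M a b →+ AlgPt (sw (cc a) (cc b)) L}
    (h1 : ∀ x y h, x ∉ pl.W → red (.some x y h) = 0)
    (h2 : ∀ x y h (hx : x ∈ pl.W), ∃ (hy : y ∈ pl.W)
      (h' : ((sw (cc a) (cc b)).baseChange (AlgebraicClosure L)).toAffine.Nonsingular
        (pl.ρ ⟨x, hx⟩) (pl.ρ ⟨y, hy⟩)), red (.some x y h) = .some _ _ h')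
    {σ : AlgebraicClosure L ≃ₐ[L] AlgebraicClosure L} {τ : Kb K ≃ₐ[RatFunc K] Kb K}
    (hστ : Compat (pl.iot A.j) σ τ) (T : PM M a b) :
    red (A.pt (cc a) (cc b) τ T) = act (sw (cc a) (cc b)) σ (red T) :=
  red_act (pl := pl) (a := cc a) (b := cc b) (red := red) (map_zero red) h1 h2
      ((A.s τ : M ≃ₐ[RatFunc K] M) : M →ₐ[RatFunc K] M)
      ((σ : AlgebraicClosure L →ₐ[L] AlgebraicClosure L).restrictScalars (RatFunc K))
      (fun x => hpl σ τ hστ x) T

open scoped Classical in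
/-- the local part: the Kummer radical is unramified -/
theorem local_rad (hUnr : S_Unr) {L : Type} [NontriviallyNormedField L] [IsUltrametricDist L]
    [ProperSpace L] [CharZero L] [Algebra (RatFunc K) L] (hD : 4 * a ^ 3 + 27 * b ^ 2 ≠ 0)
    (ha : ‖algebraMap (RatFunc K) L (cc a)‖ ≤ 1) (hb : ‖algebraMap (RatFunc K) L (cc b)‖ ≤ 1)
    (hDL : ‖algebraMap (RatFunc K) L (2 * (4 * cc a ^ 3 + 27 * cc b ^ 2))‖ = 1)
    {pl : Plc (RatFunc K) M (AlgebraicClosure L)} (hpl : GeoPlc A pl)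
    {l : ℕ} (hl : l.Prime) {Z : Set (AlgebraicClosure K)}
    (hZ : ∀ z ∈ Z, ∃ y : L, algebraMap L (AlgebraicClosure L) y = pl.iot A.j (fr.e z) ∧ ‖y‖ ≤ 1)
    (hS : ∃ σ : L, algebraMap L (AlgebraicClosure L) σ = pl.iot A.j fr.S)
    {ζ : AlgebraicClosure K} (hζZ : ζ ∈ Z) (hζ : IsPrimitiveRoot ζ l) {Q : PM M a b}
    (htor : ∀ (x y : M) (h : ((sw (cc a) (cc b)).baseChange M).toAffine.Nonsingular x y),
      l • (Affine.Point.some x y h : PM M a b) = 0 →
      ∃ z ∈ Z, ∃ w ∈ Z, A.j (fr.e z) = x ∧ A.j (fr.e w) = y)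
    (hQ : ∀ h ∈ fr.HZ Z, l • (A.pt (cc a) (cc b) h Q - Q) = 0) {β : Kb K}
    (hβ : ∀ h ∈ fr.HZ Z, A.pt (cc a) (cc b) h Q = Q → h β = β) {u : L}
    (hu : (pl.iot A.j β) ^ l = algebraMap L (AlgebraicClosure L) u) :
    ∃ w : L, ‖w‖ ^ l = ‖u‖ := by
  have hchC : CharZero (AlgebraicClosure L) :=
    charZero_of_injective_algebraMap (algebraMap L (AlgebraicClosure L)).injective
  obtain ⟨red, h1, h2⟩ := exists_redM pl (cc_disc hD)
  have hact : ∀ {σ : AlgebraicClosure L ≃ₐ[L] AlgebraicClosure L} {τ : Kb K ≃ₐ[RatFunc K] Kb K},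
      Compat (pl.iot A.j) σ τ → ∀ T : PM M a b,
      red (A.pt (cc a) (cc b) τ T) = act (sw (cc a) (cc b)) σ (red T) :=
    fun h T => red_pt A hpl h1 h2 h T
  have hmem : ∀ {σ : AlgebraicClosure L ≃ₐ[L] AlgebraicClosure L} {τ : Kb K ≃ₐ[RatFunc K] Kb K},
      Compat (pl.iot A.j) σ τ → τ ∈ fr.HZ Z := by
    intro σ τ h
    refine ⟨fun z hz => ?_, ?_⟩
    · obtain ⟨y, hy, -⟩ := hZ z hz
      apply (pl.iot A.j).injective
      change pl.iot A.j (τ (fr.e z)) = pl.iot A.j (fr.e z)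
      rw [h, ← hy, σ.commutes]
    · obtain ⟨y, hy⟩ := hS
      apply (pl.iot A.j).injective
      change pl.iot A.j (τ fr.S) = pl.iot A.j fr.S
      rw [h, ← hy, σ.commutes]
  -- torsion points have integral coordinates
  have hcoord : ∀ (x y : M) (h : ((sw (cc a) (cc b)).baseChange M).toAffine.Nonsingular x y),
      l • (Affine.Point.some x y h : PM M a b) = 0 → ∃ hx : x ∈ pl.W, ∃ y' : L,
        algebraMap L (AlgebraicClosure L) y' = pl.ρ ⟨x, hx⟩ ∧ ‖y'‖ ≤ 1 := by
    intro x y h hh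
    obtain ⟨z, hz, w, hw, rfl, rfl⟩ := htor x y h hh
    obtain ⟨h3, e3⟩ := pl.iot_spec A.j (fr.e z)
    obtain ⟨y', hy', hn⟩ := hZ z hz
    exact ⟨h3, y', by rw [hy', e3], hn⟩
  have hinj : ∀ T : PM M a b, l • T = 0 → red T = 0 → T = 0 := by
    intro T hT hr
    rcases T with _ | ⟨x, y, h⟩
    · rfl
    · obtain ⟨hx, -⟩ := hcoord x y h hT
      obtain ⟨hy, h', e⟩ := h2 x y h hx
      rw [e] at hr
      exact absurd hr (Affine.Point.some_ne_zero _)
  have hζL : ∃ ζL : L, IsPrimitiveRoot ζL l := by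
    obtain ⟨y, hy, -⟩ := hZ ζ hζZ
    refine ⟨y, ?_⟩
    apply IsPrimitiveRoot.of_map_of_injective (f := algebraMap L (AlgebraicClosure L))
    · rw [hy]
      exact (hζ.map_of_injective fr.e.injective).map_of_injective (pl.iot A.j).injective
    · exact (algebraMap L (AlgebraicClosure L)).injective
  obtain ⟨ζL, hζL⟩ := hζL
  obtain ⟨w, hw⟩ := hUnr L (RatFunc K) (cc a) (cc b) ha hb hDL l hl ζL hζL (red Q)
    (pl.iot A.j β) u hu (by
      intro σ hσ
      obtain ⟨τ, hτ⟩ := exists_compat (pl.iot A.j) σ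
      have hτZ := hmem hτ
      have h3 : A.pt (cc a) (cc b) τ Q - Q = 0 := by
        apply hinj _ (hQ τ hτZ)
        rw [map_sub, hact hτ, hσ, sub_self]
      rw [← hτ β, hβ τ hτZ (sub_eq_zero.1 h3)]) (by
      intro σ
      obtain ⟨τ, hτ⟩ := exists_compat (pl.iot A.j) σ
      have hτZ := hmem hτ
      have h3 : act (sw (cc a) (cc b)) σ (red Q) - red Q =
          red (A.pt (cc a) (cc b) τ Q - Q) := by
        rw [map_sub, hact hτ]
      rw [h3]
      refine ⟨?_, ?_, ?_⟩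
      · rw [← map_nsmul, hQ τ hτZ, map_zero]
      · intro σ'
        obtain ⟨τ', hτ'⟩ := exists_compat (pl.iot A.j) σ'
        rw [← hact hτ', pt_fix A fr htor (hQ τ hτZ) (hmem hτ')]
      · intro x y h hxy
        have h4 := hQ τ hτZ
        rcases hT : A.pt (cc a) (cc b) τ Q - Q with _ | ⟨x', y', h'⟩
        · rw [hT] at hxy
          have h5 : red (Affine.Point.zero : PM M a b) = 0 := map_zero red
          rw [h5] at hxy
          exact absurd hxy.symm (Affine.Point.some_ne_zero _)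
        · rw [hT] at h4 hxy
          obtain ⟨hx, y'', hy'', hn⟩ := hcoord _ _ _ h4
          obtain ⟨hy, h5, e⟩ := h2 x' y' h' hx
          rw [e, Affine.Point.some.injEq] at hxy
          rw [← hxy.1, ← hy'', spectralNorm_extends]
          exact hn)
  refine ⟨w, ?_⟩
  rw [← hw, ← isPowMul_spectralNorm (K := L) (L := AlgebraicClosure L) _ hl.one_le, hu,
    spectralNorm_extends]

end loc

section main

variable {K : Type} [Field K] [NumberField K] {M : Type} [Field M] [CharZero M] [IsAlgClosed M]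
  [Algebra (RatFunc K) M] (A : SAct (RatFunc K) M) (fr : Frame K) {a b : K}

open scoped Classical in
/-- points which have a multiple of prime order over the rational functions of `S` are themselves
defined there -/
theorem fixed_div (hEmb : S_Emb) (hUnr : S_Unr) (hD : 4 * a ^ 3 + 27 * b ^ 2 ≠ 0)
    (ha : ∀ v : HeightOneSpectrum (𝓞 K), ‖algebraMap K (v.adicCompletion K) a‖ ≤ 1)
    (hb : ∀ v : HeightOneSpectrum (𝓞 K), ‖algebraMap K (v.adicCompletion K) b‖ ≤ 1)
    (pl : ∀ i : Pl K, Plc (RatFunc K) M (AlgebraicClosure (i.v.adicCompletion K)))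
    (hpl : ∀ i, GeoPlc A (pl i)) {l : ℕ} (hl : l.Prime) {Q Q' : PM M a b}
    (hQ : l • Q = Q') (hQ' : ∀ h ∈ fr.HZ Set.univ, A.pt (cc a) (cc b) h Q' = Q') :
    ∀ h ∈ fr.HZ Set.univ, A.pt (cc a) (cc b) h Q = Q := by
  intro h0 hh0
  by_contra hne
  obtain ⟨Z, β, g, c, m, ζ, hcZ, hgZ, hgcZ, hζZ, hζ, hDZ, htor, hgc, hm, hβl, hQZ, hβZ⟩ :=
    exists_glob A fr hD hl hQ hQ' hh0 hne
  obtain ⟨i, ι, cv, ε, hZι, hcv, hS, hε0, hε1, hεn⟩ := fr.exists_good hEmb Z c hcZ
  obtain ⟨pl', hpl', hiot⟩ := exists_twist A (hpl i) ι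
  let inst1 : NontriviallyNormedField (i.v.adicCompletion K) := nnf i.v
  have inst2 : IsUltrametricDist (i.v.adicCompletion K) := ultra i.v
  have inst3 : ProperSpace (i.v.adicCompletion K) := proper i.v
  have inst4 : CharZero (i.v.adicCompletion K) := charZero_compl i.v
  have hcc : ∀ x : K, algebraMap (RatFunc K) (i.v.adicCompletion K) (cc x) =
      algebraMap K (i.v.adicCompletion K) x := fun x => i.φ.commutes x
  have hle : ∀ z ∈ Z, ∃ y : i.v.adicCompletion K,
      algebraMap (i.v.adicCompletion K) (AlgebraicClosure (i.v.adicCompletion K)) y =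
        ι (fr.e z) ∧ ‖y‖ ≤ 1 := by
    intro z hz
    obtain ⟨y, hy, hy1⟩ := hZι z hz
    refine ⟨y, hy, ?_⟩
    by_cases hz0 : z = 0
    · subst hz0
      rw [map_zero, map_zero] at hy
      rw [(_root_.map_eq_zero _).1 hy, norm_zero]
      exact zero_le_one
    · exact (hy1 hz0).le
  have hone : ∀ z ∈ Z, z ≠ 0 → ∀ y : i.v.adicCompletion K,
      algebraMap (i.v.adicCompletion K) (AlgebraicClosure (i.v.adicCompletion K)) y =
        ι (fr.e z) → ‖y‖ = 1 := by
    intro z hz hz0 y hy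
    obtain ⟨y', hy', hy1⟩ := hZι z hz
    have e : y = y' := (algebraMap (i.v.adicCompletion K)
      (AlgebraicClosure (i.v.adicCompletion K))).injective (hy.trans hy'.symm)
    rw [e]
    exact hy1 hz0
  have hcv1 : ‖cv‖ ≤ 1 := by
    obtain ⟨y, hy, hy1⟩ := hle c hcZ
    have e : cv = y := (algebraMap (i.v.adicCompletion K)
      (AlgebraicClosure (i.v.adicCompletion K))).injective (hcv.trans hy.symm)
    rw [e]
    exact hy1
  obtain ⟨wg, hwg, hwg1⟩ := exists_eval (L := i.v.adicCompletion K)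
    ((ι : Kb K →+* AlgebraicClosure (i.v.adicCompletion K)).comp
      (fr.e : AlgebraicClosure K →+* Kb K))
    (algebraMap (i.v.adicCompletion K) (AlgebraicClosure (i.v.adicCompletion K))) g
    (fun n => hle _ (hgZ n)) hcv hcv1 hε1 (hone _ hgcZ hgc)
  have hιe : ∀ x : K, ι (fr.e (algebraMap K (AlgebraicClosure K) x)) =
      algebraMap (i.v.adicCompletion K) (AlgebraicClosure (i.v.adicCompletion K))
        (algebraMap (RatFunc K) (i.v.adicCompletion K) (cc x)) := by
    intro x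
    rw [fr.e.commutes, IsScalarTower.algebraMap_apply K (RatFunc K) (Kb K), ι.commutes,
      IsScalarTower.algebraMap_apply (RatFunc K) (i.v.adicCompletion K)
        (AlgebraicClosure (i.v.adicCompletion K))]
  have hD2 : algebraMap K (AlgebraicClosure K) (2 * (4 * a ^ 3 + 27 * b ^ 2)) ≠ 0 :=
    (_root_.map_ne_zero _).2 (mul_ne_zero two_ne_zero hD)
  have hDL : ‖algebraMap (RatFunc K) (i.v.adicCompletion K)
      (2 * (4 * cc a ^ 3 + 27 * cc b ^ 2))‖ = 1 := by
    apply hone _ hDZ hD2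
    rw [hιe]
    congr 2
    simp only [map_add, map_mul, map_pow, map_ofNat]
  obtain ⟨w, hw⟩ := local_rad A fr hUnr (L := i.v.adicCompletion K) (a := a) (b := b) hD
    (by rw [hcc]; exact ha i.v) (by rw [hcc]; exact hb i.v) hDL hpl' hl
    (Z := (Z : Set (AlgebraicClosure K))) (fun z hz => by
      obtain ⟨y, hy, hy1⟩ := hle z hz
      exact ⟨y, by rw [hiot]; exact hy, hy1⟩) ⟨cv + ε, by rw [hiot]; exact hS⟩ hζZ hζ htor hQZ hβZ
    (u := ε ^ m * wg) (by
      rw [hiot, ← map_pow, hβl, map_mul, map_pow, map_sub, ← hS, ← hcv, map_mul, map_pow, hwg,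
        ← map_sub, add_sub_cancel_left]
      congr 1
      have h1 := Polynomial.hom_eval₂ g (fr.e : AlgebraicClosure K →+* Kb K)
        (ι : Kb K →+* AlgebraicClosure (i.v.adicCompletion K)) fr.S
      rw [hS]
      exact h1)
  have hw' : ‖w‖ ^ l = ‖ε‖ ^ m := by
    rw [hw, norm_mul, norm_pow, hwg1, mul_one]
  have hε0' : 0 < ‖ε‖ := norm_pos_iff.2 hε0
  have hw0 : w ≠ 0 := by
    rintro rfl
    rw [norm_zero, zero_pow hl.ne_zero] at hw'
    exact (pow_pos hε0' m).ne hw'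
  obtain ⟨n, hn⟩ := hεn w hw0
  have hn' : ‖w‖ = ‖ε‖ ^ n := hn
  rw [hn', ← zpow_natCast, ← zpow_mul, ← zpow_natCast] at hw'
  have h2 : n * l = m := zpow_right_injective₀ hε0' hε1.ne hw'
  apply hm
  have h3 : (l : ℤ) ∣ m := ⟨n, by rw [← h2, mul_comm]⟩
  exact_mod_cast h3

end main

end Pool.Agent.Y791.BS
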