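import Mathlib

/-!
# Short Weierstrass form of a cubic polynomial
-/

set_option autoImplicit false
set_option linter.unusedSectionVars false

open Polynomial IsDedekindDomain NumberField

namespace Pool.Agent.Y791.BS

/-- a cubic polynomial without multiple roots in short Weierstrass form -/
lemma exists_short0 {K : Type} [Field K] [CharZero K] (g : K[X]) (hg : g.Separable)
    (hdeg : g.natDegree = 3) :
    ∃ a b p q : K, 4 * a ^ 3 + 27 * b ^ 2 ≠ 0 ∧ p ≠ 0 ∧
      (C p * X + C q) ^ 3 + C a * (C p * X + C q) + C b = C (p ^ 2) * g := by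
  set c3 := g.coeff 3 with h3
  set c2 := g.coeff 2 with h2
  set c1 := g.coeff 1 with h1
  set c0 := g.coeff 0 with h0
  have hc3 : c3 ≠ 0 := by
    intro h
    have h4 : g.leadingCoeff = 0 := by
      rw [leadingCoeff, hdeg]
      exact h
    rw [leadingCoeff_eq_zero] at h4
    rw [h4, natDegree_zero] at hdeg
    omega
  have hg3 : g = C c3 * X ^ 3 + C c2 * X ^ 2 + C c1 * X + C c0 := by
    conv_lhs => rw [g.as_sum_range_C_mul_X_pow, hdeg]
    rw [Finset.sum_range_succ, Finset.sum_range_succ, Finset.sum_range_succ,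
      Finset.sum_range_succ, Finset.sum_range_zero]
    simp only [← h3, ← h2, ← h1, ← h0]
    ring
  have h3' : (3 : K) ≠ 0 := by norm_num
  set a : K := c1 * c3 - c2 ^ 2 / 3 with ha
  set b : K := c0 * c3 ^ 2 - c1 * c2 * c3 / 3 + 2 * c2 ^ 3 / 27 with hb
  have hid : ∀ x : K, (c3 * x + c2 / 3) ^ 3 + a * (c3 * x + c2 / 3) + b = c3 ^ 2 * g.eval x := by
    intro x
    rw [hg3, ha, hb]
    simp only [eval_add, eval_mul, eval_C, eval_pow, eval_X]
    field_simp
    ring
  have hid' : ∀ x : K, 3 * (c3 * x + c2 / 3) ^ 2 + a = c3 * g.derivative.eval x := by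
    intro x
    rw [hg3, ha]
    simp only [derivative_add, derivative_mul, derivative_C, derivative_X_pow, derivative_X,
      eval_add, eval_mul, eval_C, eval_pow, eval_X, zero_mul, zero_add, Nat.cast_ofNat,
      mul_one, add_zero, Nat.add_one_sub_one, eval_ofNat, pow_one, map_ofNat]
    field_simp
    ring
  refine ⟨a, b, c3, c2 / 3, ?_, hc3, ?_⟩
  · intro hD
    obtain ⟨w, hw1, hw2⟩ : ∃ w : K, w ^ 3 + a * w + b = 0 ∧ 3 * w ^ 2 + a = 0 := by
      by_cases ha0 : a = 0
      · have hb0 : b = 0 := by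
          rw [ha0] at hD
          have : b ^ 2 = 0 := by linear_combination (1 / 27 : K) * hD
          exact pow_eq_zero_iff (two_ne_zero) |>.1 this
        exact ⟨0, by rw [ha0, hb0]; ring, by rw [ha0]; ring⟩
      · refine ⟨-3 * b / (2 * a), ?_, ?_⟩
        · field_simp
          linear_combination (-b) * hD
        · field_simp
          linear_combination hD
    have hx : ∃ x : K, c3 * x + c2 / 3 = w := ⟨(w - c2 / 3) / c3, by field_simp; ring⟩
    obtain ⟨x, hx⟩ := hx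
    have e1 := hid x
    have e2 := hid' x
    rw [hx, hw1] at e1
    rw [hx, hw2] at e2
    have e3 : g.eval x = 0 := (mul_eq_zero.1 e1.symm).resolve_left (pow_ne_zero _ hc3)
    have e4 : g.derivative.eval x = 0 := (mul_eq_zero.1 e2.symm).resolve_left hc3
    obtain ⟨u, v, huv⟩ := hg
    have e5 := congrArg (eval x) huv
    rw [eval_add, eval_mul, eval_mul, e3, e4, eval_one] at e5
    simp at e5
  · apply Polynomial.funext
    intro x
    simp only [eval_add, eval_mul, eval_C, eval_pow, eval_X]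
    exact hid x

/-- the same with integral coefficients -/
lemma exists_short {K : Type} [Field K] [NumberField K] (g : K[X]) (hg : g.Separable)
    (hdeg : g.natDegree = 3) :
    ∃ a b p q r : K, 4 * a ^ 3 + 27 * b ^ 2 ≠ 0 ∧ p ≠ 0 ∧ r ≠ 0 ∧ IsIntegral ℤ a ∧
      IsIntegral ℤ b ∧
      (C p * X + C q) ^ 3 + C a * (C p * X + C q) + C b = C (r ^ 2) * g := by
  obtain ⟨a, b, p, q, hD, hp, hid⟩ := exists_short0 g hg hdeg
  have hex : ∀ c : K, ∃ m : ℤ, m ≠ 0 ∧ IsIntegral ℤ ((m : K) * c) := by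
    intro c
    obtain ⟨m, hm, h⟩ := ((IsFractionRing.isAlgebraic_iff ℤ ℚ K).2
      (Algebra.IsAlgebraic.isAlgebraic (R := ℚ) c)).exists_integral_multiple
    exact ⟨m, hm, by rwa [zsmul_eq_mul] at h⟩
  obtain ⟨m1, hm1, h1⟩ := hex a
  obtain ⟨m2, hm2, h2⟩ := hex b
  set u : K := (m1 : K) * m2 with hu
  have hu0 : u ≠ 0 := mul_ne_zero (Int.cast_ne_zero.2 hm1) (Int.cast_ne_zero.2 hm2)
  have hm1i : IsIntegral ℤ (m1 : K) := isIntegral_algebraMap (R := ℤ) (x := m1)
  have hm2i : IsIntegral ℤ (m2 : K) := isIntegral_algebraMap (R := ℤ) (x := m2)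
  have hui : IsIntegral ℤ u := hm1i.mul hm2i
  refine ⟨u ^ 4 * a, u ^ 6 * b, u ^ 2 * p, u ^ 2 * q, u ^ 3 * p, ?_, ?_, ?_, ?_, ?_, ?_⟩
  · have e : 4 * (u ^ 4 * a) ^ 3 + 27 * (u ^ 6 * b) ^ 2 = u ^ 12 * (4 * a ^ 3 + 27 * b ^ 2) := by
      ring
    rw [e]
    exact mul_ne_zero (pow_ne_zero _ hu0) hD
  · exact mul_ne_zero (pow_ne_zero _ hu0) hp
  · exact mul_ne_zero (pow_ne_zero _ hu0) hp
  · have e : u ^ 4 * a = u ^ 3 * m2 * (m1 * a) := by rw [hu]; ring
    rw [e]
    exact ((hui.pow 3).mul hm2i).mul h1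
  · have e : u ^ 6 * b = u ^ 5 * m1 * (m2 * b) := by rw [hu]; ring
    rw [e]
    exact ((hui.pow 5).mul hm1i).mul h2
  · have e : (C (u ^ 2 * p) * X + C (u ^ 2 * q)) ^ 3 + C (u ^ 4 * a) *
        (C (u ^ 2 * p) * X + C (u ^ 2 * q)) + C (u ^ 6 * b) =
        C (u ^ 6) * ((C p * X + C q) ^ 3 + C a * (C p * X + C q) + C b) := by
      simp only [C_mul, C_pow]
      ring
    rw [e, hid]
    simp only [C_mul, C_pow]
    ring

end Pool.Agent.Y791.BS
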