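import Pool.Agent.Y791.BS.Set

/-!
# Embeddings of the algebraic closure of `K(T)` in local algebraic closures
-/

set_option autoImplicit false
set_option linter.unusedSectionVars false

open Polynomial IsDedekindDomain NumberField Topology WithZero

namespace Pool.Agent.Y791.BS

open Pool.Agent.TH954

section hom

variable {K : Type} [Field K]

/-- extension of homomorphisms -/
lemma Frame.exists_hom (fr : Frame K) {C : Type} [Field C] [IsAlgClosed C] (φ : RatFunc K →+* C)
    (ι₀ : AlgebraicClosure K →+* C)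
    (h0 : ∀ c : K, ι₀ (algebraMap K _ c) = φ (algebraMap K _ c)) (σ : C)
    (hσ : σ ^ 2 = φ RatFunc.X) :
    ∃ ι : Kb K →+* C, (∀ r, ι (algebraMap (RatFunc K) (Kb K) r) = φ r) ∧
      (∀ z, ι (fr.e z) = ι₀ z) ∧ ι fr.S = σ := by
  -- the homomorphism on the rational functions of `S`
  have hinj : Function.Injective (Polynomial.eval₂RingHom ι₀ σ) := by
    let : Algebra (AlgebraicClosure K) C := ι₀.toAlgebra
    let : Algebra (RatFunc K) C := φ.toAlgebra
    let : Algebra K C := (φ.comp (algebraMap K (RatFunc K))).toAlgebra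
    have t1 : IsScalarTower K (AlgebraicClosure K) C :=
      IsScalarTower.of_algebraMap_eq (fun c => (h0 c).symm)
    have t2 : IsScalarTower K (RatFunc K) C := IsScalarTower.of_algebraMap_eq (fun c => rfl)
    have h1 : Transcendental K (RatFunc.X : RatFunc K) := RatFunc.transcendental_X
    have h2 : Transcendental K σ := by
      intro h
      apply h1
      have h3 : IsAlgebraic K (algebraMap (RatFunc K) C RatFunc.X) := by
        change IsAlgebraic K (φ RatFunc.X)
        rw [← hσ]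
        exact h.pow 2
      exact (isAlgebraic_algebraMap_iff (algebraMap (RatFunc K) C).injective).1 h3
    have h4 : Transcendental (AlgebraicClosure K) σ := by
      intro h
      exact h2 (h.restrictScalars K)
    exact transcendental_iff_injective.1 h4
  let β : RatFunc (AlgebraicClosure K) →+* C :=
    RatFunc.liftRingHom (Polynomial.eval₂RingHom ι₀ σ)
      (nonZeroDivisors_le_comap_nonZeroDivisors_of_injective _ hinj)
  have β_poly : ∀ f : (AlgebraicClosure K)[X],
      β (algebraMap _ (RatFunc (AlgebraicClosure K)) f) = eval₂ ι₀ σ f := by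
    intro f
    change RatFunc.liftRingHom _ _ _ = _
    rw [RatFunc.liftRingHom_algebraMap]
    rfl
  have β_C : ∀ z : AlgebraicClosure K, β (algebraMap _ (RatFunc (AlgebraicClosure K)) z) = ι₀ z := by
    intro z
    have h := β_poly (Polynomial.C z)
    rw [eval₂_C] at h
    rw [RatFunc.algebraMap_eq_C, ← RatFunc.algebraMap_C]
    exact h
  have β_X : β RatFunc.X = σ := by
    have h := β_poly X
    rw [eval₂_X] at h
    rw [← RatFunc.algebraMap_X]
    exact h
  obtain ⟨κ, κ1, κ2⟩ := Frame.exists_κ (K := K)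
  have hακ : fr.α.comp κ = algebraMap (RatFunc K) (Kb K) := by
    apply ratFunc_hom_ext
    · intro c
      rw [RingHom.comp_apply, κ1, fr.α_C, fr.e.commutes]
      exact IsScalarTower.algebraMap_apply K (RatFunc K) (Kb K) c
    · rw [RingHom.comp_apply, κ2, map_pow, fr.α_X, fr.sq]
  have hβκ : β.comp κ = φ := by
    apply ratFunc_hom_ext
    · intro c
      rw [RingHom.comp_apply, κ1, β_C, h0]
    · rw [RingHom.comp_apply, κ2, map_pow, β_X, hσ]
  let : Algebra (RatFunc (AlgebraicClosure K)) (Kb K) := fr.α.toAlgebra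
  let : Algebra (RatFunc (AlgebraicClosure K)) C := β.toAlgebra
  let : Algebra (RatFunc K) (RatFunc (AlgebraicClosure K)) := κ.toAlgebra
  have t3 : IsScalarTower (RatFunc K) (RatFunc (AlgebraicClosure K)) (Kb K) :=
    IsScalarTower.of_algebraMap_eq' hακ.symm
  have halg : Algebra.IsAlgebraic (RatFunc (AlgebraicClosure K)) (Kb K) :=
    Algebra.IsAlgebraic.tower_top (K := RatFunc K) (RatFunc (AlgebraicClosure K))
  let ι : Kb K →ₐ[RatFunc (AlgebraicClosure K)] C := IsAlgClosed.lift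
  have hι : ∀ r, ι (fr.α r) = β r := fun r => ι.commutes r
  refine ⟨ι, fun r => ?_, fun z => ?_, ?_⟩
  · have h1 : algebraMap (RatFunc K) (Kb K) r = fr.α (κ r) := by
      rw [← hακ]
      rfl
    rw [h1]
    change ι (fr.α (κ r)) = _
    rw [hι, ← hβκ]
    rfl
  · have h1 := hι (algebraMap _ _ z)
    rw [fr.α_C, β_C] at h1
    exact h1
  · have h1 := hι RatFunc.X
    rw [fr.α_X, β_X] at h1
    exact h1

/-- an automorphism over the constants with changes the sign of `S` -/
lemma Frame.exists_γ (fr : Frame K) : ∃ γ : Kb K ≃ₐ[RatFunc K] Kb K,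
    (∀ z, γ (fr.e z) = fr.e z) ∧ γ fr.S = -fr.S := by
  obtain ⟨ι, h1, h2, h3⟩ := fr.exists_hom (algebraMap (RatFunc K) (Kb K))
    (fr.e : AlgebraicClosure K →+* Kb K) (fun c => by
      change fr.e (algebraMap K _ c) = _
      rw [fr.e.commutes]
      exact IsScalarTower.algebraMap_apply K (RatFunc K) (Kb K) c) (-fr.S) (by
      rw [neg_sq, fr.sq])
  let γ : Kb K →ₐ[RatFunc K] Kb K := { ι with commutes' := h1 }
  refine ⟨AlgEquiv.ofBijective γ (Algebra.IsAlgebraic.algHom_bijective γ), fun z => ?_, ?_⟩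
  · exact h2 z
  · exact h3

end hom

section num

variable {K : Type} [Field K] [NumberField K]

/-- an element of smallest value less than one -/
lemma exists_unif (v : HeightOneSpectrum (𝓞 K)) : ∃ π : K, π ≠ 0 ∧
    ‖algebraMap K (v.adicCompletion K) π‖ < 1 ∧
    ∀ w : v.adicCompletion K, w ≠ 0 → ∃ n : ℤ,
      ‖w‖ = ‖algebraMap K (v.adicCompletion K) π‖ ^ n := by
  obtain ⟨π, hπ⟩ := v.valuation_exists_uniformizer K
  have hπ0 : π ≠ 0 := by
    rintro rfl
    rw [map_zero] at hπ
    exact WithZero.coe_ne_zero hπ.symm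
  have hv : Valued.v (algebraMap K (v.adicCompletion K) π) = WithZero.exp (-1 : ℤ) := by
    rw [← hπ]
    exact v.valuedAdicCompletion_eq_valuation' π
  have hN : ∀ w : v.adicCompletion K, w ≠ 0 → ∃ n : ℤ,
      ‖w‖ = ‖algebraMap K (v.adicCompletion K) π‖ ^ n := by
    intro w hw
    have h1 : (Valued.v w : ℤᵐ⁰) ≠ 0 := (Valuation.ne_zero_iff _).2 hw
    refine ⟨-WithZero.log (Valued.v w : ℤᵐ⁰), ?_⟩
    have h2 : (WithZero.exp (-1 : ℤ) : ℤᵐ⁰) ^ (-WithZero.log (Valued.v w : ℤᵐ⁰)) = Valued.v w := by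
      rw [← WithZero.exp_zsmul]
      have h3 : -WithZero.log (Valued.v w : ℤᵐ⁰) • (-1 : ℤ) = WithZero.log (Valued.v w : ℤᵐ⁰) := by
        rw [smul_eq_mul]
        ring
      rw [h3, WithZero.exp_log h1]
    rw [FinitePlace.norm_def, FinitePlace.norm_def, hv, ← NNReal.coe_zpow, ← map_zpow₀, h2]
  refine ⟨π, hπ0, ?_, hN⟩
  rw [FinitePlace.norm_def, hv]
  have h1 := WithZeroMulInt.toNNReal_strictMono (HeightOneSpectrum.one_lt_absNorm_nnreal v)
    (show (WithZero.exp (-1 : ℤ) : ℤᵐ⁰) < 1 by decide)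
  rw [map_one] at h1
  exact_mod_cast h1

/-- extension of embeddings -/
lemma Frame.exists_ι (fr : Frame K) (i : Pl K)
    (ι₀ : AlgebraicClosure K →ₐ[K] AlgebraicClosure (i.v.adicCompletion K))
    (σ : i.v.adicCompletion K) (hσ : σ ^ 2 = i.φ RatFunc.X) :
    ∃ ι : Kb K →ₐ[RatFunc K] AlgebraicClosure (i.v.adicCompletion K),
      (∀ z, ι (fr.e z) = ι₀ z) ∧
      ι fr.S = algebraMap (i.v.adicCompletion K) (AlgebraicClosure (i.v.adicCompletion K)) σ := by
  have hcomm : ∀ r : RatFunc K,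
      algebraMap (RatFunc K) (AlgebraicClosure (i.v.adicCompletion K)) r =
      algebraMap (i.v.adicCompletion K) (AlgebraicClosure (i.v.adicCompletion K)) (i.φ r) :=
    fun r => IsScalarTower.algebraMap_apply (RatFunc K) (i.v.adicCompletion K) _ r
  obtain ⟨ι, h1, h2, h3⟩ := fr.exists_hom
    (algebraMap (RatFunc K) (AlgebraicClosure (i.v.adicCompletion K)))
    (ι₀ : AlgebraicClosure K →+* AlgebraicClosure (i.v.adicCompletion K)) (fun c => by
      rw [hcomm, i.φ.commutes]
      exact ι₀.commutes c) (algebraMap _ _ σ) (by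
      rw [hcomm, ← hσ, map_pow])
  exact ⟨{ ι with commutes' := h1 }, h2, h3⟩

/-- finitely many constants, one of which is near `S`, in a completion -/
theorem Frame.exists_good (hEmb : S_Emb) (fr : Frame K) (Z : Finset (AlgebraicClosure K))
    (c : AlgebraicClosure K) (hc : c ∈ Z) :
    ∃ (i : Pl K) (ι : Kb K →ₐ[RatFunc K] AlgebraicClosure (i.v.adicCompletion K))
      (cv ε : i.v.adicCompletion K),
      (∀ z ∈ Z, ∃ y : i.v.adicCompletion K,
        algebraMap (i.v.adicCompletion K) (AlgebraicClosure (i.v.adicCompletion K)) y =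
          ι (fr.e z) ∧ (z ≠ 0 → ‖y‖ = 1)) ∧
      algebraMap (i.v.adicCompletion K) (AlgebraicClosure (i.v.adicCompletion K)) cv =
        ι (fr.e c) ∧
      algebraMap (i.v.adicCompletion K) (AlgebraicClosure (i.v.adicCompletion K)) (cv + ε) =
        ι fr.S ∧
      ε ≠ 0 ∧ ‖ε‖ < 1 ∧ ∀ w : i.v.adicCompletion K, w ≠ 0 → ∃ n : ℤ, ‖w‖ = ‖ε‖ ^ n := by
  obtain ⟨v, ι₀, hv⟩ := hEmb K Z
  have hu := ultra v
  obtain ⟨cv, hcv, -⟩ := hv c hc
  obtain ⟨π, hπ0, hπ1, hπ⟩ := exists_unif v
  have hπ0' : algebraMap K (v.adicCompletion K) π ≠ 0 := (_root_.map_ne_zero _).2 hπ0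
  obtain ⟨y, hy, hyn⟩ := exists_transcendental v (norm_pos_iff.2 hπ0')
  set ε : v.adicCompletion K := algebraMap K (v.adicCompletion K) π + y with hε
  have hεn : ‖ε‖ = ‖algebraMap K (v.adicCompletion K) π‖ := by
    rw [hε, IsUltrametricDist.norm_add_eq_max_of_norm_ne_norm hyn.ne']
    exact max_eq_left hyn.le
  have hε0 : ε ≠ 0 := by
    rw [← norm_ne_zero_iff, hεn, norm_ne_zero_iff]
    exact hπ0'
  have hcalg : IsAlgebraic K cv := by
    have h1 : IsAlgebraic K (ι₀ c) := (Algebra.IsAlgebraic.isAlgebraic (R := K) c).algHom ι₀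
    rw [← hcv] at h1
    exact (isAlgebraic_algebraMap_iff
      (algebraMap (v.adicCompletion K) (AlgebraicClosure (v.adicCompletion K))).injective).1 h1
  have hσ : Transcendental K (cv + ε) := by
    intro h
    apply hy
    have h1 : y = (cv + ε) - (cv + algebraMap K (v.adicCompletion K) π) := by
      rw [hε]
      ring
    rw [h1]
    exact h.sub (hcalg.add (isAlgebraic_algebraMap π))
  have hτ : Transcendental K ((cv + ε) ^ 2) := hσ.pow (by norm_num)
  have hX : (cv + ε) ^ 2 = emb hτ RatFunc.X := by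
    rw [← RatFunc.algebraMap_X, emb_algebraMap, aeval_X]
  obtain ⟨ι, h1, h2⟩ := fr.exists_ι ⟨v, emb hτ⟩ ι₀ (cv + ε) hX
  refine ⟨⟨v, emb hτ⟩, ι, cv, ε, ?_, ?_, h2.symm, hε0, ?_, ?_⟩
  · intro z hz
    obtain ⟨y, hy1, hy2⟩ := hv z hz
    exact ⟨y, hy1.trans (h1 z).symm, hy2⟩
  · exact hcv.trans (h1 c).symm
  · exact hεn.trans_lt hπ1
  · intro w hw
    obtain ⟨n, hn⟩ := hπ w hw
    exact ⟨n, by rw [hn]; exact congrArg (· ^ n) hεn.symm⟩

end num

end Pool.Agent.Y791.BS
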