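import Pool.Agent.Y791.BS.GFin
import Pool.Agent.TH954.SBir

/-!
# Sections with a common zero at all local places are geometric
-/

set_option autoImplicit false
set_option linter.unusedSectionVars false

namespace Pool.Agent.Y791.BS

open Pool.Agent.TH954

variable {K : Type} [Field K] [CharZero K]
variable {I : Type} {L : I → Type} [∀ i, Field (L i)] [∀ i, Algebra K (L i)] [∀ i, CharZero (L i)]
variable {F Ω B : Type} [Field F] [Field Ω] [Field B]
  [Algebra K F] [Algebra F Ω] [Algebra K Ω] [Algebra K B] [IsScalarTower K F Ω]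
  [IsAlgClosure F Ω] [IsAlgClosure K B]

/-- If a nonzero function vanishes at all the local places of a section, the section is geometric. -/
theorem geometric_of_zero (hobs : Obs K L) {N : ℕ} (hN0 : 0 < N) (hroot : ∀ c : K, c ^ N ≠ 2)
    (hF : ∃ t : F, Transcendental K t ∧
      Algebra.IsAlgebraic (IntermediateField.adjoin K {t}) F)
    (s : GalSection K F Ω B)
    (pl : ∀ v : I, Plc K Ω (AlgebraicClosure (L v)))
    (hpl : ∀ v, GeoPlc (toSAct s) (pl v))
    (t : F) (ht0 : t ≠ 0) (htv : ∀ v, (pl v).val (algebraMap F Ω t) 0) :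
    ∃ O : ValuationSubring F, s.ArisesFrom O ∧ t⁻¹ ∉ O ∧ ∀ O', s.ArisesFrom O' → O' = O := by
  have hΩ1 : IsAlgClosed Ω := IsAlgClosure.isAlgClosed F
  have hΩ2 : Algebra.IsAlgebraic F Ω := IsAlgClosure.isAlgebraic
  have hcF : CharZero F := charZero_of_injective_algebraMap (algebraMap K F).injective
  have hcΩ : CharZero Ω :=
    charZero_of_injective_algebraMap (algebraMap F Ω).injective
  set A := toSAct s with hA
  have hAF : ∀ (τ : AlgebraicClosure K ≃ₐ[K] AlgebraicClosure K) (x : F),
      A.s τ (algebraMap F Ω x) = algebraMap F Ω x :=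
    fun τ x => (s.s ((eqv K B).autCongr τ)).commutes x
  have ht00 : algebraMap F Ω t ≠ 0 := (map_ne_zero _).2 ht0
  have hfinV : ∀ x, FinVal A pl x := by
    refine finVal_of_alg A pl (t := algebraMap F Ω t) ht00 htv (fun x hx => ?_)
    exact (alg_adjoin_of_dim hF x hx).isAlgebraic _
  obtain ⟨U, hU⟩ := exists_ultra (A := A) (pl := pl) hobs hpl
  have hfixF : ∀ x : F, algebraMap F Ω x ∈ A.fix := fun x τ => hAF τ x
  have hst : ∀ (g : B ≃ₐ[K] B) (x : Ω), x ∈ limW pl U → s.s g x ∈ limW pl U := by
    intro g x hx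
    rw [← toSAct_s s]
    exact limW_stable hU hfinV _ hx
  have htn : t⁻¹ ∉ (limW pl U).comap (algebraMap F Ω) := by
    intro h3
    obtain ⟨v, hv⟩ := (mem_limW.1 (ValuationSubring.mem_comap.1 h3)).exists
    rw [map_inv₀] at hv
    exact Plc.notMem_of_val_inv (pl := pl v) (inv_ne_zero ht00) (by rw [inv_inv]; exact htv v) hv
  have hres : ∀ a ∈ (limW pl U).comap (algebraMap F Ω), ∃ c : K,
      ((limW pl U).comap (algebraMap F Ω)).valuation (a - algebraMap K F c) < 1 := by
    intro a ha
    obtain ⟨c, hc⟩ := exists_value hU (hfixF a) (hfinV _) ha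
    refine ⟨c, (ValuationSubring.mem_nonunits_iff_or _).2 ?_⟩
    by_cases h0 : a - algebraMap K F c = 0
    · exact Or.inl h0
    · right
      intro h3
      have h4 := mem_limW.1 (ValuationSubring.mem_comap.1 h3)
      obtain ⟨v, hv1, hv2⟩ := (hc.and h4).exists
      have h5 : (pl v).val (algebraMap F Ω (a - algebraMap K F c)) 0 := by
        have := hv1.sub (Plc.val_alg (pl := pl v) c)
        rw [sub_self] at this
        rw [map_sub, ← IsScalarTower.algebraMap_apply]
        exact this
      rw [map_inv₀] at hv2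
      refine Plc.notMem_of_val_inv (pl := pl v)
        (x := (algebraMap F Ω (a - algebraMap K F c))⁻¹)
        (inv_ne_zero ((map_ne_zero _).2 h0)) ?_ hv2
      rw [inv_inv]
      exact h5
  have hcon : ∀ c : K, algebraMap K F c ∈ (limW pl U).comap (algebraMap F Ω) := by
    intro c
    rw [ValuationSubring.mem_comap, ← IsScalarTower.algebraMap_apply]
    exact alg_mem_limW c
  refine ⟨(limW pl U).comap (algebraMap F Ω), ⟨?_, hcon, hres, limW pl U, rfl,
    fun g x => ⟨fun h => ?_, hst g x⟩⟩, htn, ?_⟩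
  · intro htop
    apply htn
    rw [htop]
    exact ValuationSubring.mem_top _
  · have h3 := hst g⁻¹ _ h
    have h4 : s.s g⁻¹ (s.s g x) = x := by
      change (s.s g⁻¹ * s.s g) x = x
      rw [← map_mul, inv_mul_cancel, map_one]
      rfl
    rwa [h4] at h3
  · rintro O ⟨-, hO2, hO3, W, hW, hO4⟩
    exact unique_ring hN0 hroot A hfixF O _ hO2 hcon hO3 hres W (limW pl U) hW rfl
      (fun τ x hx => (hO4 _ x).2 hx) (fun τ x hx => limW_stable hU hfinV τ hx)

end Pool.Agent.Y791.BS
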