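import Pool.Agent.Y791.BS.Par2
import Pool.Agent.Y791.BS.GBir

/-!
# The values of the point at all places are of order two
-/

set_option autoImplicit false
set_option linter.unusedSectionVars false

open Polynomial WeierstrassCurve IsDedekindDomain NumberField

namespace Pool.Agent.Y791.BS

open Pool.Agent.TH942 Pool.Agent.TH954

section main

variable {K : Type} [Field K] [NumberField K] {M : Type} [Field M] [CharZero M] [IsAlgClosed M]
  [Algebra (RatFunc K) M] (A : SAct (RatFunc K) M) (fr : Frame K) {a b : K}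

open scoped Classical in
/-- all division points are defined over the rational functions of `S` -/
theorem all_div (hEmb : S_Emb) (hUnr : S_Unr) (hD : 4 * a ^ 3 + 27 * b ^ 2 ≠ 0)
    (ha : ∀ v : HeightOneSpectrum (𝓞 K), ‖algebraMap K (v.adicCompletion K) a‖ ≤ 1)
    (hb : ∀ v : HeightOneSpectrum (𝓞 K), ‖algebraMap K (v.adicCompletion K) b‖ ≤ 1)
    (pl : ∀ i : Pl K, Plc (RatFunc K) M (AlgebraicClosure (i.v.adicCompletion K)))
    (hpl : ∀ i, GeoPlc A (pl i)) {P : PM M a b}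
    (hP : ∀ τ : Kb K ≃ₐ[RatFunc K] Kb K, τ fr.S = fr.S → A.pt (cc a) (cc b) τ P = P) :
    ∀ (n : ℕ), 1 ≤ n → ∀ Q : PM M a b, n • Q = P →
      ∀ h ∈ fr.HZ Set.univ, A.pt (cc a) (cc b) h Q = Q := by
  intro n
  induction n using Nat.strong_induction_on with
  | _ n ih =>
    intro hn Q hQ
    by_cases h1 : n = 1
    · subst h1
      rw [one_smul] at hQ
      rw [hQ]
      exact fun h hh => hP h hh.2
    · have hl := Nat.minFac_prime h1
      obtain ⟨m, hm⟩ := Nat.minFac_dvd n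
      have hm1 : 1 ≤ m := by
        rcases Nat.eq_zero_or_pos m with h | h
        · rw [h, mul_zero] at hm
          omega
        · exact h
      have hmn : m < n := by
        have := hl.two_le
        nlinarith
      have hQ' := ih m hmn hm1 (n.minFac • Q) (by
        rw [← mul_smul, mul_comm, ← hm, hQ])
      exact fixed_div A fr hEmb hUnr hD ha hb pl hpl hl rfl hQ'

open scoped Classical in
/-- twice the point is divisible by points defined over the field of `S` -/
theorem exists_div (hEmb : S_Emb) (hUnr : S_Unr) (hD : 4 * a ^ 3 + 27 * b ^ 2 ≠ 0)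
    (ha : ∀ v : HeightOneSpectrum (𝓞 K), ‖algebraMap K (v.adicCompletion K) a‖ ≤ 1)
    (hb : ∀ v : HeightOneSpectrum (𝓞 K), ‖algebraMap K (v.adicCompletion K) b‖ ≤ 1)
    (pl : ∀ i : Pl K, Plc (RatFunc K) M (AlgebraicClosure (i.v.adicCompletion K)))
    (hpl : ∀ i, GeoPlc A (pl i)) {P : PM M a b}
    (hP : ∀ τ : Kb K ≃ₐ[RatFunc K] Kb K, τ fr.S = fr.S → A.pt (cc a) (cc b) τ P = P)
    (hP' : ∀ τ : Kb K ≃ₐ[RatFunc K] Kb K, τ fr.S = -fr.S → A.pt (cc a) (cc b) τ P = -P)
    (n : ℕ) (hn : 1 ≤ n) :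
    ∃ R : PM M a b, n • R = 2 • P ∧
      ∀ τ : Kb K ≃ₐ[RatFunc K] Kb K, τ fr.S = fr.S → A.pt (cc a) (cc b) τ R = R := by
  have hch : CharZero (RatFunc K) :=
    charZero_of_injective_algebraMap (algebraMap K (RatFunc K)).injective
  obtain ⟨Q, hQ⟩ := exists_nsmul_base (cc_disc hD) M hn P
  have hall := all_div A fr hEmb hUnr hD ha hb pl hpl hP n hn Q hQ
  obtain ⟨γ, hγ1, hγ2⟩ := fr.exists_γ
  obtain ⟨Z, hZ⟩ := exists_tor_set A fr (M := M) hD hn
  -- `γ` fixes the torsion points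
  have hγt : ∀ t : PM M a b, n • t = 0 → A.pt (cc a) (cc b) γ t = t := by
    intro t ht
    rcases t with _ | ⟨x, y, h⟩
    · exact map_zero _
    · obtain ⟨z, hz, w, hw, rfl, rfl⟩ := hZ x y h ht
      obtain ⟨h', e⟩ := pm_some (E := sw (cc a) (cc b))
        ((A.s γ : M ≃ₐ[RatFunc K] M) : M →ₐ[RatFunc K] M) h
      unfold SAct.pt
      rw [e, Affine.Point.some.injEq]
      constructor
      · change A.s γ (A.j (fr.e z)) = _
        rw [A.hj, hγ1]
      · change A.s γ (A.j (fr.e w)) = _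
        rw [A.hj, hγ1]
  refine ⟨Q - A.pt (cc a) (cc b) γ Q, ?_, fun τ hτ => ?_⟩
  · rw [smul_sub, hQ, ← map_nsmul, hQ, hP' γ hγ2, sub_neg_eq_add, two_smul]
  · set t : PM M a b := A.pt (cc a) (cc b) τ Q - Q with ht
    have ht0 : n • t = 0 := by
      rw [ht, smul_sub, ← map_nsmul, hQ, hP τ hτ, sub_self]
    have e1 : A.pt (cc a) (cc b) τ Q = Q + t := (add_sub_cancel Q _).symm
    have hH : γ⁻¹ * (τ⁻¹ * (γ * τ)) ∈ fr.HZ Set.univ := by
      refine ⟨fun z _ => ?_, ?_⟩
      · change γ.symm (τ.symm (γ (τ (fr.e z)))) = fr.e z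
        obtain ⟨z', hz'⟩ : ∃ z', fr.e z' = τ (fr.e z) := by
          apply alg_range fr.e
          have h1 : IsAlgebraic K (fr.e z) :=
            (Algebra.IsAlgebraic.isAlgebraic (R := K) z).algHom fr.e
          exact h1.algHom ((τ : Kb K →ₐ[RatFunc K] Kb K).restrictScalars K)
        rw [← hz', hγ1, hz', τ.symm_apply_apply, AlgEquiv.symm_apply_eq, hγ1]
      · change γ.symm (τ.symm (γ (τ fr.S))) = fr.S
        rw [hτ, hγ2]
        rw [AlgEquiv.symm_apply_eq, hγ2, AlgEquiv.symm_apply_eq, map_neg, hτ]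
    have e2 : A.pt (cc a) (cc b) τ (A.pt (cc a) (cc b) γ Q) = A.pt (cc a) (cc b) γ Q + t := by
      have e3 : γ * τ = τ * γ * (γ⁻¹ * (τ⁻¹ * (γ * τ))) := by group
      have e4 : A.pt (cc a) (cc b) (γ * τ) Q = A.pt (cc a) (cc b) γ Q + t := by
        rw [A.pt_mul, e1, map_add, hγt t ht0]
      rw [← e4, e3, A.pt_mul, hall _ hH, A.pt_mul]
    rw [map_sub, e1, e2]
    abel

open scoped Classical in
/-- the values of the point are of order two -/
theorem two_red (hEmb : S_Emb) (hUnr : S_Unr) (hInter : S_Inter)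
    (hD : 4 * a ^ 3 + 27 * b ^ 2 ≠ 0)
    (ha : ∀ v : HeightOneSpectrum (𝓞 K), ‖algebraMap K (v.adicCompletion K) a‖ ≤ 1)
    (hb : ∀ v : HeightOneSpectrum (𝓞 K), ‖algebraMap K (v.adicCompletion K) b‖ ≤ 1)
    (pl : ∀ i : Pl K, Plc (RatFunc K) M (AlgebraicClosure (i.v.adicCompletion K)))
    (hpl : ∀ i, GeoPlc A (pl i)) {x y : M}
    (h : ((sw (cc a) (cc b)).baseChange M).toAffine.Nonsingular x y)
    (hP : ∀ τ : Kb K ≃ₐ[RatFunc K] Kb K, τ fr.S = fr.S →
      A.pt (cc a) (cc b) τ (.some x y h) = .some x y h)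
    (hP' : ∀ τ : Kb K ≃ₐ[RatFunc K] Kb K, τ fr.S = -fr.S →
      A.pt (cc a) (cc b) τ (.some x y h) = -.some x y h) (i : Pl K)
    (hx : x ∈ (pl i).W) : (pl i).val y 0 := by
  have hch : CharZero (RatFunc K) :=
    charZero_of_injective_algebraMap (algebraMap K (RatFunc K)).injective
  let inst1 : NontriviallyNormedField (i.v.adicCompletion K) := nnf i.v
  have inst2 : IsUltrametricDist (i.v.adicCompletion K) := ultra i.v
  have inst3 : ProperSpace (i.v.adicCompletion K) := proper i.v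
  have inst4 : CharZero (i.v.adicCompletion K) := charZero_compl i.v
  have hcc : ∀ x : K, algebraMap (RatFunc K) (i.v.adicCompletion K) (cc x) =
      algebraMap K (i.v.adicCompletion K) x := fun x => i.φ.commutes x
  have hchC : CharZero (AlgebraicClosure (i.v.adicCompletion K)) :=
    charZero_of_injective_algebraMap (algebraMap (i.v.adicCompletion K) _).injective
  obtain ⟨red, h1, h2⟩ := exists_redM (pl i) (cc_disc hD)
  have h3 : red (2 • (.some x y h : PM M a b)) = 0 := by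
    apply hInter (i.v.adicCompletion K) (RatFunc K) (cc a) (cc b) (by rw [hcc]; exact ha i.v)
      (by rw [hcc]; exact hb i.v) (cc_disc hD) ((pl i).iot A.j fr.S)
    intro n hn
    obtain ⟨R, hR, hRτ⟩ := exists_div A fr hEmb hUnr hD ha hb pl hpl hP hP' n hn
    refine ⟨red R, by rw [← map_nsmul, hR], fun σ hσ => ?_⟩
    obtain ⟨τ, hτ⟩ := exists_compat ((pl i).iot A.j) σ
    have hτS : τ fr.S = fr.S := by
      apply ((pl i).iot A.j).injective
      change (pl i).iot A.j (τ fr.S) = (pl i).iot A.j fr.S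
      rw [hτ, hσ]
    rw [← red_pt A (hpl i) h1 h2 hτ, hRτ τ hτS]
  obtain ⟨hy, h', e⟩ := h2 x y h hx
  rw [map_nsmul, e, two_smul, add_eq_zero_iff_eq_neg, Affine.Point.neg_some,
    Affine.Point.some.injEq] at h3
  refine ⟨hy, ?_⟩
  have h4 := h3.2
  have h5 : ((sw (cc a) (cc b)).baseChange (AlgebraicClosure (i.v.adicCompletion K))).toAffine.negY
      ((pl i).ρ ⟨x, hx⟩) ((pl i).ρ ⟨y, hy⟩) = -(pl i).ρ ⟨y, hy⟩ := by
    have e1 : ((sw (cc a) (cc b)).baseChange (AlgebraicClosure (i.v.adicCompletion K))).a₁ = 0 :=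
      map_zero _
    have e3 : ((sw (cc a) (cc b)).baseChange (AlgebraicClosure (i.v.adicCompletion K))).a₃ = 0 :=
      map_zero _
    rw [Affine.negY, e1, e3]
    ring
  rw [h5] at h4
  have h6 : 2 * (pl i).ρ ⟨y, hy⟩ = 0 := by
    rw [two_mul]
    nth_rewrite 1 [h4]
    ring
  exact (mul_eq_zero.1 h6).resolve_left two_ne_zero

end main

end Pool.Agent.Y791.BS
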