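import Pool.Agent.Y791.BS.GUlt

/-!
# Finitely many values, and uniqueness
-/

set_option autoImplicit false
set_option linter.unusedSectionVars false

namespace Pool.Agent.Y791.BS

open Pool.Agent.TH954
open scoped IntermediateField.algebraAdjoinAdjoin

section

variable {K : Type} [Field K] [CharZero K]
variable {I : Type} {L : I → Type} [∀ i, Field (L i)] [∀ i, Algebra K (L i)]
variable {M : Type} [Field M] [Algebra K M] (A : SAct K M)
  (pl : ∀ v : I, Plc K M (AlgebraicClosure (L v)))

theorem finVal_of_alg {t : M} (ht0 : t ≠ 0) (htv : ∀ v, (pl v).val t 0)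
    (hdim : ∀ x : M, Transcendental K x → IsAlgebraic (Algebra.adjoin K {x}) t) (x : M) :
    FinVal A pl x := by
  classical
  by_cases hx : IsAlgebraic K x
  · obtain ⟨z, hz⟩ := alg_range A.j hx
    refine ⟨{z}, fun v _ => ⟨z, Finset.mem_singleton_self _, ?_⟩⟩
    rw [← hz]
    exact Plc.val_j A.j z
  · obtain ⟨u, hu, r, hr0, hur⟩ := (hdim x hx).exists_nonzero_eq_adjoin_mul
      (mem_nonZeroDivisors_of_ne_zero ht0)
    obtain ⟨g, hg⟩ : ∃ g : Polynomial K, Polynomial.aeval x g = (r : M) :=
      exists_aeval_of_mem r.2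
    have hg0 : g ≠ 0 := by
      rintro rfl
      rw [map_zero] at hg
      exact hr0 (Subtype.ext hg.symm)
    refine ⟨(g.aroots (AlgebraicClosure K)).toFinset, fun v hv => ?_⟩
    obtain ⟨c, hc⟩ := Plc.val_of_mem hv
    -- the adjoined elements are in the valuation ring
    have h1 : ∀ y ∈ Algebra.adjoin K {x}, y ∈ (pl v).W := by
      intro y hy
      obtain ⟨q, rfl⟩ := exists_aeval_of_mem hy
      exact (Plc.val_aeval hc q).mem
    have h2 : u ∈ (pl v).W := by
      obtain ⟨q, rfl⟩ := exists_aeval_of_mem hu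
      rw [Polynomial.aeval_eq_sum_range]
      refine sum_mem (fun i _ => ?_)
      rw [Algebra.smul_def]
      exact mul_mem (h1 _ (q.coeff i).2) (pow_mem (htv v).mem i)
    obtain ⟨d, hd⟩ := Plc.val_of_mem h2
    have h3 := (htv v).mul hd
    rw [hur, zero_mul] at h3
    have h4 : (pl v).val (r : M) 0 := h3
    rw [← hg] at h4
    have h5 := (Plc.val_aeval hc g).unique h4
    have hs : (g.map (algebraMap K (AlgebraicClosure K))).Splits := IsAlgClosed.splits _
    have h0 : g.map (algebraMap K (AlgebraicClosure K)) ≠ 0 :=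
      (Polynomial.map_ne_zero_iff (algebraMap K (AlgebraicClosure K)).injective).2 hg0
    obtain ⟨β, hβ⟩ := hs.mem_range_of_isRoot
      (i := ((pl v).iot A.j : AlgebraicClosure K →+* AlgebraicClosure (L v)))
      (x := c) h0 (by
        rw [Polynomial.IsRoot.def, Polynomial.eval_map, Polynomial.eval₂_map]
        have e1 : ((pl v).iot A.j : AlgebraicClosure K →+*
            AlgebraicClosure (L v)).comp (algebraMap K (AlgebraicClosure K)) =
            algebraMap K (AlgebraicClosure (L v)) :=
          ((pl v).iot A.j).comp_algebraMap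
        rw [e1]
        exact h5)
    have hβ' : (pl v).iot A.j β = c := hβ
    refine ⟨β, ?_, ?_⟩
    · rw [Multiset.mem_toFinset, Polynomial.mem_aroots]
      refine ⟨hg0, ?_⟩
      have h6 : (pl v).iot A.j (Polynomial.aeval β g) = 0 := by
        rw [← Polynomial.aeval_algHom_apply, hβ']
        exact h5
      exact (map_eq_zero _).1 h6
    · rw [hβ']
      exact hc

end

/-- two valuation rings with the same residue field `K` which are fixed by a section are equal -/
theorem unique_ring {K : Type} [Field K] [CharZero K] {N : ℕ} (hN0 : 0 < N) (hroot : ∀ c : K, c ^ N ≠ 2) {M : Type} [Field M] [Algebra K M]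
    [IsAlgClosed M] (A : SAct K M) {F : Type} [Field F] [Algebra K F] [Algebra F M]
    [IsScalarTower K F M] (hF : ∀ x : F, algebraMap F M x ∈ A.fix)
    (O1 O2 : ValuationSubring F)
    (h1 : ∀ c : K, algebraMap K F c ∈ O1) (h2 : ∀ c : K, algebraMap K F c ∈ O2)
    (h1' : ∀ a ∈ O1, ∃ c : K, O1.valuation (a - algebraMap K F c) < 1)
    (h2' : ∀ a ∈ O2, ∃ c : K, O2.valuation (a - algebraMap K F c) < 1)
    (W1 W2 : ValuationSubring M) (hW1 : W1.comap (algebraMap F M) = O1)
    (hW2 : W2.comap (algebraMap F M) = O2)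
    (hs1 : ∀ τ x, x ∈ W1 → A.s τ x ∈ W1) (hs2 : ∀ τ x, x ∈ W2 → A.s τ x ∈ W2) : O1 = O2 := by
  have hle : ∀ O O' : ValuationSubring F, (∀ c : K, algebraMap K F c ∈ O) →
      (∀ a ∈ O', ∃ c : K, O'.valuation (a - algebraMap K F c) < 1) → O ≤ O' → O' ≤ O := by
    intro O O' hc hr hOO x hx
    obtain ⟨c, hc'⟩ := hr x hx
    have h3 : x - algebraMap K F c ∈ O := by
      rcases (ValuationSubring.mem_nonunits_iff_or _).1 hc' with h | h
      · rw [h]
        exact zero_mem _
      · exact (O.mem_or_inv_mem _).resolve_right (fun h4 => h (hOO h4))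
    have h4 := add_mem h3 (hc c)
    rwa [sub_add_cancel] at h4
  by_contra hne
  have hn1 : ¬ O1 ≤ O2 := fun h => hne (le_antisymm h (hle O1 O2 h1 h2' h))
  have hn2 : ¬ O2 ≤ O1 := fun h => hne (le_antisymm (hle O2 O1 h2 h1' h) h)
  obtain ⟨a, ha1, ha2⟩ := Set.not_subset.1 hn1
  obtain ⟨b, hb2, hb1⟩ := Set.not_subset.1 hn2
  have ha1' : O1.valuation a ≤ 1 := (O1.valuation_le_one_iff a).2 ha1
  have ha2' : 1 < O2.valuation a := not_le.1 (fun h => ha2 ((O2.valuation_le_one_iff a).1 h))
  have hb2' : O2.valuation b ≤ 1 := (O2.valuation_le_one_iff b).2 hb2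
  have hb1' : 1 < O1.valuation b := not_le.1 (fun h => hb1 ((O1.valuation_le_one_iff b).1 h))
  have ha0 : a ≠ 0 := by
    rintro rfl
    rw [map_zero] at ha2'
    exact absurd ha2' (not_lt.2 zero_le_one)
  have hb0 : b ≠ 0 := by
    rintro rfl
    rw [map_zero] at hb1'
    exact absurd hb1' (not_lt.2 zero_le_one)
  set t : F := a / b with ht
  have ht1 : O1.valuation t < 1 := by
    rw [ht, map_div₀, div_lt_one₀ (zero_lt_one.trans hb1')]
    exact lt_of_le_of_lt ha1' hb1'
  have ht2 : 1 < O2.valuation t := by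
    rw [ht, map_div₀]
    have hb0' : 0 < O2.valuation b := zero_lt_iff.2 ((Valuation.ne_zero_iff _).2 hb0)
    rw [one_lt_div₀ hb0']
    exact lt_of_le_of_lt hb2' ha2'
  have h1t1 : O1.valuation (1 + t) = 1 := by
    have := Valuation.map_add_eq_of_lt_left O1.valuation (x := 1) (y := t)
      (by rw [map_one]; exact ht1)
    rwa [map_one] at this
  have h1t2 : O2.valuation (1 + t) = O2.valuation t :=
    Valuation.map_add_eq_of_lt_right O2.valuation (by rw [map_one]; exact ht2)
  have h1t0 : (1 + t) ≠ 0 := by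
    intro h
    rw [h, map_zero] at h1t1
    exact zero_ne_one h1t1
  have hcharF : CharZero F := charZero_of_injective_algebraMap (algebraMap K F).injective
  have h22 : O2.valuation (2 : F) = 1 := by
    have e1 : O2.valuation (2 : F) ≤ 1 := by
      rw [O2.valuation_le_one_iff]
      have := h2 2
      rwa [map_ofNat] at this
    have e2 : O2.valuation (2 : F)⁻¹ ≤ 1 := by
      rw [O2.valuation_le_one_iff]
      have := h2 2⁻¹
      rwa [map_inv₀, map_ofNat] at this
    refine le_antisymm e1 ?_
    rw [map_inv₀] at e2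
    exact (inv_le_one₀ (zero_lt_iff.2 ((Valuation.ne_zero_iff _).2 two_ne_zero))).1 e2
  have hK1 : ∀ c : K, algebraMap K M c ∈ W1 := by
    intro c
    have h3 : algebraMap K F c ∈ W1.comap (algebraMap F M) := by rw [hW1]; exact h1 c
    rw [ValuationSubring.mem_comap, ← IsScalarTower.algebraMap_apply] at h3
    exact h3
  have hK2 : ∀ c : K, algebraMap K M c ∈ W2 := by
    intro c
    have h3 : algebraMap K F c ∈ W2.comap (algebraMap F M) := by rw [hW2]; exact h2 c
    rw [ValuationSubring.mem_comap, ← IsScalarTower.algebraMap_apply] at h3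
    exact h3
  have hval : ∀ (O : ValuationSubring F) (W : ValuationSubring M),
      W.comap (algebraMap F M) = O → ∀ x : F, O.valuation x < 1 →
        W.valuation (algebraMap F M x) < 1 := by
    intro O W hOW x hx
    rcases (ValuationSubring.mem_nonunits_iff_or _).1 hx with h | h
    · rw [h, map_zero, map_zero]
      exact zero_lt_one
    · apply (ValuationSubring.mem_nonunits_iff_or _).2
      right
      intro h3
      apply h
      rw [← hOW, ValuationSubring.mem_comap, map_inv₀]
      exact h3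
  have hf1 : O1.valuation ((1 + 2 * t) / (1 + t) - 1) < 1 := by
    have e : (1 + 2 * t) / (1 + t) - 1 = t / (1 + t) := by
      field_simp
      ring
    rw [e, map_div₀, h1t1, div_one]
    exact ht1
  have hf2 : O2.valuation ((1 + 2 * t) / (1 + t) / 2 - 1) < 1 := by
    have e : (1 + 2 * t) / (1 + t) / 2 - 1 = -(1 / (2 * (1 + t))) := by
      field_simp
      ring
    rw [e, Valuation.map_neg, map_div₀, map_one, map_mul, h22, one_mul, h1t2]
    rw [div_lt_one₀ (zero_lt_one.trans ht2)]
    exact ht2
  obtain ⟨g1, hg1, hg1N⟩ := exists_root A hK1 hs1 (hF ((1 + 2 * t) / (1 + t))) (by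
    have := hval O1 W1 hW1 _ hf1
    rwa [map_sub, map_one] at this) (N := N) hN0
  obtain ⟨g2, hg2, hg2N⟩ := exists_root A hK2 hs2 (hF ((1 + 2 * t) / (1 + t) / 2)) (by
    have := hval O2 W2 hW2 _ hf2
    rwa [map_sub, map_one] at this) (N := N) hN0
  have hcharM : CharZero M := charZero_of_injective_algebraMap (algebraMap K M).injective
  have hnz : algebraMap F M ((1 + 2 * t) / (1 + t)) ≠ 0 := by
    intro h0
    have h3 := hval O1 W1 hW1 _ hf1
    rw [map_sub, h0, map_one, zero_sub, Valuation.map_neg, map_one] at h3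
    exact lt_irrefl _ h3
  have hpow : (g1 / g2) ^ N = 2 := by
    rw [div_pow, hg1N, hg2N, map_div₀ (algebraMap F M) _ 2, map_ofNat]
    field_simp
  obtain ⟨z, hz⟩ := Pool.Agent.W620.SC.root_mem (A.j : AlgebraicClosure K →+* M)
    (n := N) hN0 (h := g1 / g2) (b := 2) (by rw [hpow, map_ofNat])
  have hzf : A.j z ∈ A.fix := by
    have hz' : A.j z = g1 / g2 := hz
    rw [hz']
    exact div_mem hg1 hg2
  obtain ⟨c, hc⟩ := A.fix_j hzf
  refine hroot c ?_
  apply (algebraMap K (AlgebraicClosure K)).injective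
  apply (A.j : AlgebraicClosure K →+* M).injective
  rw [map_pow, map_pow, hc, hz, map_ofNat, map_ofNat]
  exact hpow

end Pool.Agent.Y791.BS
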