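import Pool.Agent.W858.SF.Comp
import Pool.Agent.TH954.Expo
import Mathlib.Analysis.Normed.Unbundled.SpectralNorm
import Mathlib.Algebra.AlgebraicCard

/-!
# Completions of number fields as local fields
-/

set_option autoImplicit false

open IsDedekindDomain NumberField WithZero

namespace Pool.Agent.Y791.BS

variable {K : Type} [Field K] [NumberField K]

/-- the completion as a nontrivially normed field -/
@[reducible]
noncomputable def nnf (v : HeightOneSpectrum (𝓞 K)) : NontriviallyNormedField (v.adicCompletion K) :=
  Valued.toNontriviallyNormedField (L := v.adicCompletion K) (Γ₀ := ℤᵐ⁰)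

lemma ultra (v : HeightOneSpectrum (𝓞 K)) : IsUltrametricDist (v.adicCompletion K) := by
  infer_instance

lemma proper (v : HeightOneSpectrum (𝓞 K)) : ProperSpace (v.adicCompletion K) := by
  refine (Valued.integer.properSpace_iff_completeSpace_and_isDiscreteValuationRing_integer_and_finite_residueField (K := v.adicCompletion K) (Γ₀ := ℤᵐ⁰)).2 ⟨inferInstance, ?_, ?_⟩
  · have h : IsDiscreteValuationRing (v.adicCompletionIntegers K) := inferInstance
    exact h
  · have h := Pool.Agent.W858.SF.finite_residue (L := K) v
    exact h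

lemma charZero_compl (v : HeightOneSpectrum (𝓞 K)) : CharZero (v.adicCompletion K) :=
  charZero_of_injective_algebraMap (algebraMap K (v.adicCompletion K)).injective

/-- there are small transcendental elements -/
lemma exists_transcendental (v : HeightOneSpectrum (𝓞 K)) {d : ℝ} (hd : 0 < d) :
    ∃ ε : v.adicCompletion K, Transcendental K ε ∧ ‖ε‖ < d := by
  obtain ⟨y, hy⟩ : ∃ y : v.adicCompletion K, Transcendental K y := by
    by_contra hcon
    push Not at hcon
    have h2 : Countable K := Pool.Agent.W858.SF.countable_nf K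
    apply Pool.Agent.W858.SF.uncountable_compl K v
    have h3 := Algebraic.countable K (v.adicCompletion K)
    have h4 : {x : v.adicCompletion K | IsAlgebraic K x} = Set.univ :=
      Set.eq_univ_of_forall (fun y => not_not.1 (hcon y))
    rw [h4] at h3
    exact Set.countable_univ_iff.1 h3
  obtain ⟨π, hπ, hπ0⟩ := Submodule.exists_mem_ne_zero_of_ne_bot v.ne_bot
  have hπlt : ‖algebraMap K (v.adicCompletion K) (algebraMap (𝓞 K) K π)‖ < 1 :=
    (FinitePlace.norm_lt_one_iff_mem K v π).mpr hπ
  have hπK : algebraMap (𝓞 K) K π ≠ 0 := by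
    intro h0
    apply hπ0
    exact (FaithfulSMul.algebraMap_injective (𝓞 K) K) (by rw [h0, map_zero])
  obtain ⟨s, hs⟩ := exists_pow_lt_of_lt_one (div_pos hd (by positivity : 0 < ‖y‖ + 1)) hπlt
  refine ⟨algebraMap K (v.adicCompletion K) ((algebraMap (𝓞 K) K π) ^ s) * y, ?_, ?_⟩
  · intro halg
    apply hy
    have h1 : algebraMap K (v.adicCompletion K) ((algebraMap (𝓞 K) K π) ^ s) ≠ 0 :=
      (map_ne_zero _).2 (pow_ne_zero _ hπK)
    have h2 : y = (algebraMap K (v.adicCompletion K) ((algebraMap (𝓞 K) K π) ^ s)⁻¹) *
        (algebraMap K (v.adicCompletion K) ((algebraMap (𝓞 K) K π) ^ s) * y) := by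
      rw [map_inv₀]
      field_simp
    rw [h2]
    exact (isAlgebraic_algebraMap _).mul halg
  · rw [norm_mul, map_pow, norm_pow]
    have h0 := norm_nonneg y
    rw [lt_div_iff₀ (by positivity)] at hs
    refine lt_of_le_of_lt ?_ hs
    exact mul_le_mul_of_nonneg_left (by linarith) (by positivity)

/-- An index for the embeddings of `K(T)` into the completions of `K`. -/
structure Pl (K : Type) [Field K] [NumberField K] where
  v : HeightOneSpectrum (𝓞 K)
  φ : RatFunc K →ₐ[K] v.adicCompletion K

noncomputable instance instAlg (i : Pl K) : Algebra (RatFunc K) (i.v.adicCompletion K) :=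
  i.φ.toRingHom.toAlgebra

lemma algebraMap_eq (i : Pl K) (f : RatFunc K) :
    algebraMap (RatFunc K) (i.v.adicCompletion K) f = i.φ f := rfl

instance instTower (i : Pl K) : IsScalarTower K (RatFunc K) (i.v.adicCompletion K) :=
  IsScalarTower.of_algebraMap_eq' (i.φ.comp_algebraMap).symm

/-- the embedding given by a transcendental element -/
noncomputable def emb {v : HeightOneSpectrum (𝓞 K)} {τ : v.adicCompletion K}
    (h : Transcendental K τ) : RatFunc K →ₐ[K] v.adicCompletion K :=
  RatFunc.liftAlgHom (Polynomial.aeval τ)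
    (nonZeroDivisors_le_comap_nonZeroDivisors_of_injective _ (transcendental_iff_injective.1 h))

lemma emb_algebraMap {v : HeightOneSpectrum (𝓞 K)} {τ : v.adicCompletion K}
    (h : Transcendental K τ) (p : Polynomial K) :
    emb h (algebraMap (Polynomial K) (RatFunc K) p) = Polynomial.aeval τ p := by
  have := RatFunc.liftAlgHom_apply_div (φ := (Polynomial.aeval τ : Polynomial K →ₐ[K] _))
    (nonZeroDivisors_le_comap_nonZeroDivisors_of_injective _ (transcendental_iff_injective.1 h)) p 1
  simpa [emb] using this

end Pool.Agent.Y791.BS
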