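import Pool.Agent.Y791.BS.Obs1

/-!
# The obstruction over `K(T)`
-/

set_option autoImplicit false
set_option linter.unusedSectionVars false

open Polynomial IsDedekindDomain NumberField Topology

namespace Pool.Agent.Y791.BS

open Pool.Agent.TH954

lemma tube {Lv : Type} [NormedField Lv] [ProperSpace Lv] (f : Lv × Lv → Lv) (hf : Continuous f)
    (h0 : ∀ z, ‖z‖ ≤ 1 → f (0, z) ≠ 0) :
    ∃ δ : ℝ, 0 < δ ∧ ∀ ε, ‖ε‖ < δ → ∀ z, ‖z‖ ≤ 1 → f (ε, z) ≠ 0 := by
  have h1 : ∀ᶠ x in 𝓝 (0 : Lv), ∀ y ∈ Metric.closedBall (0 : Lv) 1, f (x, y) ≠ 0 := by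
    refine (isCompact_closedBall (0 : Lv) 1).eventually_forall_of_forall_eventually ?_
    intro y hy
    have h2 : f (0, y) ≠ 0 := h0 y (by simpa using hy)
    have h3 := (hf.continuousAt (x := (0, y))).eventually_ne h2
    exact h3
  obtain ⟨δ, hδ, h2⟩ := Metric.eventually_nhds_iff.1 h1
  refine ⟨δ, hδ, fun ε hε z hz => h2 (by simpa using hε) z (by simpa using hz)⟩

section loc

variable {Lv : Type} [NormedField Lv]

/-- the polynomial with the parameter inserted, affine chart -/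
noncomputable def gA (P : Lv[X][X]) (p q : Lv[X]) (t a : Lv) (l : ℕ) (x : Lv × Lv) : Lv :=
  ∑ j ∈ Finset.range (P.natDegree + 1), (P.coeff j).eval (t + x.1 ^ l) *
    (q.eval (t + x.1 ^ l)) ^ (P.natDegree - j) *
    (a * q.eval (t + x.1 ^ l) + p.eval (t + x.1 ^ l) * x.2 ^ l) ^ j

/-- the polynomial with the parameter inserted, chart at infinity -/
noncomputable def gB (P : Lv[X][X]) (p q : Lv[X]) (t a : Lv) (l : ℕ) (x : Lv × Lv) : Lv :=
  ∑ j ∈ Finset.range (P.natDegree + 1), (P.coeff j).eval (t + x.1 ^ l) *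
    (q.eval (t + x.1 ^ l)) ^ (P.natDegree - j) *
    (a * q.eval (t + x.1 ^ l) * x.2 ^ l + p.eval (t + x.1 ^ l)) ^ j *
      (x.2 ^ l) ^ (P.natDegree - j)

lemma continuous_gA (P : Lv[X][X]) (p q : Lv[X]) (t a : Lv) (l : ℕ) :
    Continuous (gA P p q t a l) := by
  unfold gA
  have hc : ∀ r : Lv[X], Continuous fun x : Lv × Lv => r.eval (t + x.1 ^ l) := fun r =>
    r.continuous.comp (by fun_prop)
  refine continuous_finsetSum _ (fun j _ => ?_)
  have h1 := hc (P.coeff j)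
  have h2 := hc q
  have h3 := hc p
  fun_prop

lemma continuous_gB (P : Lv[X][X]) (p q : Lv[X]) (t a : Lv) (l : ℕ) :
    Continuous (gB P p q t a l) := by
  unfold gB
  have hc : ∀ r : Lv[X], Continuous fun x : Lv × Lv => r.eval (t + x.1 ^ l) := fun r =>
    r.continuous.comp (by fun_prop)
  refine continuous_finsetSum _ (fun j _ => ?_)
  have h1 := hc (P.coeff j)
  have h2 := hc q
  have h3 := hc p
  fun_prop

lemma gA_eq (P : Lv[X][X]) (p q : Lv[X]) (t a : Lv) (l : ℕ) (ε z : Lv)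
    (hq : q.eval (t + ε ^ l) ≠ 0) :
    gA P p q t a l (ε, z) = (q.eval (t + ε ^ l)) ^ P.natDegree *
      (P.map (evalRingHom (t + ε ^ l))).eval
        (a + p.eval (t + ε ^ l) / q.eval (t + ε ^ l) * z ^ l) := by
  have e1 : (P.map (evalRingHom (t + ε ^ l))).eval
        (a + p.eval (t + ε ^ l) / q.eval (t + ε ^ l) * z ^ l) =
      ∑ j ∈ Finset.range (P.natDegree + 1), (P.coeff j).eval (t + ε ^ l) *
        (a + p.eval (t + ε ^ l) / q.eval (t + ε ^ l) * z ^ l) ^ j := by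
    rw [eval_eq_sum_range' (n := P.natDegree + 1)]
    · refine Finset.sum_congr rfl (fun j _ => ?_)
      rw [coeff_map]
      rfl
    · exact Nat.lt_succ_of_le natDegree_map_le
  rw [e1, gA, Finset.mul_sum]
  refine Finset.sum_congr rfl (fun j hj => ?_)
  have hj' : j ≤ P.natDegree := Nat.lt_succ_iff.1 (Finset.mem_range.1 hj)
  simp only
  generalize q.eval (t + ε ^ l) = Q at hq
  generalize p.eval (t + ε ^ l) = P'
  have e2 : a * Q + P' * z ^ l = Q * (a + P' / Q * z ^ l) := by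
    field_simp
  rw [e2, mul_pow]
  have e3 : Q ^ P.natDegree = Q ^ (P.natDegree - j) * Q ^ j := by
    rw [← pow_add, Nat.sub_add_cancel hj']
  rw [e3]
  ring

lemma gB_eq (P : Lv[X][X]) (p q : Lv[X]) (t a : Lv) (l : ℕ) (ε w : Lv) (hw : w ≠ 0) :
    gB P p q t a l (ε, w) = (w ^ l) ^ P.natDegree * gA P p q t a l (ε, w⁻¹) := by
  rw [gA, gB, Finset.mul_sum]
  refine Finset.sum_congr rfl (fun j hj => ?_)
  have hj' : j ≤ P.natDegree := Nat.lt_succ_iff.1 (Finset.mem_range.1 hj)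
  simp only
  generalize q.eval (t + ε ^ l) = Q
  generalize p.eval (t + ε ^ l) = P'
  have e2 : a * Q * w ^ l + P' = w ^ l * (a * Q + P' * w⁻¹ ^ l) := by
    rw [inv_pow]
    field_simp
  rw [e2, mul_pow]
  have e3 : (w ^ l) ^ P.natDegree = (w ^ l) ^ (P.natDegree - j) * (w ^ l) ^ j := by
    rw [← pow_add, Nat.sub_add_cancel hj']
  rw [e3]
  ring

lemma gB_zero (P : Lv[X][X]) (hP : P.Monic) (p q : Lv[X]) (t a : Lv) {l : ℕ} (hl : 1 ≤ l) :
    gB P p q t a l (0, 0) = (p.eval t) ^ P.natDegree := by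
  have h0 : (0 : Lv) ^ l = 0 := zero_pow (by omega)
  rw [gB, Finset.sum_range_succ]
  simp only [h0, add_zero, mul_zero, zero_add, Nat.sub_self, pow_zero, mul_one]
  rw [Finset.sum_eq_zero, zero_add]
  · rw [coeff_natDegree, hP.leadingCoeff, eval_one, one_mul]
  · intro j hj
    have hj' : P.natDegree - j ≠ 0 := by
      have := Finset.mem_range.1 hj
      omega
    rw [zero_pow hj', mul_zero]

/-- no roots of the given form near `t` -/
theorem no_root_near [ProperSpace Lv] (P : Lv[X][X]) (hP : P.Monic) (p q : Lv[X]) (t a : Lv)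
    {l : ℕ} (hl : 1 ≤ l) (hp : p.eval t ≠ 0) (hq : q.eval t ≠ 0)
    (h : ∀ z : Lv, (P.map (evalRingHom t)).eval (a + p.eval t / q.eval t * z ^ l) ≠ 0) :
    ∃ δ : ℝ, 0 < δ ∧ ∀ ε, ‖ε‖ < δ → q.eval (t + ε ^ l) ≠ 0 → ∀ z : Lv,
      (P.map (evalRingHom (t + ε ^ l))).eval
        (a + p.eval (t + ε ^ l) / q.eval (t + ε ^ l) * z ^ l) ≠ 0 := by
  have h0 : (0 : Lv) ^ l = 0 := zero_pow (by omega)
  have hA0 : ∀ z, gA P p q t a l (0, z) ≠ 0 := by
    intro z
    rw [gA_eq P p q t a l 0 z (by rw [h0, add_zero]; exact hq), h0, add_zero]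
    exact mul_ne_zero (pow_ne_zero _ hq) (h z)
  obtain ⟨δ1, hδ1, h1⟩ := tube _ (continuous_gA P p q t a l) (fun z _ => hA0 z)
  obtain ⟨δ2, hδ2, h2⟩ := tube _ (continuous_gB P p q t a l) (fun w _ => by
    by_cases hw : w = 0
    · subst hw
      rw [gB_zero P hP p q t a hl]
      exact pow_ne_zero _ hp
    · rw [gB_eq _ _ _ _ _ _ _ _ hw]
      exact mul_ne_zero (pow_ne_zero _ (pow_ne_zero _ hw)) (hA0 _))
  refine ⟨min δ1 δ2, lt_min hδ1 hδ2, fun ε hε hqε z hz => ?_⟩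
  have hG : gA P p q t a l (ε, z) = 0 := by
    rw [gA_eq P p q t a l ε z hqε, hz, mul_zero]
  by_cases hz1 : ‖z‖ ≤ 1
  · exact h1 ε (hε.trans_le (min_le_left _ _)) z hz1 hG
  · rw [not_le] at hz1
    have hz0 : z ≠ 0 := by
      rintro rfl
      rw [norm_zero] at hz1
      exact absurd hz1 (by norm_num)
    refine h2 ε (hε.trans_le (min_le_right _ _)) z⁻¹ ?_ ?_
    · rw [norm_inv]
      exact inv_le_one_of_one_le₀ hz1.le
    · rw [gB_eq _ _ _ _ _ _ _ _ (inv_ne_zero hz0), inv_inv, hG, mul_zero]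

end loc

end Pool.Agent.Y791.BS
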