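import Pool.Agent.Y791.BS.Kum

/-!
# Division points of points over the rational functions of `S`
-/

set_option autoImplicit false
set_option linter.unusedSectionVars false

open Polynomial WeierstrassCurve IsDedekindDomain NumberField

namespace Pool.Agent.Y791.BS

open Pool.Agent.TH942 Pool.Agent.TH954

section coords

open Pool.Agent.H901R3.MS

open scoped Classical in
/-- torsion points have algebraic coordinates -/
lemma tor_coord {K M : Type} [Field K] [CharZero K] [Field M] [CharZero M] [IsAlgClosed M]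
    (j : AlgebraicClosure K →+* M) {a b : K} (hD : 4 * a ^ 3 + 27 * b ^ 2 ≠ 0) {n : ℕ}
    (hn : 1 ≤ n) : ∀ (W : WeierstrassCurve M), W = CV (j (algebraMap K (AlgebraicClosure K) a))
      (j (algebraMap K (AlgebraicClosure K) b)) →
    ∀ (x y : M) (h : W.toAffine.Nonsingular x y), n • (Affine.Point.some x y h) = 0 →
      ∃ z w, j z = x ∧ j w = y := by
  rintro _ rfl x y h hT
  let : Algebra K M := (j.comp (algebraMap K (AlgebraicClosure K))).toAlgebra
  let j' : AlgebraicClosure K →ₐ[K] M := { j with commutes' := fun _ => rfl }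
  have key : ∀ W : WeierstrassCurve M, W = (sw a b).baseChange M → ∀ (x y : M)
      (h : W.toAffine.Nonsingular x y), n • (Affine.Point.some x y h) = 0 →
      ∃ z w, j' z = x ∧ j' w = y := by
    rintro _ rfl x y h hT
    obtain ⟨T0, hT0⟩ := torsion_mem hD j' n hn _ hT
    rcases T0 with _ | ⟨z, w, h0⟩
    · have h1 : pm (sw a b) j' (.zero : ((sw a b).baseChange _).toAffine.Point) = 0 := map_zero _
      rw [h1] at hT0
      exact absurd hT0.symm (Affine.Point.some_ne_zero _)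
    · obtain ⟨h', e⟩ := pm_some (E := sw a b) j' h0
      rw [e, Affine.Point.some.injEq] at hT0
      exact ⟨z, w, hT0⟩
  exact key _ (base_eq a b M).symm x y h hT

end coords

section glob

variable {K : Type} [Field K] [CharZero K] {M : Type} [Field M] [CharZero M] [IsAlgClosed M]
  [Algebra (RatFunc K) M] (A : SAct (RatFunc K) M) (fr : Frame K) {a b : K}

/-- the image of a constant -/
noncomputable abbrev cc (a : K) : RatFunc K := algebraMap K (RatFunc K) a

lemma cc_disc (hD : 4 * a ^ 3 + 27 * b ^ 2 ≠ 0) : 4 * cc a ^ 3 + 27 * cc b ^ 2 ≠ 0 := by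
  have h : (4 * cc a ^ 3 + 27 * cc b ^ 2) = algebraMap K (RatFunc K) (4 * a ^ 3 + 27 * b ^ 2) := by
    simp only [map_add, map_mul, map_pow, map_ofNat]
  rw [h]
  exact (_root_.map_ne_zero _).2 hD

/-- the points over `M` -/
abbrev PM (M : Type) [Field M] [Algebra (RatFunc K) M] (a b : K) : Type :=
  ((sw (cc a) (cc b)).baseChange M).toAffine.Point

open scoped Classical in
lemma exists_tor_set (hD : 4 * a ^ 3 + 27 * b ^ 2 ≠ 0) {n : ℕ} (hn : 1 ≤ n) :
    ∃ Z : Finset (AlgebraicClosure K), ∀ (x y : M)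
      (h : ((sw (cc a) (cc b)).baseChange M).toAffine.Nonsingular x y),
      n • (Affine.Point.some x y h : PM M a b) = 0 →
      ∃ z ∈ Z, ∃ w ∈ Z, A.j (fr.e z) = x ∧ A.j (fr.e w) = y := by
  have hch : CharZero (RatFunc K) :=
    charZero_of_injective_algebraMap (algebraMap K (RatFunc K)).injective
  obtain ⟨hfin, -⟩ := card_base_lt (cc_disc hD) M hn
  have hex : ∀ T : PM M a b, ∃ zw : AlgebraicClosure K × AlgebraicClosure K, n • T = 0 →
      ∀ x y h, T = .some x y h → A.j (fr.e zw.1) = x ∧ A.j (fr.e zw.2) = y := by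
    intro T
    by_cases hT : n • T = 0
    · rcases T with _ | ⟨x, y, h⟩
      · exact ⟨(0, 0), fun _ x y h e => absurd e.symm (Affine.Point.some_ne_zero _)⟩
      · obtain ⟨z, w, hz, hw⟩ := tor_coord
          ((A.j : Kb K →+* M).comp (fr.e : AlgebraicClosure K →+* Kb K)) hD hn
          ((sw (cc a) (cc b)).baseChange M) (by
            rw [base_eq]
            have e1 : ∀ c : K, algebraMap (RatFunc K) M (cc c) =
                ((A.j : Kb K →+* M).comp (fr.e : AlgebraicClosure K →+* Kb K))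
                  (algebraMap K (AlgebraicClosure K) c) := by
              intro c
              change _ = A.j (fr.e (algebraMap K (AlgebraicClosure K) c))
              rw [fr.e.commutes, IsScalarTower.algebraMap_apply K (RatFunc K) (Kb K),
                A.j.commutes]
            rw [e1, e1]) x y h hT
        refine ⟨(z, w), fun _ x' y' h' e => ?_⟩
        rw [Affine.Point.some.injEq] at e
        exact ⟨hz.trans e.1, hw.trans e.2⟩
    · exact ⟨(0, 0), fun h => absurd h hT⟩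
  choose g hg using hex
  refine ⟨(hfin.toFinset.image (fun T => (g T).1)) ∪ (hfin.toFinset.image (fun T => (g T).2)),
    fun x y h hT => ?_⟩
  have hm : (Affine.Point.some x y h : PM M a b) ∈ hfin.toFinset := by
    rw [Set.Finite.mem_toFinset]
    exact hT
  obtain ⟨h1, h2⟩ := hg _ hT x y h rfl
  exact ⟨_, Finset.mem_union_left _ (Finset.mem_image_of_mem _ hm), _,
    Finset.mem_union_right _ (Finset.mem_image_of_mem _ hm), h1, h2⟩

open scoped Classical in
lemma pt_fix {Z : Set (AlgebraicClosure K)} {n : ℕ}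
    (hZ : ∀ (x y : M) (h : ((sw (cc a) (cc b)).baseChange M).toAffine.Nonsingular x y),
      n • (Affine.Point.some x y h : PM M a b) = 0 →
      ∃ z ∈ Z, ∃ w ∈ Z, A.j (fr.e z) = x ∧ A.j (fr.e w) = y)
    {T : PM M a b} (hT : n • T = 0) {τ : Kb K ≃ₐ[RatFunc K] Kb K} (hτ : τ ∈ fr.HZ Z) :
    A.pt (cc a) (cc b) τ T = T := by
  rcases T with _ | ⟨x, y, h⟩
  · exact map_zero _
  · obtain ⟨z, hz, w, hw, rfl, rfl⟩ := hZ x y h hT
    obtain ⟨h', e⟩ := pm_some (E := sw (cc a) (cc b))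
      ((A.s τ : M ≃ₐ[RatFunc K] M) : M →ₐ[RatFunc K] M) h
    unfold SAct.pt
    rw [e, Affine.Point.some.injEq]
    constructor
    · change A.s τ (A.j (fr.e z)) = _
      rw [A.hj, hτ.1 z hz]
    · change A.s τ (A.j (fr.e w)) = _
      rw [A.hj, hτ.1 w hw]

open scoped Classical in
/-- the global part: a Kummer radical attached to a division point -/
theorem exists_glob (hD : 4 * a ^ 3 + 27 * b ^ 2 ≠ 0) {l : ℕ} (hl : l.Prime) {Q Q' : PM M a b}
    (hQ : l • Q = Q') (hQ' : ∀ h ∈ fr.HZ Set.univ, A.pt (cc a) (cc b) h Q' = Q')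
    {h0 : Kb K ≃ₐ[RatFunc K] Kb K} (hh0 : h0 ∈ fr.HZ Set.univ)
    (hne : A.pt (cc a) (cc b) h0 Q ≠ Q) :
    ∃ (Z : Finset (AlgebraicClosure K)) (β : Kb K) (g : (AlgebraicClosure K)[X])
      (c : AlgebraicClosure K) (m : ℕ) (ζ : AlgebraicClosure K),
      c ∈ Z ∧ (∀ n, g.coeff n ∈ Z) ∧ g.eval c ∈ Z ∧ ζ ∈ Z ∧ IsPrimitiveRoot ζ l ∧
      algebraMap K (AlgebraicClosure K) (2 * (4 * a ^ 3 + 27 * b ^ 2)) ∈ Z ∧
      (∀ (x y : M) (h : ((sw (cc a) (cc b)).baseChange M).toAffine.Nonsingular x y),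
        l • (Affine.Point.some x y h : PM M a b) = 0 →
        ∃ z ∈ Z, ∃ w ∈ Z, A.j (fr.e z) = x ∧ A.j (fr.e w) = y) ∧
      g.eval c ≠ 0 ∧ ¬ l ∣ m ∧
      β ^ l = (fr.S - fr.e c) ^ m * eval₂ (fr.e : AlgebraicClosure K →+* Kb K) fr.S g ∧
      (∀ h ∈ fr.HZ (Z : Set (AlgebraicClosure K)),
        l • (A.pt (cc a) (cc b) h Q - Q) = 0) ∧
      (∀ h ∈ fr.HZ (Z : Set (AlgebraicClosure K)), A.pt (cc a) (cc b) h Q = Q → h β = β) := by
  have hch : CharZero (RatFunc K) :=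
    charZero_of_injective_algebraMap (algebraMap K (RatFunc K)).injective
  -- a finite level which fixes `Q'`
  obtain ⟨F1, hF1, hF1Q⟩ := A.pt_cont (a := cc a) (b := cc b) Q'
  obtain ⟨Z1, hZ1⟩ := fr.exists_level {h | A.pt (cc a) (cc b) h Q' = Q'} F1 (by
    intro x hx y hy
    change A.pt (cc a) (cc b) (x * y) Q' = Q'
    rw [A.pt_mul, hF1Q y (fun z hz => (IntermediateField.mem_fixingSubgroup_iff _ _).1 hy z hz)]
    exact hx) hQ'
  obtain ⟨Z2, hZ2⟩ := exists_tor_set A fr (M := M) hD hl.one_le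
  have : NeZero l := ⟨hl.ne_zero⟩
  obtain ⟨ζ, hζ⟩ : ∃ ζ : AlgebraicClosure K, IsPrimitiveRoot ζ l :=
    HasEnoughRootsOfUnity.exists_primitiveRoot (AlgebraicClosure K) l
  set Z3 : Finset (AlgebraicClosure K) := Z1 ∪ Z2 ∪ {ζ} with hZ3
  have h13 : Z1 ⊆ Z3 := fun x hx => by simp [hZ3, hx]
  have h23 : Z2 ⊆ Z3 := fun x hx => by simp [hZ3, hx]
  have hζ3 : ζ ∈ Z3 := by simp [hZ3]
  set T := fr.HZ (Z3 : Set (AlgebraicClosure K)) with hT
  have hTQ' : ∀ h ∈ T, A.pt (cc a) (cc b) h Q' = Q' := fun h hh =>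
    hZ1 h (fr.HZ_mono (by exact_mod_cast h13) hh)
  set ξ : (Kb K ≃ₐ[RatFunc K] Kb K) → PM M a b := fun h => A.pt (cc a) (cc b) h Q - Q with hξ
  have hξl : ∀ h ∈ T, l • ξ h = 0 := by
    intro h hh
    rw [hξ]
    simp only
    rw [smul_sub, ← map_nsmul, hQ, hTQ' h hh, sub_self]
  have hZ23 : ∀ (x y : M) (h : ((sw (cc a) (cc b)).baseChange M).toAffine.Nonsingular x y),
        l • (Affine.Point.some x y h : PM M a b) = 0 →
        ∃ z ∈ (Z3 : Set (AlgebraicClosure K)), ∃ w ∈ (Z3 : Set (AlgebraicClosure K)),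
          A.j (fr.e z) = x ∧ A.j (fr.e w) = y := by
    intro x y h hh
    obtain ⟨z, hz, w, hw, e⟩ := hZ2 x y h hh
    exact ⟨z, h23 hz, w, h23 hw, e⟩
  have hξfix : ∀ g ∈ T, ∀ h ∈ T, A.pt (cc a) (cc b) g (ξ h) = ξ h := fun g hg h hh =>
    pt_fix A fr hZ23 (hξl h hh) hg
  have hξmul : ∀ g ∈ T, ∀ h ∈ T, ξ (g * h) = ξ g + ξ h := by
    intro g hg h hh
    have e1 : A.pt (cc a) (cc b) h Q = Q + ξ h := (add_sub_cancel Q _).symm
    have e2 : A.pt (cc a) (cc b) g Q = Q + ξ g := (add_sub_cancel Q _).symm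
    change A.pt (cc a) (cc b) (g * h) Q - Q = _
    rw [A.pt_mul, e1, map_add, hξfix g hg h hh, e2]
    abel
  have hh0T : h0 ∈ T := fr.HZ_mono (Set.subset_univ _) hh0
  have hζK : IsPrimitiveRoot (fr.e ζ) l := hζ.map_of_injective fr.e.injective
  obtain ⟨χ, hχ1, hχ2, hχ3, hχ4⟩ := exists_char hl (ξ h0) (sub_ne_zero.2 hne) (hξl h0 hh0T) hζK
  obtain ⟨F2, hF2, hF2Q⟩ := A.pt_cont (a := cc a) (b := cc b) Q
  have hfixζ : ∀ σ ∈ T, σ (fr.e ζ) = fr.e ζ := fun σ hσ => hσ.1 ζ hζ3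
  obtain ⟨β, hβ0, hβ⟩ := exists_eigen T (fun h => χ (ξ h)) (by
      intro σ _
      obtain ⟨n, hn⟩ := hχ2 (ξ σ)
      rw [hn]
      exact pow_ne_zero _ (hζK.ne_zero hl.ne_zero)) (by
      intro σ hσ τ hτ
      rw [hξmul σ hσ τ hτ, hχ1 _ _ (hξl σ hσ) (hξl τ hτ)]) (by
      intro σ hσ τ _
      obtain ⟨n, hn⟩ := hχ2 (ξ τ)
      rw [hn, map_pow, hfixζ σ hσ]) F2 (by
      intro σ _ hσ
      have h1 := hF2Q σ (fun z hz => (IntermediateField.mem_fixingSubgroup_iff _ _).1 hσ z hz)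
      have h2 : ξ σ = 0 := by rw [hξ]; simp only; rw [h1, sub_self]
      rw [h2, hχ3])
  have hβl : ∀ h ∈ fr.HZ Set.univ, h (β ^ l) = β ^ l := by
    intro h hh
    obtain ⟨n, hn⟩ := hχ2 (ξ h)
    rw [map_pow, hβ h (fr.HZ_mono (Set.subset_univ _) hh), mul_pow, hn, ← pow_mul, mul_comm n,
      pow_mul, hζK.pow_eq_one, one_pow, one_mul]
  have hβne : h0 β ≠ β := by
    rw [hβ h0 hh0T]
    intro h
    apply hχ4
    exact mul_right_cancel₀ hβ0 (by rw [h, one_mul])
  obtain ⟨q, g, c, m, hq0, hgc, hm, hβq⟩ := fr.exists_rad hl hβ0 hβl hh0 hβne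
  set Z : Finset (AlgebraicClosure K) := Z3 ∪ (insert 0 g.coeffs) ∪ q.coeffs ∪
    {c, g.eval c, algebraMap K (AlgebraicClosure K) (2 * (4 * a ^ 3 + 27 * b ^ 2))} with hZ
  have h3Z : Z3 ⊆ Z := fun x hx => by simp [hZ, hx]
  have hHZ : fr.HZ (Z : Set (AlgebraicClosure K)) ≤ T := fr.HZ_mono (by exact_mod_cast h3Z)
  have hqfix : ∀ h ∈ fr.HZ (Z : Set (AlgebraicClosure K)),
      h (eval₂ (fr.e : AlgebraicClosure K →+* Kb K) fr.S q) =
        eval₂ (fr.e : AlgebraicClosure K →+* Kb K) fr.S q := by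
    intro h hh
    rw [eval₂_eq_sum_range, map_sum]
    refine Finset.sum_congr rfl fun n _ => ?_
    rw [map_mul, map_pow, hh.2]
    congr 1
    by_cases hn : q.coeff n = 0
    · rw [hn, map_zero, map_zero]
    · apply hh.1
      rw [Finset.mem_coe, hZ]
      have : q.coeff n ∈ q.coeffs := coeff_mem_coeffs hn
      simp [this]
  refine ⟨Z, β * eval₂ (fr.e : AlgebraicClosure K →+* Kb K) fr.S q, g, c, m, ζ, ?_, ?_, ?_,
    h3Z hζ3, hζ, ?_, ?_, hgc, hm, hβq, fun h hh => hξl h (hHZ hh), ?_⟩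
  · simp [hZ]
  · intro n
    by_cases hn : g.coeff n = 0
    · simp [hZ, hn]
    · have : g.coeff n ∈ g.coeffs := coeff_mem_coeffs hn
      simp [hZ, this]
  · simp [hZ]
  · simp [hZ]
  · intro x y h hh
    obtain ⟨z, hz, w, hw, e⟩ := hZ2 x y h hh
    exact ⟨z, h3Z (h23 hz), w, h3Z (h23 hw), e⟩
  · intro h hh hhQ
    rw [map_mul, hqfix h hh, hβ h (hHZ hh)]
    have h2 : ξ h = 0 := by rw [hξ]; simp only; rw [hhQ, sub_self]
    rw [h2, hχ3, one_mul]

end glob

end Pool.Agent.Y791.BS
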