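import Pool.Agent.Y791.BS.Loc
import Pool.Agent.Y791.BS.Tasks
import Pool.Agent.TH954.SFix

/-!
# The algebraic closure of `K(T)`, the square root of `T`, and rational functions in it
-/

set_option autoImplicit false
set_option linter.unusedSectionVars false

open Polynomial IsDedekindDomain NumberField Topology

namespace Pool.Agent.Y791.BS

open Pool.Agent.TH954

/-- the algebraic closure of `K(T)` -/
abbrev Kb (K : Type) [Field K] : Type := AlgebraicClosure (RatFunc K)

variable {K : Type} [Field K]

/-- two homomorphisms on rational functions which agree on constants and on the variable -/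
lemma ratFunc_hom_ext {A : Type} [Field A] {f g : RatFunc K →+* A}
    (h1 : ∀ c : K, f (algebraMap K (RatFunc K) c) = g (algebraMap K (RatFunc K) c))
    (h2 : f RatFunc.X = g RatFunc.X) : f = g := by
  apply IsLocalization.ringHom_ext (nonZeroDivisors K[X])
  apply Polynomial.ringHom_ext
  · intro c
    have := h1 c
    rw [RatFunc.algebraMap_eq_C] at this
    simpa using this
  · simpa using h2

/-- a square root of the variable and an embedding of the algebraic closure of `K` -/
structure Frame (K : Type) [Field K] where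
  e : AlgebraicClosure K →ₐ[K] Kb K
  S : Kb K
  sq : S ^ 2 = algebraMap (RatFunc K) (Kb K) RatFunc.X

lemma exists_frame : Nonempty (Frame K) := by
  obtain ⟨S, hS⟩ := IsAlgClosed.exists_pow_nat_eq (algebraMap (RatFunc K) (Kb K) RatFunc.X)
    (n := 2) (by norm_num)
  exact ⟨⟨IsAlgClosed.lift, S, hS⟩⟩

namespace Frame

variable (fr : Frame K)

lemma inj : Function.Injective (Polynomial.eval₂RingHom (fr.e : AlgebraicClosure K →+* Kb K)
    fr.S) := by
  have h1 : Transcendental K (RatFunc.X : RatFunc K) := RatFunc.transcendental_X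
  have h2 : Transcendental K fr.S := by
    intro h
    apply h1
    have h3 : IsAlgebraic K (algebraMap (RatFunc K) (Kb K) RatFunc.X) := by
      rw [← fr.sq]
      exact h.pow 2
    exact (isAlgebraic_algebraMap_iff (algebraMap (RatFunc K) (Kb K)).injective).1 h3
  let : Algebra (AlgebraicClosure K) (Kb K) := fr.e.toRingHom.toAlgebra
  have : IsScalarTower K (AlgebraicClosure K) (Kb K) :=
    IsScalarTower.of_algebraMap_eq' fr.e.comp_algebraMap.symm
  have h4 : Transcendental (AlgebraicClosure K) fr.S := by
    intro h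
    exact h2 (h.restrictScalars K)
  exact transcendental_iff_injective.1 h4

/-- rational functions of `S` over the algebraic closure of `K` -/
noncomputable def α : RatFunc (AlgebraicClosure K) →+* Kb K :=
  RatFunc.liftRingHom (Polynomial.eval₂RingHom (fr.e : AlgebraicClosure K →+* Kb K) fr.S)
    (nonZeroDivisors_le_comap_nonZeroDivisors_of_injective _ fr.inj)

lemma α_poly (f : (AlgebraicClosure K)[X]) :
    fr.α (algebraMap _ (RatFunc (AlgebraicClosure K)) f) =
      eval₂ (fr.e : AlgebraicClosure K →+* Kb K) fr.S f := by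
  unfold α
  rw [RatFunc.liftRingHom_algebraMap]
  rfl

lemma α_C (z : AlgebraicClosure K) :
    fr.α (algebraMap _ (RatFunc (AlgebraicClosure K)) z) = fr.e z := by
  have h := fr.α_poly (C z)
  rw [eval₂_C] at h
  rw [RatFunc.algebraMap_eq_C, ← RatFunc.algebraMap_C]
  exact h

lemma α_X : fr.α RatFunc.X = fr.S := by
  have h := fr.α_poly X
  rw [eval₂_X] at h
  rw [← RatFunc.algebraMap_X]
  exact h

/-- the inclusion of `K(T)` in the rational functions of `S` -/
lemma exists_κ : ∃ κ : RatFunc K →+* RatFunc (AlgebraicClosure K),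
    (∀ c : K, κ (algebraMap K (RatFunc K) c) =
      algebraMap (AlgebraicClosure K) _ (algebraMap K (AlgebraicClosure K) c)) ∧
    κ RatFunc.X = RatFunc.X ^ 2 := by
  have hinj : Function.Injective (Polynomial.eval₂RingHom
      ((algebraMap (AlgebraicClosure K) (RatFunc (AlgebraicClosure K))).comp
        (algebraMap K (AlgebraicClosure K))) (RatFunc.X ^ 2)) := by
    have h1 : Transcendental (AlgebraicClosure K) (RatFunc.X : RatFunc (AlgebraicClosure K)) :=
      RatFunc.transcendental_X
    have h2 : Transcendental K (RatFunc.X ^ 2 : RatFunc (AlgebraicClosure K)) := by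
      refine Transcendental.pow ?_ (by norm_num)
      exact h1.restrictScalars (algebraMap K (AlgebraicClosure K)).injective
    have h3 := transcendental_iff_injective.1 h2
    exact h3
  refine ⟨RatFunc.liftRingHom _
    (nonZeroDivisors_le_comap_nonZeroDivisors_of_injective _ hinj), ?_, ?_⟩
  · intro c
    have e : algebraMap K (RatFunc K) c = algebraMap K[X] (RatFunc K) (C c) := by
      rw [RatFunc.algebraMap_C, RatFunc.algebraMap_eq_C]
    rw [e, RatFunc.liftRingHom_algebraMap]
    change eval₂ _ _ (C c) = _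
    rw [eval₂_C]
    rfl
  · have e : (RatFunc.X : RatFunc K) = algebraMap K[X] (RatFunc K) X := RatFunc.algebraMap_X.symm
    rw [e, RatFunc.liftRingHom_algebraMap]
    change eval₂ _ _ X = _
    rw [eval₂_X]

/-- the field of rational functions of `S` as an intermediate field -/
noncomputable def N : IntermediateField (RatFunc K) (Kb K) :=
  { fr.α.fieldRange with
    algebraMap_mem' := by
      obtain ⟨κ, h1, h2⟩ := exists_κ (K := K)
      intro x
      have h3 : fr.α.comp κ = algebraMap (RatFunc K) (Kb K) := by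
        apply ratFunc_hom_ext
        · intro c
          rw [RingHom.comp_apply, h1, fr.α_C, fr.e.commutes]
          exact IsScalarTower.algebraMap_apply K (RatFunc K) (Kb K) c
        · rw [RingHom.comp_apply, h2, map_pow, fr.α_X, fr.sq]
      exact ⟨κ x, by rw [← h3]; rfl⟩ }

lemma mem_N {x : Kb K} : x ∈ fr.N ↔ ∃ r, fr.α r = x := Iff.rfl

/-- the automorphisms which fix the elements of `Z` and `S` -/
def HZ (Z : Set (AlgebraicClosure K)) : Subgroup (Kb K ≃ₐ[RatFunc K] Kb K) where
  carrier := {h | (∀ z ∈ Z, h (fr.e z) = fr.e z) ∧ h fr.S = fr.S}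
  mul_mem' := fun {g h} hg hh => ⟨fun z hz => by
    change g (h (fr.e z)) = fr.e z
    rw [hh.1 z hz, hg.1 z hz], by
    change g (h fr.S) = fr.S
    rw [hh.2, hg.2]⟩
  one_mem' := ⟨fun _ _ => rfl, rfl⟩
  inv_mem' := fun {g} hg => ⟨fun z hz => by
    change g.symm (fr.e z) = fr.e z
    rw [AlgEquiv.symm_apply_eq, hg.1 z hz], by
    change g.symm fr.S = fr.S
    rw [AlgEquiv.symm_apply_eq, hg.2]⟩

lemma mem_HZ {Z : Set (AlgebraicClosure K)} {h : Kb K ≃ₐ[RatFunc K] Kb K} :
    h ∈ fr.HZ Z ↔ (∀ z ∈ Z, h (fr.e z) = fr.e z) ∧ h fr.S = fr.S := Iff.rfl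

lemma HZ_mono {Z Z' : Set (AlgebraicClosure K)} (hZ : Z ⊆ Z') : fr.HZ Z' ≤ fr.HZ Z :=
  fun _ h => ⟨fun z hz => h.1 z (hZ hz), h.2⟩

/-- automorphisms fixing all constants and `S` fix the rational functions of `S` -/
lemma fix_α {h : Kb K ≃ₐ[RatFunc K] Kb K} (hh : h ∈ fr.HZ Set.univ)
    (r : RatFunc (AlgebraicClosure K)) : h (fr.α r) = fr.α r := by
  have h1 : (h : Kb K →+* Kb K).comp fr.α = fr.α := by
    apply ratFunc_hom_ext
    · intro c
      rw [RingHom.comp_apply, fr.α_C]
      exact hh.1 c (Set.mem_univ c)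
    · rw [RingHom.comp_apply, fr.α_X]
      exact hh.2
  exact congrArg (fun f : RatFunc (AlgebraicClosure K) →+* Kb K => f r) h1

/-- elements fixed by `HZ univ` are rational functions of `S` -/
lemma exists_of_fixed [CharZero K] {x : Kb K} (hx : ∀ h ∈ fr.HZ Set.univ, h x = x) :
    ∃ r, fr.α r = x := by
  have hc : CharZero (RatFunc K) :=
    charZero_of_injective_algebraMap (algebraMap K (RatFunc K)).injective
  have : IsGalois (RatFunc K) (Kb K) := ⟨⟩
  rw [← fr.mem_N]
  apply Pool.Agent.W620.SC.mem_of_fixed fr.N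
  intro σ hσ
  apply hx
  rw [IntermediateField.mem_fixingSubgroup_iff] at hσ
  refine ⟨fun z _ => hσ _ ⟨_, fr.α_C z⟩, hσ _ ⟨_, fr.α_X⟩⟩

end Frame

end Pool.Agent.Y791.BS
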