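import Pool.Agent.Y791.BS.Fin
import Pool.Agent.Y791.BS.Short

/-!
# The birational section conjecture for curves over twists of constant elliptic curves

Let `K` be a number field, `k = K(T)` the field of rational functions and `f ∈ K[x]` a separable
cubic polynomial.  Let `X` be any curve over `k` with a nonconstant map to the elliptic curve
`T y² = f(x)`, the quadratic twist by `T` of the constant curve `y² = f(x)`: the function field `F` of
`X` contains elements `x`, `y` with `T y² = f(x)`, `x` transcendental over `k`.  Then every section of
`Gal(Ω/F) → Gal(B/k)`, where `Ω` and `B` are algebraic closures of `F` and `k`, arises from exactly one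
`k`-rational point of `X`.  Here `s` is assumed to be given by rational points over the completions of
`K` at its finite places, for all the embeddings of `k` over `K`; by the theorem of Koenigsmann on
birational sections over `p`-adically closed fields this holds for every section.
-/

set_option autoImplicit false

open Polynomial IsDedekindDomain NumberField Pool.Agent.TH954 Pool.Agent.Y791.BS

namespace Pool.Agent.Y791.BS.TwistedConstantCurves

/-- The section `s` is given by a rational point over the extension `L` of `k` along `φ`, with the
algebraic closure of `L` as field of values. -/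
def GeometricAlong {k F Ω B : Type} [Field k] [Field F] [Field Ω] [Field B] [Algebra F Ω]
    [Algebra k Ω] [Algebra k B] (s : GalSection k F Ω B) {L : Type} [Field L] (φ : k →+* L) :
    Prop :=
  letI := φ.toAlgebra
  s.GeometricOver L (AlgebraicClosure L)

/-- **Theorem.** The birational section conjecture over `k = K(T)` for all curves with a nonconstant
map to an elliptic curve `T y² = f(x)`, `f` a separable cubic polynomial over the number field `K`. -/
theorem result (K : Type) [Field K] [NumberField K] (f : K[X]) (hf : f.Separable)
    (hdeg : f.natDegree = 3) (F Ω B : Type) [Field F] [Field Ω] [Field B]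
    [Algebra (RatFunc K) F] [Algebra F Ω] [Algebra (RatFunc K) Ω] [Algebra (RatFunc K) B]
    [IsScalarTower (RatFunc K) F Ω] [IsAlgClosure F Ω] [IsAlgClosure (RatFunc K) B]
    (hF : ∃ t : F, Transcendental (RatFunc K) t ∧
      Algebra.IsAlgebraic (IntermediateField.adjoin (RatFunc K) {t}) F)
    (x y : F) (hx : Transcendental (RatFunc K) x)
    (hxy : algebraMap (RatFunc K) F RatFunc.X * y ^ 2 =
      aeval x (f.map (algebraMap K (RatFunc K))))
    (s : GalSection (RatFunc K) F Ω B)
    (hloc : ∀ (v : HeightOneSpectrum (𝓞 K)) (φ : RatFunc K →ₐ[K] v.adicCompletion K),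
      GeometricAlong s (φ : RatFunc K →+* v.adicCompletion K)) :
    ∃! O : ValuationSubring F, s.ArisesFrom O := by
  obtain ⟨a, b, p, q, r, hD, hp, hr, ha, hb, hid⟩ := exists_short f hf hdeg
  have hint : ∀ c : K, IsIntegral ℤ c → ∀ v : HeightOneSpectrum (𝓞 K),
      ‖algebraMap K (v.adicCompletion K) c‖ ≤ 1 := fun c hc v =>
    FinitePlace.norm_le_one K (v := v) (⟨c, hc⟩ : 𝓞 K)
  have hp' : algebraMap (RatFunc K) F (cc p) ≠ 0 := (_root_.map_ne_zero _).2
    ((_root_.map_ne_zero _).2 hp)
  obtain ⟨O, h1, -, h3⟩ := bir_base hD (hint a ha) (hint b hb) hF
    (algebraMap (RatFunc K) F (cc p) * x + algebraMap (RatFunc K) F (cc q))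
    (algebraMap (RatFunc K) F (cc r) * y) (by
      intro h
      apply hx
      have e : x = (algebraMap (RatFunc K) F (cc p))⁻¹ *
          ((algebraMap (RatFunc K) F (cc p) * x + algebraMap (RatFunc K) F (cc q)) -
            algebraMap (RatFunc K) F (cc q)) := by
        field_simp
        ring
      rw [e]
      exact ((isAlgebraic_algebraMap _).inv).mul (h.sub (isAlgebraic_algebraMap _))) (by
      have h1 := congrArg (fun g : K[X] => aeval x (g.map (algebraMap K (RatFunc K)))) hid
      simp only [Polynomial.map_add, Polynomial.map_mul, Polynomial.map_pow, map_C, map_X,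
        map_add, map_mul, map_pow, aeval_C, aeval_X] at h1
      rw [← hxy] at h1
      linear_combination (-1 : F) * h1) s (fun i => hloc i.v i.φ)
  exact ⟨O, h1, h3⟩

end Pool.Agent.Y791.BS.TwistedConstantCurves
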